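import Pool.Agent.MP_59efd2_nt.ub.Loc

/-!
# The elliptic units of the curve `s ^ 2 + s = t ^ 3`
-/

noncomputable section

namespace Pool.Agent.MP_59efd2_nt.CM.Ell

open scoped Pointwise Classical
open Finset ChrP lz.UB
open lz (sU Pl DG)
open Pool.Agent.MP_db1c88_nt.QRH (O om lam wC io wC_sq)

variable (φ : O →+* ℤ_[7])

/-- The two embeddings. -/
def psi : Fin 2 → O →+* ℤ_[7] := ![φ.comp (starRingEnd O), φ]

/-- The two embeddings modulo `7 ^ n`. -/
def PP (n : ℕ) : O →+* (Fin 2 → ZMod (7 ^ n)) :=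
  RingHom.pi fun i => (PadicInt.toZModPow n).comp (psi φ i)

lemma PP_apply (n : ℕ) (x : O) (i : Fin 2) : PP φ n x i = PadicInt.toZModPow n (psi φ i x) := rfl

lemma PP_cj (n : ℕ) (g : GQ) (x : O) (i : Fin 2) : PP φ n (cj g x) i = PP φ n x (sw g i) := by
  by_cases h1 : Fix g <;> fin_cases i <;>
    simp [PP_apply, psi, cj, sw, h1, starRingEnd_apply, Fin.rev]

lemma red_PP (n : ℕ) (x : O) (i : Fin 2) : red 7 n (PP φ (n + 1) x i) = PP φ n x i :=
  red_toZModPow 7 n _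

lemma PP_mk (n : ℕ) : ∃ W t : ZMod (7 ^ n), (1 + 2 * W) * t = 1 ∧ ∀ a b : ℤ,
    PP φ n ⟨a, b⟩ 0 = a - b - b * W ∧ PP φ n ⟨a, b⟩ 1 = a + b * W := by
  have h1 : PP φ n om 1 * PP φ n om 1 = -1 - PP φ n om 1 := by
    rw [← Pi.mul_apply, ← map_mul, show om * om = -1 - om by decide, map_sub, map_neg, map_one]
    rfl
  obtain ⟨u, hu⟩ : IsUnit ((3 : ℕ) : ZMod (7 ^ n)) :=
    (ZMod.isUnit_iff_coprime 3 _).2 (Nat.Coprime.pow_right n (by norm_num))
  refine ⟨PP φ n om 1, -(1 + 2 * PP φ n om 1) * (u⁻¹ : (ZMod (7 ^ n))ˣ), ?_, fun a b => ?_⟩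
  · have h2 := u.mul_inv
    rw [hu, Nat.cast_ofNat] at h2
    linear_combination h2 - 4 * (u⁻¹ : (ZMod (7 ^ n))ˣ) * h1
  · have h2 : ∀ a b : ℤ, PP φ n ⟨a, b⟩ 1 = a + b * PP φ n om 1 := fun a b => by
      rw [show (⟨a, b⟩ : O) = a + b * om by ext <;> simp [om], map_add, map_mul, map_intCast,
        map_intCast]
      rfl
    refine ⟨?_, h2 a b⟩
    change PP φ n (star (⟨a, b⟩ : O)) 1 = _
    rw [show star (⟨a, b⟩ : O) = ⟨a - b, -b⟩ by ext <;> simp [sub_eq_add_neg], h2]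
    push_cast
    ring

lemma PP_eq {n : ℕ} {x y : O} : PP φ n x = PP φ n y ↔ (7 : O) ^ n ∣ x - y := by
  rw [← sub_eq_zero, ← map_sub]
  generalize x - y = x
  constructor
  · intro h
    obtain ⟨W, t, ht, hW⟩ := PP_mk φ n
    obtain ⟨h0, h1⟩ := hW x.re x.im
    change PP φ n x 0 = _ at h0
    change PP φ n x 1 = _ at h1
    rw [h, Pi.zero_apply] at h0 h1
    have hb : (x.im : ZMod (7 ^ n)) = 0 := by linear_combination t * (h0 - h1) - x.im * ht
    have ha : (x.re : ZMod (7 ^ n)) = 0 := by linear_combination -h1 - W * hb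
    rw [ZMod.intCast_zmod_eq_zero_iff_dvd] at ha hb
    simpa using (Ari.int_dvd _ x).2 ⟨ha, hb⟩
  · rintro ⟨c, rfl⟩
    have : (7 : Fin 2 → ZMod (7 ^ n)) ^ n = 0 :=
      funext fun _ => by exact_mod_cast ZMod.natCast_self (7 ^ n)
    rw [map_mul, map_pow, map_ofNat, this, zero_mul]

lemma PP_surj (n : ℕ) : Function.Surjective (PP φ n) := fun u => by
  obtain ⟨W, t, ht, hW⟩ := PP_mk φ n
  obtain ⟨b, hb⟩ := ZMod.intCast_surjective ((u 1 - u 0) * t)
  obtain ⟨a, ha⟩ := ZMod.intCast_surjective (u 1 - (b : ZMod (7 ^ n)) * W)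
  refine ⟨⟨a, b⟩, funext fun i => ?_⟩
  fin_cases i
  · exact (hW a b).1.trans (by
      change _ = u 0
      linear_combination ha - (1 + 2 * W) * hb - (u 1 - u 0) * ht)
  · exact (hW a b).2.trans (by
      change _ = u 1
      linear_combination ha)

variable (s : ℂ → ℂ)

/-- The value at a torsion point. -/
def GG (n : ℕ) (y : Fin 2 → ZMod (7 ^ n)) : ℂ :=
  s (io (Function.surjInv (PP_surj φ n) y) / 7 ^ n)

/-- The family of units. -/
def SS (n : ℕ) (u : Fin 2 → Gam 7 n) : Qbˣ :=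
  if h : ∃ a : Qbˣ, iota a = GG φ s n fun i => u i then h.choose else 1

variable {s} {t : ℂ → ℂ} (hC : Cur t s)
include hC

lemma GG_PP (n : ℕ) (x : O) : GG φ s n (PP φ n x) = s (io x / 7 ^ n) := by
  have h1 := (Gal.lat_iff n _ _).2 ((PP_eq φ).1 (Function.surjInv_eq (PP_surj φ n) (PP φ n x)))
  rw [GG, ← hC.s_add h1 (io x / 7 ^ n), add_sub_cancel]

lemma iota_SS (hI : Intg t s) (n : ℕ) (u : Fin 2 → Gam 7 (n + 1)) :
    iota (SS φ s (n + 1) u) = GG φ s (n + 1) fun i => u i := by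
  have h : ∃ a : Qbˣ, iota a = GG φ s (n + 1) fun i => u i := by
    obtain ⟨x, hx⟩ := PP_surj φ (n + 1) fun i => u i
    obtain ⟨a, ha⟩ := exists_iota (hI _ _ (lam_seven _) (lat_seven (n + 1) x)).2
    rw [← hx, GG_PP φ hC]
    refine ⟨Units.mk0 a fun h0 => ?_, ha⟩
    rw [h0, map_zero] at ha
    have h1 := hC.lat_of_s (npole_seven _ x) ha.symm
    have h2 := (PP_eq φ).2 ((Gal.lat_iff (n + 1) x 0).1 (by simpa using h1))
    have : Fact (1 < 7 ^ (n + 1)) := ⟨Nat.one_lt_pow (by omega) (by norm_num)⟩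
    exact (u 0).ne_zero (by simpa [hx] using congrFun h2 0)
  rw [SS, dif_pos h, h.choose_spec]

lemma fibre (hP : Prd s) {N : ℕ} {γ c : O} (h1 : lam ∣ γ - 1) (h2 : lam ∣ c - 1)
    (h3 : c * γ = 7 ^ N) (x : O) (T : Finset (Fin 2 → ZMod (7 ^ N)))
    (hT : ∀ y, PP φ N y ∈ T ↔ c ∣ y - x) : ∏ v ∈ T, GG φ s N v = s (io x / io c) := by
  have := ValP.fin ari h1
  have := Fintype.ofFinite (O ⧸ Ideal.span {γ})
  have g0 := io_ne (ne_zero_of_lam h1)
  have c0 := io_ne (ne_zero_of_lam h2)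
  have h4 : (7 : ℂ) ^ N = io c * io γ := by rw [← map_mul, h3, map_pow, map_ofNat]
  have h5 : io γ * (io x / 7 ^ N) = io x / io c := by rw [h4]; field_simp
  have h6 : ∀ a b, PP φ N (x + c * a) = PP φ N (x + c * b) ↔
      Ideal.Quotient.mk (Ideal.span {γ}) a = Ideal.Quotient.mk _ b := fun a b => by
    rw [PP_eq, add_sub_add_left_eq_sub, ← mul_sub, ← h3, mul_dvd_mul_iff_left (ne_zero_of_lam h2),
      Ideal.Quotient.eq, Ideal.mem_span_singleton]
  rw [← h5, hP.prod γ h1 (IsCoprime.of_mul_left_right (h3 ▸ FrbP.cop72 N)) _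
    (h5 ▸ npole h2 (FrbP.lat_q h2 x))]
  refine (prod_bij (fun q _ => PP φ N (x + c * q.out)) (fun q _ => (hT _).2 ⟨q.out, by ring⟩)
    (fun q _ q' _ h => ?_) (fun v hv => ?_) fun q _ => ?_).symm
  · rwa [h6, Prod.mk_out, Prod.mk_out] at h
  · obtain ⟨y, rfl⟩ := PP_surj φ N v
    obtain ⟨d, hd⟩ := (hT y).1 hv
    refine ⟨Ideal.Quotient.mk _ d, mem_univ _, ?_⟩
    rw [(h6 _ d).2 (Prod.mk_out _), ← hd, add_sub_cancel]
  · rw [GG_PP φ hC, tp, h4, map_add, map_mul]
    congr 1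
    field_simp

omit hC in
lemma coe_inj {n : ℕ} : Function.Injective
    fun (u : Fin 2 → Gam 7 n) (i : Fin 2) => (u i : ZMod (7 ^ n)) :=
  fun _ _ h => funext fun i => Units.ext (congrFun h i)

theorem sys (hI : Intg t s) (hP : Prd s) (hG : Gl t s) (hW : Wl t s)
    {ρ : GQ →* GL (Fin 2) ℤ_[7]} {e : Fin 2 → GQ → ℤ_[7]ˣ} (h : Chr t s φ ρ e) :
    Sys ρ e (SS φ s) := by
  have hE : ∀ i g n r, Act t s g n r → (7 : ℤ_[7]) ^ n ∣ (e i g : ℤ_[7]) - psi φ i r := fun i => by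
    fin_cases i
    · exact h.e0
    · exact h.e1
  have hE' : ∀ i g n r, Act t s g n r → (uN n (e i g) : ZMod (7 ^ n)) = PP φ n r i :=
    fun i g n r hr => by
      change PadicInt.toZModPow n (e i g : ℤ_[7]) = PadicInt.toZModPow n _
      rw [← sub_eq_zero, ← map_sub, ← RingHom.mem_ker, PadicInt.ker_toZModPow,
        Ideal.mem_span_singleton]
      exact_mod_cast hE i g n r hr
  refine ⟨fun i g k => Units.ext (PadicInt.ext_of_toZModPow.1 fun n => ?_),
    fun g hg => Units.ext ?_, fun g hg => Units.ext ?_, fun g i j => ?_, fun n g => ?_,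
    fun n g u => ?_, fun n u => ?_⟩
  · obtain ⟨a, ha⟩ := hG.ex g n
    obtain ⟨b, hb⟩ := hG.ex k n
    have h1 := hE' i _ n _ (hG.mul g k n a b ha hb)
    rw [map_mul, Pi.mul_apply, PP_cj, ← hE' i g n a ha, ← hE' _ k n b hb] at h1
    rw [Units.val_mul, map_mul]
    exact h1
  · simpa [sg, hg] using RepP.chi_eq hG h hW g
  · simpa [sg, hg] using RepP.chi_eq hG h hW g
  · by_cases hg : Fix g
    · rw [h.fix g hg]
      simp [sw, hg, Matrix.diagonal_apply, eq_comm]
    · rw [h.swap g hg]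
      fin_cases i <;> fin_cases j <;> simp [sw, hg, Fin.rev]
  · obtain ⟨r, hr⟩ := hG.ex g n
    filter_upwards [hG.loc g n r hr] with k hk i
    exact Units.ext ((hE' i k n r hk).trans (hE' i g n r hr).symm)
  · obtain ⟨r, hr⟩ := hG.ex g (n + 1)
    obtain ⟨x, hx⟩ := PP_surj φ (n + 1) fun i => u i
    obtain ⟨a, ha, ha'⟩ := (hr x).2
    have h1 : a = SS φ s (n + 1) u :=
      iota.injective (by rw [iota_SS φ hC hI, ← hx, GG_PP φ hC, ha])
    refine Units.ext (iota.injective ?_)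
    rw [iota_SS φ hC hI]
    change iota (g (SS φ s (n + 1) u : Qbˣ)) = _
    rw [← h1, ha', ← GG_PP φ hC]
    congr 1
    funext i
    rw [map_mul, Pi.mul_apply, PP_cj, hx, ← hE' i g _ r hr]
    rfl
  · obtain ⟨x, hx⟩ := PP_surj φ (n + 1) fun i => u i
    refine Units.ext (iota.injective ?_)
    have h1 := fibre φ hC hP (N := n + 2) (γ := 7) (c := 7 ^ (n + 1)) (by simpa using lam_seven 1)
      (lam_seven _) (pow_succ _ _).symm x ((univ.filter fun v : Fin 2 → Gam 7 (n + 2) =>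
        (fun i => rd (n + 1) (v i)) = u).image fun v i => v i) fun y => by
      rw [← PP_eq φ, hx, mem_image]
      constructor
      · rintro ⟨v, hv, hy⟩
        funext i
        rw [← red_PP, ← hy, ← (mem_filter.1 hv).2]
        rfl
      · intro hy
        have h2 : ∀ i, IsUnit (PP φ (n + 2) y i) := fun i => by
          obtain ⟨b, hb⟩ := ZMod.natCast_zmod_surjective (PP φ (n + 2) y i)
          have h3 : IsUnit (red 7 (n + 1) (PP φ (n + 2) y i)) := by
            rw [red_PP, hy]; exact (u i).isUnit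
          rw [← hb] at h3 ⊢
          rw [map_natCast] at h3
          rw [ZMod.isUnit_iff_coprime, Nat.coprime_pow_right_iff (by omega)] at h3 ⊢
          exact h3
        exact ⟨fun i => (h2 i).unit, mem_filter.2 ⟨mem_univ _, funext fun i => Units.ext
          ((red_PP φ _ y i).trans (congrFun hy i))⟩, rfl⟩
    rw [prod_image coe_inj.injOn, map_pow, map_ofNat] at h1
    rw [iota_SS φ hC hI, ← hx, GG_PP φ hC, ← h1, Units.coe_prod, map_prod]
    exact prod_congr rfl fun v _ => iota_SS φ hC hI _ v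

lemma tangent {z r : ℂ} (h1 : ¬ Pole z) (h2 : ¬ Pole (-z)) (h3 : ¬ Lat z)
    (h4 : Lat (-z - z - r * -z)) (h5 : t (r * -z) = r * t (-z) ∧ s (r * -z) = s (-z))
    (h6 : ¬ Pole (-z - z)) : (1 + s z) + (1 + s z)⁻¹ = 1 - 3 * r := by
  have e1 := hC.one_add_ne h1 h2
  have e2 : 1 + s z + s z ≠ 0 := (hC.slope z z h1 h1 h6).resolve_left fun h => h rfl
  have e3 : s z ≠ 0 := fun h => h3 (hC.lat_of_s h1 h)
  obtain ⟨-, n1, n2⟩ := hC.neg h1 e1
  obtain ⟨-, a1, a2⟩ := hC.add z z (3 * t z ^ 2 / (1 + s z + s z)) h1 h1 (by simp)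
    (by rw [div_mul_cancel₀ _ e2]; ring)
  have b1 := hC.t_add h4 (r * -z)
  have b2 := hC.s_add h4 (r * -z)
  rw [add_sub_cancel] at b1 b2
  rw [b1, b2, h5.1, h5.2, n1, n2] at a2
  have e4 := hC.eqn z h1
  field_simp at a2 ⊢
  refine mul_left_cancel₀ e3 ?_
  linear_combination a2 + 3 * (r + 1 + s z) * e4

lemma level_one (hI : Intg t s) (hP : Prd s) {γ c : O} {k : Fin 2} (h1 : lam ∣ γ - 1)
    (h2 : lam ∣ c - 1) (h3 : c * γ = 7 ^ 1) (h4 : c + γ = -1) (h5 : PP φ 1 c k = 0)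
    (h6 : PP φ 1 γ k.rev = 0) :
    iota (∏ u, SS φ s 1 u ^ sgn (u k) : Qbˣ) = (1 + s (1 / io c)) ^ 6 := by
  have : Fact (1 < 7 ^ 1) := ⟨by norm_num⟩
  have c0 := io_ne (ne_zero_of_lam h2)
  have two : ∀ {α : Type} {a b : Fin 2 → α}, a k = b k → a k.rev = b k.rev → a = b :=
    fun ha hb => funext fun i => by fin_cases i <;> fin_cases k <;> assumption
  have np : ∀ x, ¬ Pole (io x / io c) := fun x => npole h2 (FrbP.lat_q h2 x)
  have p1 : ¬ Pole (1 / io c) := by simpa using np 1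
  have p2 : ¬ Pole (-(1 / io c)) := by simpa [neg_div] using np (-1)
  have e1 := hC.one_add_ne p1 p2
  have g1 : PP φ 1 γ k = -1 := by
    have := congrFun (congrArg (PP φ 1) h4) k
    rwa [map_add, map_neg, map_one, Pi.add_apply, h5, zero_add] at this
  have e3 : s (1 / io c) ≠ 0 := fun h => by
    obtain ⟨d, hd⟩ := (lat_div (ne_zero_of_lam h2)).1
      (show Lat (io 1 / io c) by simpa using hC.lat_of_s p1 h)
    have := congrFun (congrArg (PP φ 1) hd) k
    rw [map_mul, Pi.mul_apply, h5, zero_mul, map_one] at this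
    exact one_ne_zero (α := ZMod (7 ^ 1)) this
  have n2 := (hC.neg p1 e1).2.2
  have hk : ∀ y x, PP φ 1 y k = PP φ 1 x k ↔ c ∣ y - x := fun y x => by
    rw [← sub_eq_zero, ← Pi.sub_apply, ← map_sub]
    generalize y - x = d
    refine ⟨fun h => ?_, fun ⟨b, hb⟩ => by rw [hb, map_mul, Pi.mul_apply, h5, zero_mul]⟩
    have := (PP_eq φ (n := 1) (x := d * γ) (y := 0)).1 (two
      (by rw [map_mul, Pi.mul_apply, h, zero_mul, map_zero]; rfl)
      (by rw [map_mul, Pi.mul_apply, h6, mul_zero, map_zero]; rfl))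
    rwa [sub_zero, ← h3, mul_dvd_mul_iff_right (ne_zero_of_lam h1)] at this
  have hf : ∀ a : Gam 7 1, (∏ u ∈ univ.filter (fun u : Fin 2 → Gam 7 1 => u k = a),
      iota (SS φ s 1 u)) ^ sgn a = -(1 + s (1 / io c)) := fun a => by
    have hw : PP φ 1 om k * PP φ 1 om k = -1 - PP φ 1 om k := by
      rw [← Pi.mul_apply, ← map_mul, show om * om = -1 - om by decide, map_sub, map_neg, map_one]
      rfl
    obtain ⟨i, hi⟩ := (by decide : ∀ W a b : ZMod (7 ^ 1), W * W = -1 - W → a * b = 1 →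
      ∃ i : Fin 3, a ^ 3 * W ^ (i : ℕ) = a) _ _ _ hw a.mul_inv
    set x : O := -(sgn a : O) * om ^ (i : ℕ) with hx
    have x1 : PP φ 1 (γ * x) k = a := by
      rw [hx, map_mul, map_mul, map_neg, map_intCast, map_pow, ← hi, ← Units.val_pow_eq_pow_val,
        ← sgn_cast]
      simp [g1]
    have x2 : PP φ 1 (γ * x) k.rev = 0 := by rw [map_mul, Pi.mul_apply, h6, zero_mul]
    have f1 := fibre φ hC hP h1 h2 h3 (γ * x) (insert (PP φ 1 (γ * x))
      ((univ.filter fun u : Fin 2 → Gam 7 1 => u k = a).image fun v i => v i)) fun y => by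
      rw [← hk, x1, mem_insert, mem_image]
      constructor
      · rintro (hy | ⟨v, hv, hy⟩)
        · rw [hy, x1]
        · rw [← hy, ← (mem_filter.1 hv).2]
      · intro hy
        by_cases h0 : PP φ 1 y k.rev = 0
        · exact .inl (two (hy.trans x1.symm) (h0.trans x2.symm))
        have hu : ∀ i, IsUnit (PP φ 1 y i) := fun i => by
          obtain ⟨b, hb⟩ := (by decide : ∀ a : ZMod (7 ^ 1), a ≠ 0 → ∃ b, a * b = 1) _ h0
          have h7 := IsUnit.of_mul_eq_one _ hb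
          have h8 : IsUnit (PP φ 1 y k) := hy ▸ a.isUnit
          fin_cases i <;> fin_cases k <;> assumption
        exact .inr ⟨fun i => (hu i).unit, mem_filter.2 ⟨mem_univ _, Units.ext hy⟩, rfl⟩
    rw [prod_insert fun h => by
        obtain ⟨v, -, hv⟩ := mem_image.1 h
        exact (v k.rev).ne_zero ((congrFun hv _).trans x2),
      prod_image coe_inj.injOn, GG_PP φ hC,
      ← prod_congr rfl fun v _ => iota_SS φ hC hI 0 v] at f1
    have z1 : io (γ * x) / 7 ^ 1 = wC ^ (i : ℕ) * -(sgn a * (1 / io c)) := by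
      have : (7 : ℂ) ^ 1 = io c * io γ := by rw [← map_mul, h3, map_pow, map_ofNat]
      have g0 := io_ne (ne_zero_of_lam h1)
      rw [this, hx, map_mul, map_mul, map_neg, map_intCast, map_pow, io_om]
      field_simp
    have z2 : io (γ * x) / io c = wC ^ (i : ℕ) * (sgn a * (1 / io c)) + io (-x) := by
      rw [eq_sub_of_add_eq' h4, hx]
      simp only [map_mul, map_sub, map_neg, map_intCast, map_pow, io_om, map_one]
      field_simp
      ring
    rw [z1, z2, hC.per_s, (ValP.rot_pow hC _ _).2, (ValP.rot_pow hC _ _).2] at f1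
    rcases sgn_cases a with h | h <;> rw [h] at f1 ⊢ <;>
      simp only [Int.cast_one, Int.cast_neg, one_mul, neg_mul, neg_neg, n2] at f1
    · rw [zpow_one]
      field_simp at f1
      linear_combination -f1
    · rw [zpow_neg_one, inv_eq_iff_eq_inv]
      field_simp at f1 ⊢
      linear_combination f1
  rw [← prod_fiberwise univ fun u => u k, Units.coe_prod, map_prod,
    prod_congr rfl (g := fun _ => -(1 + s (1 / io c))) fun a _ => ?_, prod_const, card_univ,
    ZMod.card_units_eq_totient, show Nat.totient (7 ^ 1) = 6 by decide]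
  · ring
  · rw [← hf a, prod_congr rfl (g := fun u => SS φ s 1 u ^ sgn a) fun u hu => by
      rw [(mem_filter.1 hu).2], prod_zpow, Units.val_zpow_eq_zpow_val, map_zpow₀, Units.coe_prod,
      map_prod]

theorem units (hI : Intg t s) (hP : Prd s) (hφ : (7 : ℤ_[7]) ∣ φ (star pi7)) (k : Fin 2) (E : Qb)
    (hE : E = (∏ u, SS φ s 1 u ^ sgn (u k) : Qbˣ)) :
    (E + E⁻¹) ^ 2 - 2515 * (E + E⁻¹) + 5531575 = 0 := by
  have h0 : PadicInt.toZModPow 1 (φ (star pi7)) = 0 := by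
    rw [← RingHom.mem_ker, PadicInt.ker_toZModPow, Ideal.mem_span_singleton]
    exact_mod_cast hφ
  have l1 : lam ∣ pi7 - 1 := lam_of_primary FrbP.pr7
  have l2 : lam ∣ star pi7 - 1 := by simpa using FrbP.s1 1
  obtain ⟨γ, c, j, d, h1, h2, h3, h4, h5, h6, h7, h8, h9⟩ : ∃ (γ c : O) (j : ℕ) (d : O),
      lam ∣ γ - 1 ∧ lam ∣ c - 1 ∧ c * γ = 7 ^ 1 ∧ c + γ = -1 ∧ PP φ 1 c k = 0 ∧
      PP φ 1 γ k.rev = 0 ∧ om ^ j - 2 = c * d ∧ om ^ j * om ^ j = -1 - om ^ j ∧ ¬ c ∣ 1 := by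
    have n : ∀ c : O, c.norm = 7 → ¬ c ∣ 1 := fun c hc ⟨d, hd⟩ => by
      have := congrArg QuadraticAlgebra.norm hd
      rw [map_mul, map_one, hc] at this
      omega
    fin_cases k
    · exact ⟨star pi7, pi7, 1, 1 + om, l2, l1, by decide, by decide, h0, h0, by decide, by decide,
        n _ (by decide)⟩
    · exact ⟨pi7, star pi7, 2, -om, l1, l2, by decide, by decide, h0, h0, by decide, by decide,
        n _ (by decide)⟩
  have c0 := io_ne (ne_zero_of_lam h2)
  have np : ∀ x, ¬ Pole (io x / io c) := fun x => npole h2 (FrbP.lat_q h2 x)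
  have p1 : ¬ Pole (1 / io c) := by simpa using np 1
  have p2 : ¬ Pole (-(1 / io c)) := by simpa [neg_div] using np (-1)
  have r1 := congrArg io h7
  have r2 := congrArg io h8
  simp only [map_sub, map_mul, map_pow, io_om, map_ofNat, map_neg, map_one] at r1 r2
  have e1 := hC.one_add_ne p1 p2
  have e2 := tangent hC (r := wC ^ j) p1 p2
    (fun h => h9 ((lat_div (ne_zero_of_lam h2)).1 (by simpa using h)))
    ⟨d, by field_simp; linear_combination r1⟩ (ValP.rot_pow hC _ _)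
    (by convert np (-2) using 2; rw [map_neg, map_ofNat]; ring)
  apply iota.injective
  simp only [map_add, map_sub, map_mul, map_pow, map_inv₀, map_ofNat, map_zero, hE,
    level_one φ hC hI hP h1 h2 h3 h4 h5 h6]
  generalize 1 + s (1 / io c) = e at e1 e2
  have e3 : e ^ 6 + (e ^ 6)⁻¹ = (e + e⁻¹) ^ 6 - 6 * (e + e⁻¹) ^ 4 + 9 * (e + e⁻¹) ^ 2 - 2 := by
    field_simp
    ring
  have e4 : e ^ 6 + (e ^ 6)⁻¹ = 2405 + 2295 * wC ^ j := by
    rw [e3, e2]
    generalize wC ^ j = r at r2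
    linear_combination (729 * r ^ 4 - 2187 * r ^ 3 + 2187 * r ^ 2 + 108 * r - 2403) * r2
  rw [e4]
  linear_combination 2295 ^ 2 * r2

end Pool.Agent.MP_59efd2_nt.CM.Ell
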