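import Pool.Agent.MP_59efd2_nt.ub.Loc3
import Pool.Agent.MP_59efd2_nt.ub.Ell

/-!
# Two products of elliptic units in closed form
-/

noncomputable section

namespace Pool.Agent.MP_59efd2_nt.CM.Ell

open scoped Pointwise Classical
open Finset ChrP lz.UB
open lz (sU Pl DG)
open Pool.Agent.MP_db1c88_nt.QRH (O om lam wC io wC_sq)

/-- The points killed by `7`. -/
def Tor (z : ℂ) : Prop := Lat (io (7 ^ 1) * z)

lemma Tor.np {z : ℂ} (h : Tor z) : ¬ Pole z := npole (lam_seven 1) h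

lemma Tor.add {u v : ℂ} (hu : Tor u) (hv : Tor v) : Tor (u + v) := by
  rw [Tor, mul_add]
  exact Lat.add hu hv

lemma Tor.mul {u : ℂ} (hu : Tor u) (x : O) : Tor (io x * u) := by
  rw [Tor, mul_left_comm]
  exact Lat.mul x hu

lemma Tor.neg {u : ℂ} (hu : Tor u) : Tor (-u) := by simpa using hu.mul (-1)

lemma alg3 {p₀ p₁ p₂ e d₀ d₁ d₂ n₀ n₁ n₂ : ℂ} (k : ℕ) (h0 : p₀ * e * d₀ ^ 3 = n₀ ^ 3)
    (h1 : p₁ * e * d₁ ^ 3 = n₁ ^ 3) (h2 : p₂ * e * d₂ ^ 3 = n₂ ^ 3) (h3 : p₂ ≠ 0) :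
    (p₀ * p₁ ^ k / p₂ ^ (k + 1)) ^ 3 * (n₂ ^ (k + 1) * d₀ * d₁ ^ k) ^ 9 =
      (n₀ * n₁ ^ k * d₂ ^ (k + 1)) ^ 9 := by
  rw [show 9 = 3 * 3 from rfl, pow_mul, pow_mul, ← mul_pow, mul_pow _ (d₁ ^ k), mul_pow _ d₀,
    mul_pow _ (d₂ ^ _), mul_pow n₀, pow_right_comm n₁, pow_right_comm n₂, ← h0, ← h1, ← h2]
  congr 1
  field_simp
  ring

/-- A generator of the units modulo `7`. -/
def g3 : Gam 7 1 := ⟨3, 5, by decide, by decide⟩

/-- A parametrisation of the pairs of units modulo `7`. -/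
def uu (x : Fin 6 × Fin 6) : Fin 2 → Gam 7 1 := ![g3⁻¹ ^ (x.1 : ℕ), g3 ^ (x.1 + x.2 : ℕ)]

lemma uu_bij : Function.Bijective uu := by
  refine (Fintype.bijective_iff_injective_and_card _).2 ⟨fun ⟨i, j⟩ ⟨i', j'⟩ h => ?_, ?_⟩
  · have h1 : ∀ i i' : Fin 6, (5 : ZMod (7 ^ 1)) ^ (i : ℕ) = 5 ^ (i' : ℕ) → i = i' := by decide
    have h2 : ∀ i j j' : Fin 6, (3 : ZMod (7 ^ 1)) ^ (i + j : ℕ) = 3 ^ (i + j' : ℕ) → j = j' := by
      decide
    obtain rfl := h1 i i' (congrArg Units.val (congrFun h 0))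
    rw [h2 i j j' (congrArg Units.val (congrFun h 1))]
  · rw [Fintype.card_fun, ZMod.card_units_eq_totient]
    decide

/-- A point killed by `pi7`. -/
def RR : ℂ := -1 / io pi7

/-- A point killed by the conjugate of `pi7`. -/
def QQ : ℂ := -1 / io (star pi7)

lemma io7 : (7 : ℂ) ^ 1 = io pi7 * io (star pi7) := by rw [← map_mul, pi7_mul, map_ofNat, pow_one]

lemma pt_eq (a b : O) : io a * RR + io b * QQ = io (-(a * star pi7) - b * pi7) / 7 ^ 1 := by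
  have h1 := io_ne (x := pi7) (by decide)
  have h2 := io_ne (x := star pi7) (by decide)
  rw [io7, RR, QQ, map_sub, map_neg, map_mul, map_mul]
  field_simp
  ring

lemma tor_pt (a b : O) : Tor (io a * RR + io b * QQ) := pt_eq a b ▸ lat_seven 1 _

variable {s t : ℂ → ℂ} (hC : Cur t s)
include hC

lemma Tor.ne {u : ℂ} (hu : Tor u) : 1 + s u ≠ 0 := hC.one_add_ne hu.np hu.neg.np

lemma Tor.inv {u : ℂ} (hu : Tor u) : 1 + s (-u) = (1 + s u)⁻¹ := by
  have := hu.ne hC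
  rw [(hC.neg hu.np this).2.2]
  field_simp
  ring

lemma col {u v : ℂ} (hu : Tor u) (hv : Tor v) (h : ¬ Lat (u - v)) : t u - t v ≠ 0 ∧
    (1 + s (u + v)) * ((1 + s v) * t u - (1 + s u) * t v) ^ 3 =
      (1 + s u) * (1 + s v) * (t u - t v) ^ 3 := by
  have hw : Tor (-u - v) := by simpa [sub_eq_add_neg] using hu.neg.add hv.neg
  have e1 := hC.eqn u hu.np
  have e2 := hC.eqn v hv.np
  have h1 : t u - t v ≠ 0 := fun h0 => by
    have h2 := sub_eq_zero.1 h0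
    refine h (hC.inj u v hu.np hv.np h2 (sub_eq_zero.1 ((mul_eq_zero.1 ?_).resolve_left
      ((hC.slope u v hu.np hv.np hw.np).resolve_left fun h => h h2))))
    rw [h2] at e1
    linear_combination e1 - e2
  obtain ⟨a, ha⟩ : ∃ a, a * (t u - t v) = s u - s v := ⟨_, div_mul_cancel₀ _ h1⟩
  have hb : a * (1 + s u + s v) = t u ^ 2 + t u * t v + t v ^ 2 := mul_left_cancel₀ h1 (by
    linear_combination (1 + s u + s v) * ha + e1 - e2)
  obtain ⟨-, a1, a2⟩ := hC.add u v a hu.np hv.np ha hb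
  have h3 := hw.inv hC
  have h4 := hw.ne hC
  rw [show -(-u - v) = u + v by ring] at h3
  rw [h3, show s v = s u - a * (t u - t v) by linear_combination ha, inv_mul_eq_iff_eq_mul₀ h4, a2, a1]
  rw [show s v = s u - a * (t u - t v) by linear_combination ha] at hb
  exact ⟨h1, by linear_combination -(t u - t v) ^ 3 * (a ^ 2 * (1 + s u) * hb - a ^ 3 * e1)⟩

lemma two {u v : ℂ} (hu : Tor u) (hv : Tor v) (h1 : ¬ Lat (u - v)) (h2 : ¬ Lat (u - -v)) :
    (1 + s (u + v)) * (1 + s (u + -v)) * (1 + s u) * (1 - t v ^ 2 / (1 + s v) * t u) ^ 3 =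
      (1 + s u + t v ^ 2 / (1 + s v) * t u) ^ 3 := by
  obtain ⟨a1, a2⟩ := col hC hu hv h1
  obtain ⟨b1, b2⟩ := col hC hu hv.neg h2
  have x0 := hu.ne hC
  have y0 := hv.ne hC
  have e1 : t u ^ 3 = (1 + s u) ^ 2 - (1 + s u) := by linear_combination -hC.eqn u hu.np
  have e2 : t v ^ 3 = (1 + s v) ^ 2 - (1 + s v) := by linear_combination -hC.eqn v hv.np
  rw [hv.inv hC] at b2
  rw [(hC.neg hv.np y0).2.1] at b1 b2
  generalize 1 + s u = x at *
  generalize 1 + s v = y at *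
  generalize 1 + s (u + v) = A at *
  generalize 1 + s (u + -v) = B at *
  generalize t u = a at *
  generalize t v = b at *
  have b3 : y * a + b ≠ 0 := fun h => b1 (by field_simp; linear_combination h)
  have b4 : B * (a + x * b) ^ 3 * y = x * (y * a + b) ^ 3 := by
    field_simp at b2
    linear_combination b2
  have K : x * (y - b ^ 2 * a) * (a - b) * (y * a + b) =
      (y * a - x * b) * (a + x * b) * (x * y + b ^ 2 * a) := by
    linear_combination -y * b ^ 2 * (1 + x) * e1 + x * a * b * (1 + x) * e2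
  have n1 : y * a - x * b ≠ 0 := fun h => by
    rw [h, eq_comm] at a2
    simp [x0, y0, a1] at a2
  have n2 : a + x * b ≠ 0 := fun h => by
    rw [h, eq_comm] at b4
    simp [x0, b3] at b4
  have K3 := congrArg (· ^ 3) K
  field_simp
  refine mul_left_cancel₀ (mul_ne_zero (pow_ne_zero 3 (mul_ne_zero n1 n2)) y0) ?_
  linear_combination y * K3 + x * (y - b ^ 2 * a) ^ 3 * (B * (a + x * b) ^ 3 * y * a2 +
    x * y * (a - b) ^ 3 * b4)

lemma tri (hI : Intg t s) {u v : ℂ} (hu : Tor u) (hv : Tor v) {c : O} (h1 : Lat (io c * v))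
    (h2 : ¬ Lat (io c * u)) {a b P : Qb} (eu : 1 + s u + (1 + s u)⁻¹ = 2 + iota a)
    (ev : 1 + s v + (1 + s v)⁻¹ = 2 + iota b) (k : ℕ)
    (hP : iota P = ((1 + s (u + v)) * (1 + s (u + -v)) *
      ((1 + s (u + wC * v)) * (1 + s (u + -(wC * v)))) ^ k /
      ((1 + s (u + wC ^ 2 * v)) * (1 + s (u + -(wC ^ 2 * v)))) ^ (k + 1)) ^ 3) :
    ∃ x z : Qb, (x - 1) ^ 2 = a * x ∧ z ^ 3 = b * (x * (x - 1)) ∧
      P * ((x + zq * z) ^ (k + 1) * (1 - z) * (1 - zq ^ 2 * z) ^ k) ^ 9 =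
        ((x + z) * (x + zq ^ 2 * z) ^ k * (1 - zq * z) ^ (k + 1)) ^ 9 := by
  have hw : ∀ i : ℕ, Tor (wC ^ i * v) := fun i => by simpa [io_om] using hv.mul (om ^ i)
  have hn : ∀ d : O, ¬ Lat (u - io d * v) := fun d h => h2 (by
    convert (h.mul c).add (h1.mul d) using 1
    ring)
  have h3 := fun i : ℕ => two hC hu (hw i) (by simpa [io_om] using hn (om ^ i))
    (by simpa [io_om] using hn (-om ^ i))
  simp only [ValP.rot_pow hC] at h3
  obtain ⟨x, hx⟩ := exists_iota (hI _ _ (lam_seven 1) hu).2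
  obtain ⟨y, hy⟩ := exists_iota (hI _ _ (lam_seven 1) hv).2
  obtain ⟨x', hx'⟩ := exists_iota (hI _ _ (lam_seven 1) hu).1
  obtain ⟨y', hy'⟩ := exists_iota (hI _ _ (lam_seven 1) hv).1
  have x0 := hu.ne hC
  have y0 := hv.ne hC
  have e1 := hC.eqn u hu.np
  have e2 := hC.eqn v hv.np
  have w3 : wC ^ 3 = 1 := by linear_combination (wC - 1) * wC_sq
  refine ⟨1 + x, y' ^ 2 / (1 + y) * x', iota.injective ?_, iota.injective ?_, iota.injective ?_⟩ <;>
    simp only [map_add, map_sub, map_mul, map_pow, map_div₀, map_one, hx, hy, hx', hy', iota_zq]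
  · field_simp at eu
    linear_combination eu
  · field_simp at ev ⊢
    linear_combination -t v ^ 6 * e1 + (s u ^ 2 + s u) * (-(t v ^ 3 + s v ^ 2 + s v) * e2 +
      (1 + s v) ^ 2 * ev)
  have p0 := h3 0
  have p1 := h3 1
  have p2 := h3 2
  rw [pow_zero, one_mul, one_mul] at p0
  rw [pow_one, mul_pow, mul_div_assoc, mul_assoc (wC ^ 2)] at p1
  rw [mul_pow, ← pow_mul, pow_succ' wC 3, w3, mul_one, mul_div_assoc, mul_assoc wC] at p2
  rw [hP]
  exact alg3 k p0 p1 p2 (mul_ne_zero ((hu.add (hw 2)).ne hC) ((hu.add (hw 2).neg).ne hC))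

lemma prod_eq (hI : Intg t s) {φ : O →+* ℤ_[7]} (hφ : (7 : ℤ_[7]) ∣ φ (star pi7))
    (n : (Fin 2 → Gam 7 1) → ℤ) (m : Fin 6 → ℤ) (h : ∀ i j, n (uu (i, j)) = (-1) ^ (i : ℕ) * m j) :
    iota (∏ u, SS φ s 1 u ^ n u : Qbˣ) =
      (∏ j : Fin 6, (-(1 + s (RR + (-wC) ^ (j : ℕ) * QQ))) ^ m j) ^ 3 := by
  have h0 : PadicInt.toZModPow 1 (φ (star pi7)) = 0 := by
    rw [← RingHom.mem_ker, PadicInt.ker_toZModPow, Ideal.mem_span_singleton]
    exact_mod_cast hφ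
  have h1 : PP φ 1 (-om) = ![5, 3] := by
    have a0 : PP φ 1 (1 - 3 * -om) 0 = 0 := h0
    have a1 : PP φ 1 (-2 + 3 * -om) 1 = 0 := h0
    simp only [map_sub, map_add, map_mul, map_one, map_ofNat, map_neg (PP φ 1) 2] at a0 a1
    generalize PP φ 1 (-om) = W at a0 a1
    funext i
    fin_cases i
    · exact (by decide : ∀ x : ZMod (7 ^ 1), 1 - 3 * x = 0 → x = 5) _ a0
    · exact (by decide : ∀ x : ZMod (7 ^ 1), -2 + 3 * x = 0 → x = 3) _ a1
  have h2 : ∀ i j : Fin 6, iota (SS φ s 1 (uu (i, j))) =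
      s ((-1) ^ (i : ℕ) * (RR + (-wC) ^ (j : ℕ) * QQ)) := fun i j => by
    rw [iota_SS φ hC hI 0, ← (ValP.rot_pow hC i _).2, ← mul_assoc, ← mul_pow, mul_neg_one,
      mul_add, ← mul_assoc, ← pow_add, ← io_om, ← map_neg, ← map_pow, ← map_pow, pt_eq,
      ← GG_PP φ hC, show pi7 = 1 - 3 * -om by decide, show star (1 - 3 * -om) = -2 + 3 * -om by decide]
    congr 1
    simp only [map_sub, map_add, map_mul, map_one, map_ofNat, map_neg (PP φ 1) 2, map_pow, h1,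
      map_neg (PP φ 1) (_ * _)]
    funext k
    fin_cases k
    · change (5 : ZMod (7 ^ 1)) ^ _ = -(5 ^ _ * (-2 + 3 * 5)) - 5 ^ _ * (1 - 3 * 5)
      revert i j
      decide
    · change (3 : ZMod (7 ^ 1)) ^ _ = -(3 ^ _ * (-2 + 3 * 3)) - 3 ^ _ * (1 - 3 * 3)
      revert i j
      decide
  rw [← uu_bij.prod_comp, Fintype.prod_prod_type_right, Units.coe_prod, map_prod, ← prod_pow]
  refine prod_congr rfl fun j _ => ?_
  have h3 : Tor (RR + (-wC) ^ (j : ℕ) * QQ) := by simpa [io_om] using tor_pt 1 ((-om) ^ (j : ℕ))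
  have h4 := h3.ne hC
  have h5 := (map_ne_zero iota).2 (SS φ s 1 (uu (0, j))).ne_zero
  simp only [Units.coe_prod, map_prod, Units.val_zpow_eq_zpow_val, map_zpow₀, h, h2] at h5 ⊢
  generalize RR + (-wC) ^ (j : ℕ) * QQ = z at *
  have h6 : s z ^ m j * s (-z) ^ (-m j) = (-(1 + s z)) ^ m j := by
    have : s z ≠ 0 := by simpa using h5
    rw [(hC.neg h3.np h4).2.2, zpow_neg, ← inv_zpow, ← mul_zpow]
    congr 1
    field_simp
  rw [← h6, Fin.prod_univ_six]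
  norm_num
  ring

lemma tan2 {c d : O} {j : ℕ} (h2 : lam ∣ c - 1) (h7 : om ^ j - 2 = c * d) (h9 : ¬ c ∣ 1) :
    1 + s (-1 / io c) + (1 + s (-1 / io c))⁻¹ = 1 - 3 * wC ^ j := by
  have c0 := io_ne (ne_zero_of_lam h2)
  have np : ∀ x, ¬ Pole (io x / io c) := fun x => npole h2 (FrbP.lat_q h2 x)
  have r1 := congrArg io h7
  simp only [map_sub, map_mul, map_pow, io_om, map_ofNat] at r1
  exact tangent hC (r := wC ^ j) (by simpa using np (-1)) (by simpa [neg_div] using np 1)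
    (fun h => h9 ((lat_div (ne_zero_of_lam h2)).1 (by simpa [neg_div] using h.neg)))
    ⟨-d, by rw [map_neg]; field_simp; linear_combination -r1⟩ (ValP.rot_pow hC _ _)
    (by convert np 2 using 2; rw [map_ofNat]; ring)

theorem units2 (hI : Intg t s) {φ : O →+* ℤ_[7]} (hφ : (7 : ℤ_[7]) ∣ φ (star pi7)) :
    (∃ x z : Qb, (x - 1) ^ 2 = (2 + 3 * zq) * x ∧ z ^ 3 = -(1 + 3 * zq) * (x * (x - 1)) ∧
      (∏ u, SS φ s 1 u ^ la (WW 4 1 u) : Qbˣ) * A2 zq x z ^ 9 = lz.UB.A1 zq x z ^ 9) ∧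
    ∃ x z : Qb, (x - 1) ^ 2 = -(1 + 3 * zq) * x ∧ z ^ 3 = (2 + 3 * zq) * (x * (x - 1)) ∧
      (∏ u, SS φ s 1 u ^ lb (WW 1 4 u) : Qbˣ) * B2' zq x z ^ 9 = lz.UB.B1 zq x z ^ 9 := by
  have n : ∀ c x : O, c.norm = 7 → ¬ 7 ∣ x.norm → ¬ c ∣ x := fun c x hc hx ⟨d, hd⟩ =>
    hx ⟨d.norm, by rw [hd, map_mul, hc]⟩
  have l1 : lam ∣ pi7 - 1 := lam_of_primary FrbP.pr7
  have l2 : lam ∣ star pi7 - 1 := by simpa using FrbP.s1 1
  have c1 := io_ne (ne_zero_of_lam l1)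
  have c2 := io_ne (ne_zero_of_lam l2)
  have eR : 1 + s RR + (1 + s RR)⁻¹ = 2 + iota (-(1 + 3 * zq)) := by
    rw [RR, tan2 hC (j := 1) (d := 1 + om) l1 (by decide) (n _ _ (by decide) (by decide))]
    simp only [map_neg, map_add, map_mul, map_one, map_ofNat, iota_zq]
    ring
  have eQ : 1 + s QQ + (1 + s QQ)⁻¹ = 2 + iota (2 + 3 * zq) := by
    rw [QQ, tan2 hC (j := 2) (d := -om) l2 (by decide) (n _ _ (by decide) (by decide))]
    simp only [map_add, map_mul, map_ofNat, iota_zq]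
    linear_combination -3 * wC_sq
  have tR : Tor RR := by simpa using tor_pt 1 0
  have tQ : Tor QQ := by simpa using tor_pt 0 1
  have lR : Lat (io pi7 * RR) := ⟨-1, by rw [RR, map_neg, map_one]; field_simp⟩
  have lQ : Lat (io (star pi7) * QQ) := ⟨-1, by rw [QQ, map_neg, map_one]; field_simp⟩
  have nR : ¬ Lat (io (star pi7) * RR) := fun h => n _ (-1) (by decide) (by decide)
    ((lat_div (ne_zero_of_lam l1)).1 (by
      convert (h.add lR).neg using 1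
      rw [← add_mul, ← map_add, add_comm, pi7_add, RR]
      simp))
  have nQ : ¬ Lat (io pi7 * QQ) := fun h => n _ (-1) (by decide) (by decide)
    ((lat_div (ne_zero_of_lam l2)).1 (by
      convert (h.add lQ).neg using 1
      rw [← add_mul, ← map_add, pi7_add, QQ]
      simp))
  have w3 : wC ^ 3 = 1 := by linear_combination (wC - 1) * wC_sq
  have v2 : (-wC) ^ 2 = wC ^ 2 := by ring
  have v3 : (-wC) ^ 3 = -1 := by linear_combination -w3
  have v4 : (-wC) ^ 4 = wC := by linear_combination wC * w3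
  have v5 : (-wC) ^ 5 = -wC ^ 2 := by linear_combination -wC ^ 2 * w3
  refine ⟨tri hC hI tQ tR lR nQ eQ eR 2 ?_, tri hC hI tR tQ lQ nR eR eQ 18 ?_⟩
  · rw [prod_eq hC hI hφ _ ![1, 3, 2, -1, -3, -2] (by decide), Fin.prod_univ_six]
    congr 1
    change (-(1 + s (_ + _ ^ 0 * _))) ^ (1 : ℤ) * (-(1 + s (_ + _ ^ 1 * _))) ^ (3 : ℤ) *
      (-(1 + s (_ + _ ^ 2 * _))) ^ (2 : ℤ) * (-(1 + s (_ + _ ^ 3 * _))) ^ (-1 : ℤ) *
      (-(1 + s (_ + _ ^ 4 * _))) ^ (-3 : ℤ) * (-(1 + s (_ + _ ^ 5 * _))) ^ (-2 : ℤ) = _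
    have tw : ∀ i : ℕ, Tor (QQ + -(wC ^ i * RR)) := fun i => by
      simpa [io_om, add_comm] using tor_pt (-om ^ i) 1
    have k0 := (tw 0).inv hC
    have k1 := (tw 1).inv hC
    have k2 := (tw 2).inv hC
    rw [← (ValP.rot_pow hC 2 _).2, show wC ^ 2 * -(QQ + -(wC ^ 1 * RR)) = RR + -wC ^ 2 * QQ by
      linear_combination RR * w3, pow_one] at k1
    rw [← hC.rot_s, show wC * -(QQ + -(wC ^ 2 * RR)) = RR + -wC * QQ by
      linear_combination RR * w3] at k2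
    rw [pow_zero, one_mul, show -(QQ + -RR) = RR + -1 * QQ by ring] at k0
    rw [v2, v3, v4, v5, pow_zero, pow_one, k0, k1, k2, one_mul, add_comm RR QQ,
      ← hC.rot_s (RR + wC ^ 2 * QQ), show wC * (RR + wC ^ 2 * QQ) = QQ + wC * RR by
        linear_combination QQ * w3, ← (ValP.rot_pow hC 2 (RR + wC * QQ)).2,
      show wC ^ 2 * (RR + wC * QQ) = QQ + wC ^ 2 * RR by linear_combination QQ * w3]
    simp only [zpow_neg, zpow_ofNat]
    field_simp
    ring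
  · rw [prod_eq hC hI hφ _ ![1, 18, -19, 1, 18, -19] (by decide), Fin.prod_univ_six]
    congr 1
    change (-(1 + s (_ + _ ^ 0 * _))) ^ (1 : ℤ) * (-(1 + s (_ + _ ^ 1 * _))) ^ (18 : ℤ) *
      (-(1 + s (_ + _ ^ 2 * _))) ^ (-19 : ℤ) * (-(1 + s (_ + _ ^ 3 * _))) ^ (1 : ℤ) *
      (-(1 + s (_ + _ ^ 4 * _))) ^ (18 : ℤ) * (-(1 + s (_ + _ ^ 5 * _))) ^ (-19 : ℤ) = _
    rw [v2, v3, v4, v5, pow_zero, pow_one, one_mul, neg_one_mul, neg_mul, neg_mul]
    generalize 1 + s (RR + QQ) = a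
    generalize 1 + s (RR + -QQ) = b
    generalize 1 + s (RR + wC * QQ) = c
    generalize 1 + s (RR + -(wC * QQ)) = d
    generalize 1 + s (RR + wC ^ 2 * QQ) = e
    generalize 1 + s (RR + -(wC ^ 2 * QQ)) = f
    simp only [zpow_neg, zpow_ofNat]
    ring

end Pool.Agent.MP_59efd2_nt.CM.Ell
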