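import Pool.Agent.MP_59efd2_nt.ub.Pair

/-!
# One global class with non-zero localisations decides two characters
-/

noncomputable section

namespace Pool.Agent.MP_59efd2_nt.lz.UB

open scoped Pointwise Classical
open Finset FinalP

variable {p : ℕ} [hp : Fact p.Prime]

/-- The functional equation transports regularity. -/
lemma alg_fe {R K : Type} [CommRing R] [Field K] (σ : R →+* R) (hσ : ∀ x, σ (σ x) = x)
    (κ κ' : R →+* K) (hκ : ∀ x, κ' (σ x) = κ x) {a b u : R}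
    (ha : a ∈ nonZeroDivisors R) (hw : a * σ b * u + σ (a * σ b * u) = 0) (hu : κ u ≠ 0)
    (hu' : κ' u ≠ 0) (h : NoZeroNoPole κ a b) : NoZeroNoPole κ' a b := by
  obtain ⟨a', b', ha', hb', hab⟩ := h
  have hσa : σ a ∈ nonZeroDivisors R := by
    rw [mem_nonZeroDivisors_iff_right] at ha ⊢
    intro x hx
    have h1 := congrArg σ hx
    rw [map_mul, hσ, map_zero] at h1
    rw [← hσ x, ha _ h1, map_zero]
  have hab' : σ b * σ a' = σ a * σ b' := by rw [← map_mul, ← map_mul, hab]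
  rw [map_mul, map_mul, hσ] at hw
  refine ⟨σ u * σ a', -(σ b' * u), ?_, ?_, ?_⟩
  · rw [map_mul, hκ, hκ]; exact mul_ne_zero hu ha'
  · rw [map_neg, map_mul, hκ]; exact neg_ne_zero.2 (mul_ne_zero hb' hu')
  · rw [← sub_eq_zero]
    refine mem_nonZeroDivisors_iff_right.1 hσa _ ?_
    linear_combination σ a' * hw - a * u * hab'

variable {ρ : GQ →* GL (Fin 2) ℤ_[p]} {V : Pl} {δ : Fin 2 → (DG V →* ℤ_[p]ˣ)}

/-- The local components of a global cocycle. -/
def locZ (h : SplitsAs ρ V δ) (z : Z1 (actG ρ)) (i : Fin 2) : Z1 (actL V (δ i)) :=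
  ⟨fun g => z.1 g i, (continuous_apply i).comp (z.2.1.comp continuous_subtype_val), fun g k => by
    beta_reduce
    rw [Subgroup.coe_mul, z.2.2, Pi.add_apply, actG_apply_of_splits h i g]⟩

lemma iso_loc (hp2 : p ≠ 2) {m : ℤ} (hρ : Continuous ρ)
    (hdet : ∀ g, Matrix.GeneralLinearGroup.det (ρ g) = chi p g ^ (1 - 2 * m))
    (h : SplitsAs ρ V δ) {P : Z1 (actL V (δ 0)) → Z1 (actL V (δ 1)) → Lam p}
    (hP : PairP m V (δ 0) (δ 1) P) (z : Z1 (actG ρ)) :
    P (locZ h z 0) (locZ h z 1) + star p m (P (locZ h z 0) (locZ h z 1)) = 0 :=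
  hP.iso _ _ fun n γ =>
    ((hIwb p hp2 m ρ hρ hdet z.1 z.2 n γ).mono le_top).congr fun g hg k hk => by
      have e0 := actG_apply_of_splits h 0 ⟨g, hg⟩ (z.1 k)
      have e1 := actG_apply_of_splits h 1 ⟨g, hg⟩ (z.1 k)
      rw [actL_apply] at e0 e1
      beta_reduce
      rw [cupL, cupL, ext_of_mem _ _ hg, ext_of_mem _ _ hg, ext_of_mem _ _ hk, ext_of_mem _ _ hk,
        pairL, e0, e1]
      rfl

/-- A class that is not a coboundary modulo `p` has a non-zero coordinate. -/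
lemma coord_ne {δ : DG V →* ℤ_[p]ˣ} {j : ℤ} (hg : ∃ g ∈ DG V, om p g = 1 ∧ dbar V δ g ≠ 1)
    {x e : Cocyc (act1 (cst p) (taut p) V δ)} {s : LamE p}
    (hx : LocalizedModule.mk (mkL (cst p) (taut p) V δ x) (1 : Submonoid.powers (p : Lam p)) =
      s • LocalizedModule.mk (mkL (cst p) (taut p) V δ e) 1)
    (hn : ¬ ∃ v : ZMod p, ∀ g : DG V, ev1 p j (x.1 g) = ev1 p j (sc V δ g) * v - v) :
    evalE p j s ≠ 0 := by
  intro h0
  induction s using Localization.induction_on with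
  | H y =>
    obtain ⟨r, _, t, rfl⟩ := y
    have hr : eval p j r = 0 := by
      have h1 := IsLocalization.mk'_spec (LamE p) r
        (⟨_, t, rfl⟩ : Submonoid.powers (p : Lam p))
      rw [← Localization.mk_eq_mk'_apply] at h1
      have h2 := congrArg (evalE p j) h1
      rw [map_mul, h0, zero_mul, evalE_alg] at h2
      exact PadicInt.coe_eq_zero.1 h2.symm
    rw [LocalizedModule.mk_smul_mk, LocalizedModule.mk_eq] at hx
    obtain ⟨⟨_, k, rfl⟩, hu⟩ := hx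
    simp only [Submonoid.smul_def, mul_one, one_smul, smul_smul] at hu
    rw [← map_smul, ← map_smul, ← sub_eq_zero, ← map_sub, mkL_eq_zero] at hu
    obtain ⟨w, hw⟩ := hu
    have h3 : ∀ g : DG V, (p : ℤ_[p]) ^ k * p ^ t * eval p j (x.1 g) =
        (eval p j (sc V δ g) - 1) * eval p j w := fun g => by
      have h4 := congrArg (eval p j) (hw g)
      have h5 : act1 (cst p) (taut p) V δ g w = sc V δ g * w := actL_apply V δ g w
      rw [h5] at h4
      change eval p j ((p : Lam p) ^ k * p ^ t * x.1 g - (p : Lam p) ^ k * r * e.1 g) = _ at h4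
      simp only [map_sub, map_mul, map_pow, map_natCast, hr, mul_zero, zero_mul, sub_zero] at h4
      rw [h4]; ring
    obtain ⟨g₀, hg₀, hg1, hg2⟩ := hg
    have hu : IsUnit (eval p j (sc V δ g₀) - 1) := by
      by_contra hn
      apply hg2
      have h6 := ev1_sc j V δ hg₀
      rw [hg1, one_zpow, mul_one] at h6
      rw [← h6, ← sub_eq_zero, ev1, RingHom.comp_apply, ← map_one (PadicInt.toZMod (p := p)),
        ← map_sub, ← RingHom.mem_ker, PadicInt.ker_toZMod]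
      exact hn
    obtain ⟨u, hu⟩ := hu
    have hpk : (p : ℤ_[p]) ^ k * p ^ t ≠ 0 :=
      mul_ne_zero (pow_ne_zero _ (Nat.cast_ne_zero.2 hp.out.ne_zero))
        (pow_ne_zero _ (Nat.cast_ne_zero.2 hp.out.ne_zero))
    refine hn ⟨PadicInt.toZMod ((u⁻¹ : ℤ_[p]ˣ) * eval p j (x.1 ⟨g₀, hg₀⟩)), fun g => ?_⟩
    have h7 : eval p j (x.1 g) =
        (eval p j (sc V δ g) - 1) * ((u⁻¹ : ℤ_[p]ˣ) * eval p j (x.1 ⟨g₀, hg₀⟩)) := by
      refine mul_left_cancel₀ hpk ?_
      have h8 := h3 ⟨g₀, hg₀⟩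
      rw [← hu] at h8
      have h9 := u.inv_mul
      rw [h3 g]
      linear_combination (-(eval p j (sc V δ g) - 1) * (u⁻¹ : ℤ_[p]ˣ)) * h8 -
        (eval p j (sc V δ g) - 1) * eval p j w * h9
    rw [ev1, RingHom.comp_apply, RingHom.comp_apply, h7, map_mul, map_sub, map_one]
    ring

lemma exists_sep {j k : ℤ} (hjk : j ≠ k) :
    ∃ γ : ℤ_[p]ˣ, eval p j (grp p γ) ≠ eval p k (grp p γ) := by
  have hu : IsUnit (1 - -(p : ℤ_[p])) :=
    IsLocalRing.isUnit_one_sub_self_of_mem_nonunits _ fun h =>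
      (PadicInt.irreducible_p (p := p)).not_isUnit ((IsUnit.neg_iff _).1 h)
  refine ⟨hu.unit⁻¹, fun h => hjk ?_⟩
  rw [eval_grp, eval_grp, inv_zpow', inv_zpow', neg_neg, neg_neg] at h
  have h1 : hu.unit ^ (j - k) = 1 := by rw [zpow_sub, Units.ext h, mul_inv_cancel]
  have h2 : (((1 + p : ℚ) ^ (j - k) : ℚ) : ℚ_[p]) = (1 : ℚ) := by
    have := congrArg ((Units.coeHom ℚ_[p]).comp
      (Units.map (PadicInt.Coe.ringHom (p := p)).toMonoidHom)) h1
    rw [map_zpow, map_one] at this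
    simpa using this
  have h3 : (0 : ℚ) < p := by exact_mod_cast hp.out.pos
  exact sub_eq_zero.1 ((zpow_eq_one_iff_right₀ (by positivity) (by linarith)).1
    (Rat.cast_injective h2))

lemma span_int {R A : Type} [CommRing R] [AddCommGroup A] [Module R A] {c : R} {x : A}
    (h : Submodule.span R {c • x} = ⊤) (y : A) : ∃ s : R, y = s • x := by
  obtain ⟨s, hs⟩ := Submodule.mem_span_singleton.1 (Submodule.eq_top_iff'.1 h y)
  exact ⟨s * c, by rw [← hs, smul_smul]⟩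

theorem gen (hp2 : p ≠ 2) (m : ℤ) (hρ : Continuous ρ)
    (hdet : ∀ g, Matrix.GeneralLinearGroup.det (ρ g) = chi p g ^ (1 - 2 * m))
    (hVp : Above V p) (h : SplitsAs ρ V δ) {β : ℤ_[p]} (hβ : UnramWith V (δ 1) β)
    (hβ1 : ¬ (p : ℤ_[p]) ∣ β - 1) (zs : Z1 (actG ρ)) {j : ℤ} (hj : j ≠ m)
    (hloc : ∀ i, ¬ ∃ v : ZMod p, ∀ g : DG V,
      ev1 p j (zs.1 g i) = ev1 p j (sc V (δ i) g) * v - v) (S : Set ℕ) (k : ℤ)
    (hk : k = 2 * m - j ∨ k = j) : IwRegular h S k := by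
  have hV : V ≠ ⊤ := val.above_ne V p hp.out.ne_zero hVp
  obtain ⟨hcont, hd, hg, x₀, y₀, hnd⟩ := setup hCont val hUnr hNd hLift hp2 m hρ hdet hVp h hβ hβ1
  obtain ⟨P, hP, hne⟩ := exists_pair' hV (hcont 0) (hcont 1) hd x₀ y₀ hnd
  intro z eα eβ a b hα hβ' hza hzb ha
  obtain ⟨z₀, cz, rfl⟩ := exists_int _ z
  obtain ⟨e₀, c₀, rfl⟩ := exists_int _ eα
  obtain ⟨e₁, c₁, rfl⟩ := exists_int _ eβ
  obtain ⟨z₀, rfl⟩ := mkG_surj _ _ _ _ z₀
  obtain ⟨e₀, rfl⟩ := mkL_surj _ _ _ _ e₀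
  obtain ⟨e₁, rfl⟩ := mkL_surj _ _ _ _ e₁
  rw [map_smul, LocalizedModule.map_mk, locAt_mk, smul_smul] at hza hzb
  have hza' := congrArg (fun w => ((cz⁻¹ : (LamE p)ˣ) : LamE p) • w) hza
  have hzb' := congrArg (fun w => ((cz⁻¹ : (LamE p)ˣ) : LamE p) • w) hzb
  simp only [smul_smul, Units.inv_mul, one_smul] at hza' hzb'
  have hun : ∀ (i : ℤ) (c : (LamE p)ˣ), evalE p i c ≠ 0 := fun i c =>
    (c.isUnit.map (evalE p i)).ne_zero
  set a₀ := ((cz⁻¹ : (LamE p)ˣ) : LamE p) * (a * c₀) with ha₀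
  set b₀ := ((cz⁻¹ : (LamE p)ˣ) : LamE p) * (b * c₁) with hb₀
  suffices hs : NoZeroNoPole (evalE p k) a₀ b₀ by
    obtain ⟨a', b', h1, h2, h3⟩ := hs
    refine ⟨c₁ * a', c₀ * b', by rw [map_mul]; exact mul_ne_zero (hun _ _) h1,
      by rw [map_mul]; exact mul_ne_zero (hun _ _) h2, ?_⟩
    have h4 := cz.mul_inv
    rw [ha₀, hb₀] at h3
    linear_combination (cz : LamE p) * h3 - (b * (c₁ * a') - a * (c₀ * b')) * h4
  have ha' : a₀ ∈ nonZeroDivisors (LamE p) :=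
    mul_mem (cz⁻¹).isUnit.mem_nonZeroDivisors (mul_mem ha c₀.isUnit.mem_nonZeroDivisors)
  set u := algebraMap (Lam p) (LamE p) (P (toZ e₀) (toZ e₁)) with hu
  have hu0 : ∀ i, evalE p i u ≠ 0 := fun i h0 => by
    obtain ⟨x, y, hxy⟩ := setup' hp2 m hVp hcont hd hg i
    obtain ⟨s, hs⟩ := span_int hα (LocalizedModule.mk (mkL _ _ V (δ 0) (ofZ x)) 1)
    obtain ⟨t, ht⟩ := span_int hβ' (LocalizedModule.mk (mkL _ _ V (δ 1) (ofZ y)) 1)
    have := congrArg (evalE p i) (pair_loc hP hs ht)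
    rw [map_mul, h0, mul_zero, evalE_alg, PadicInt.coe_eq_zero] at this
    exact hne i x y hxy (by rw [ev1, RingHom.comp_apply]; exact (congrArg _ this).trans (map_zero _))
  obtain ⟨as, has⟩ := span_int hα (LocalizedModule.mk (mkL _ _ V (δ 0) (ofZ (locZ h zs 0))) 1)
  obtain ⟨bs, hbs⟩ := span_int hβ' (LocalizedModule.mk (mkL _ _ V (δ 1) (ofZ (locZ h zs 1))) 1)
  obtain ⟨g₀, hg₀, hg1, hg2, hg3⟩ := hg
  have has0 := coord_ne ⟨g₀, hg₀, hg1, hg2⟩ has (hloc 0)
  have hbs0 := coord_ne ⟨g₀, hg₀, hg1, hg3⟩ hbs (hloc 1)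
  let z₁ : Z1 (actG ρ) := ⟨z₀.1, z₀.1.continuous, unrOut_le _ S z₀.2⟩
  have p11 : algebraMap (Lam p) (LamE p) (P (locZ h z₁ 0) (locZ h z₁ 1)) = _ := pair_loc hP hza' hzb'
  have p1s : algebraMap (Lam p) (LamE p) (P (locZ h z₁ 0) (locZ h zs 1)) = _ := pair_loc hP hza' hbs
  have ps1 : algebraMap (Lam p) (LamE p) (P (locZ h zs 0) (locZ h z₁ 1)) = _ := pair_loc hP has hzb'
  have i1 := iso_loc hp2 hρ hdet h hP z₁
  have is := iso_loc hp2 hρ hdet h hP zs
  have il : ∀ l : Lam p, star p m l * (P (locZ h z₁ 0) (locZ h zs 1) +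
      star p m (P (locZ h zs 0) (locZ h z₁ 1))) + l * (P (locZ h zs 0) (locZ h z₁ 1) +
      star p m (P (locZ h z₁ 0) (locZ h zs 1))) = 0 := fun l => by
    have h1 := iso_loc hp2 hρ hdet h hP (z₁ + l • zs)
    have h2 : ∀ i, locZ h (z₁ + l • zs) i = locZ h z₁ i + l • locZ h zs i := fun _ => rfl
    simp only [h2, hP.add_left, hP.add_right, hP.smul_left, hP.smul_right, map_add, map_mul,
      star_star] at h1
    linear_combination h1 - i1 - l * star p m l * is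
  obtain ⟨γ, hγ⟩ := exists_sep (p := p) (j := j) (k := 2 * m - j) fun e => hj (by omega)
  have iA : (star p m (grp p γ) - grp p γ) * (P (locZ h z₁ 0) (locZ h zs 1) +
      star p m (P (locZ h zs 0) (locZ h z₁ 1))) = 0 := by
    have h1 := il 1
    rw [map_one] at h1
    linear_combination il (grp p γ) - grp p γ * h1
  have iA' := congrArg (algebraMap (Lam p) (LamE p)) iA
  rw [map_mul, map_add, ← starE_alg, p1s, ps1, map_zero, map_mul, map_mul, starE_starE] at iA'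
  set d := algebraMap (Lam p) (LamE p) (star p m (grp p γ) - grp p γ) with hd'
  have hd0 : evalE p (2 * m - j) d ≠ 0 := by
    rw [hd', evalE_alg, map_sub, eval_star', sub_sub_cancel, Ne, PadicInt.coe_eq_zero, sub_eq_zero]
    exact hγ
  have e2 : ∀ x, evalE p (2 * m - j) (starE p m x) = evalE p j x := fun x => by
    rw [evalE_starE', sub_sub_cancel]
  have r1 : NoZeroNoPole (evalE p (2 * m - j)) a₀ b₀ := by
    refine ⟨d * (starE p m as * starE p m u), -(d * (starE p m bs * u)), ?_, ?_, ?_⟩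
    · rw [map_mul, map_mul, e2, e2]
      exact mul_ne_zero hd0 (mul_ne_zero has0 (hu0 _))
    · rw [map_neg, map_mul, map_mul, e2]
      exact neg_ne_zero.2 (mul_ne_zero hd0 (mul_ne_zero hbs0 (hu0 _)))
    · linear_combination iA'
  rcases hk with rfl | rfl
  · exact r1
  · have i1' := congrArg (algebraMap (Lam p) (LamE p)) i1
    rw [map_add, ← starE_alg, p11, map_zero] at i1'
    exact alg_fe (starE p m) (starE_starE m) _ _ (evalE_starE' m k) ha' i1' (hu0 _) (hu0 _) r1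

end Pool.Agent.MP_59efd2_nt.lz.UB
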