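import Mathlib.RingTheory.ZMod.UnitsCyclic
import Pool.Agent.MP_59efd2_nt.ub.Gen

/-!
# Regularity on the self-dual branches
-/

noncomputable section

namespace Pool.Agent.MP_59efd2_nt.lz.UB

open scoped Pointwise Classical
open Finset FinalP

variable {p : ℕ} [hp : Fact p.Prime]

lemma zpow_aff {R : Type} [CommRing R] (y : Rˣ) {a d : R} (hy : (y : R) = 1 + a * d) (m : ℤ) :
    ∃ q, ((y ^ m : Rˣ) : R) = 1 + a * (m * d + a * q) := by
  induction m using Int.induction_on with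
  | zero => exact ⟨0, by simp⟩
  | succ n ih =>
    obtain ⟨q, hq⟩ := ih
    exact ⟨q + d * (n * d + a * q), by rw [zpow_add_one, Units.val_mul, hq, hy]; push_cast; ring⟩
  | pred n ih =>
    obtain ⟨q, hq⟩ := ih
    have h1 := y.mul_inv
    refine ⟨q + d ^ 2 * (y⁻¹ : Rˣ) + (-n * d + a * q) * (-d + a * d ^ 2 * (y⁻¹ : Rˣ)), ?_⟩
    rw [zpow_sub_one, Units.val_mul, hq]
    rw [hy] at h1
    push_cast
    linear_combination (1 + a * (-n * d + a * q)) * (1 - a * d) * h1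

lemma pow_aff (hp2 : p ≠ 2) {n : ℕ} (γ : Gam p (n + 1)) : ∃ d : ZMod (p ^ (n + 1)),
    ∀ (k : ℕ) (m : ℤ), ∃ q, ((γ ^ (-((p - 1 : ℤ) * (p ^ k * m))) : Gam p (n + 1)) :
      ZMod (p ^ (n + 1))) = 1 + p ^ (k + 1) * (m * d + p * q) := by
  have : NeZero (p ^ (n + 1)) := ⟨pow_ne_zero _ hp.out.ne_zero⟩
  have hd : p ∣ p ^ (n + 1) := dvd_pow_self p n.succ_ne_zero
  obtain ⟨a, ha⟩ := ZMod.natCast_zmod_surjective
    (((γ⁻¹ ^ (p - 1) : Gam p (n + 1)) : ZMod (p ^ (n + 1))) - 1)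
  have h1 : ZMod.castHom hd (ZMod p) (a : ZMod (p ^ (n + 1))) = 0 := by
    have := congrArg Units.val (ZMod.units_pow_card_sub_one_eq_one p (ZMod.unitsMap hd γ⁻¹))
    rw [← map_pow] at this
    rw [ha, map_sub, map_one, sub_eq_zero]
    exact this
  rw [map_natCast, ZMod.natCast_eq_zero_iff] at h1
  obtain ⟨d, rfl⟩ := h1
  refine ⟨d, fun k m => ?_⟩
  obtain ⟨q, hq⟩ := zpow_aff (γ⁻¹ ^ (p - 1)) (a := p) (d := d) (by
    rw [← Nat.cast_mul, ha, add_sub_cancel]) m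
  obtain ⟨y, hy⟩ := ZMod.exists_one_add_mul_pow_prime_pow_eq (R := ZMod (p ^ (n + 1))) hp.out
    (dvd_refl (p : ZMod (p ^ (n + 1)))) (by
      rw [← sq, ← pow_succ]
      exact pow_dvd_pow _ (hp.out.two_le.lt_of_ne' hp2)) (m * d + p * q) k
  refine ⟨q + y, ?_⟩
  have h2 : γ ^ (-((p - 1 : ℤ) * (p ^ k * m))) = ((γ⁻¹ ^ (p - 1)) ^ m) ^ p ^ k := by
    rw [← zpow_natCast, ← zpow_natCast, ← zpow_mul, ← zpow_mul, inv_zpow', Nat.cast_sub hp.out.pos]
    congr 1
    push_cast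
    ring
  rw [h2, Units.val_pow_eq_pow_val, hq, hy]
  ring

lemma eval_ind {n : ℕ} {i j k : ℤ} (c : ℤ) (h : ∀ γ : Gam p n, ((γ ^ (-i) : Gam p n) : ZMod (p ^ n)) -
    (γ ^ (-j) : Gam p n) - c * ((γ ^ (-k) : Gam p n) - (γ ^ (-j) : Gam p n)) = 0) (b : Lam p) :
    (p : ℤ_[p]) ^ n ∣ eval p i b - eval p j b - c * (eval p k b - eval p j b) := by
  rw [← Ideal.mem_span_singleton, ← PadicInt.ker_toZModPow, RingHom.mem_ker]
  simp only [map_sub, map_mul, map_intCast, toZModPow_eval]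
  induction proj p n b using MonoidAlgebra.induction_linear with
  | zero => simp
  | add a b ha hb => simp only [map_add]; linear_combination ha + hb
  | single γ a => simp only [evalN_single]; linear_combination a * h γ

variable (hp2 : p ≠ 2)
include hp2

lemma cong_eval (k : ℕ) (m j : ℤ) (b : Lam p) :
    (p : ℤ_[p]) ^ (k + 1) ∣ eval p (j + (p - 1) * (p ^ k * m)) b - eval p j b := by
  simpa using eval_ind (n := k + 1) (i := j + (p - 1) * (p ^ k * m)) (j := j) (k := j) 0 (fun γ => by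
    obtain ⟨d, hd⟩ := pow_aff hp2 γ
    obtain ⟨q, hq⟩ := hd k m
    have h0 : (p : ZMod (p ^ (k + 1))) ^ (k + 1) = 0 := by exact_mod_cast ZMod.natCast_self _
    rw [neg_add, zpow_add, Units.val_mul, hq, h0]
    simp) b

lemma aff_eval (k : ℕ) (m j : ℤ) (b : Lam p) :
    (p : ℤ_[p]) ^ (k + 2) ∣ eval p (j + (p - 1) * (p ^ k * m)) b - eval p j b -
      ((p ^ k * m : ℤ) : ℤ_[p]) * (eval p (j + (p - 1)) b - eval p j b) :=
  eval_ind _ (fun γ => by
    obtain ⟨d, hd⟩ := pow_aff hp2 γ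
    obtain ⟨q, hq⟩ := hd k m
    obtain ⟨q', hq'⟩ := hd 0 1
    have h0 : (p : ZMod (p ^ (k + 2))) ^ (k + 2) = 0 := by exact_mod_cast ZMod.natCast_self _
    rw [pow_zero, one_mul, mul_one] at hq'
    rw [neg_add, zpow_add, neg_add, zpow_add, Units.val_mul, Units.val_mul, hq, hq']
    push_cast
    linear_combination (γ ^ (-j) : Gam p (k + 2)) * (q - m * q') * h0) b

/-- Two zeros on one branch force divisibility by `p ^ 2` on that branch. -/
lemma two_zero {j c : ℤ} (hc : c ≠ 0) {b : Lam p} (h1 : eval p j b = 0)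
    (h2 : eval p (j + (p - 1) * c) b = 0) (t : ℤ) :
    (p : ℤ_[p]) ^ 2 ∣ eval p (j + (p - 1) * t) b := by
  have hpp : Prime (p : ℤ) := Nat.prime_iff_prime_int.1 hp.out
  obtain ⟨k, m, hm, rfl⟩ := WfDvdMonoid.max_power_factor hc hpp.irreducible
  have h3 := aff_eval hp2 k m j b
  have h4 := aff_eval hp2 0 t j b
  rw [h1, h2] at h3
  rw [h1, pow_zero, one_mul] at h4
  simp only [sub_zero, zero_sub, dvd_neg, Int.cast_mul, Int.cast_pow, Int.cast_natCast] at h3 h4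
  rw [pow_add, mul_assoc, mul_dvd_mul_iff_left (pow_ne_zero _ (Nat.cast_ne_zero.2 hp.out.ne_zero)),
    (PadicInt.isUnit_iff.2 (le_antisymm (PadicInt.norm_le_one _) (not_lt.1 fun h =>
      hm ((PadicInt.norm_int_lt_one_iff_dvd m).1 h)))).dvd_mul_left] at h3
  exact (dvd_iff_dvd_of_dvd_sub h4).2 (h3.mul_left _)

omit hp2

lemma bdd (s : LamE p) : ∃ C > (0 : ℝ), ∀ j, ‖evalE p j s‖ ≤ C := by
  obtain ⟨⟨r, _, t, rfl⟩, h⟩ := IsLocalization.surj (Submonoid.powers (p : Lam p)) s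
  have h0 : (0 : ℝ) < ‖(p : ℚ_[p]) ^ t‖ :=
    norm_pos_iff.2 (pow_ne_zero _ (Nat.cast_ne_zero.2 hp.out.ne_zero))
  refine ⟨_, inv_pos.2 h0, fun j => ?_⟩
  have h1 := congrArg (fun w => ‖evalE p j w‖) h
  simp only [map_mul, map_pow, map_natCast, evalE_alg, norm_mul] at h1
  rw [← one_mul _⁻¹, le_mul_inv_iff₀ h0, h1]
  exact PadicInt.norm_le_one _

variable {ρ : GQ →* GL (Fin 2) ℤ_[p]} {V : Pl} {δ : Fin 2 → (DG V →* ℤ_[p]ˣ)}

/-- The obstruction to being a coboundary. -/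
def XX (δ : DG V →* ℤ_[p]ˣ) (x : DG V → Lam p) (g h : DG V) : Lam p :=
  x g * (sc V δ h - 1) - (sc V δ g - 1) * x h

/-- The local component `i` of `z` at the character `j` is a coboundary modulo `c`. -/
def Cb (δ : Fin 2 → (DG V →* ℤ_[p]ˣ)) (z : Z1 (actG ρ)) (i : Fin 2) (j : ℤ) (c : ℤ_[p]) : Prop :=
  ∀ g h, c ∣ eval p j (XX (δ i) (fun g => z.1 g i) g h)

lemma coord_le {δ : DG V →* ℤ_[p]ˣ} {x e : Cocyc (act1 (cst p) (taut p) V δ)} {s : LamE p}
    (hx : LocalizedModule.mk (mkL (cst p) (taut p) V δ x) (1 : Submonoid.powers (p : Lam p)) =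
      s • LocalizedModule.mk (mkL (cst p) (taut p) V δ e) 1) (j : ℤ) (g h : DG V) :
    ‖eval p j (XX δ x.1 g h)‖ ≤ ‖evalE p j s‖ := by
  induction s using Localization.induction_on with
  | H y =>
    obtain ⟨r, _, t, rfl⟩ := y
    have h1 := IsLocalization.mk'_spec (LamE p) r (⟨_, t, rfl⟩ : Submonoid.powers (p : Lam p))
    rw [← Localization.mk_eq_mk'_apply] at h1
    have h2 := congrArg (evalE p j) h1
    rw [map_mul, evalE_alg, evalE_alg] at h2
    rw [LocalizedModule.mk_smul_mk, LocalizedModule.mk_eq] at hx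
    obtain ⟨⟨_, k, rfl⟩, hu⟩ := hx
    simp only [Submonoid.smul_def, mul_one, one_smul, smul_smul] at hu
    rw [← map_smul, ← map_smul, ← sub_eq_zero, ← map_sub, mkL_eq_zero] at hu
    obtain ⟨w, hw⟩ := hu
    have h3 : ∀ g : DG V, (p : Lam p) ^ k * p ^ t * x.1 g - (p : Lam p) ^ k * r * e.1 g =
        sc V δ g * w - w := fun g => (hw g).trans (congrArg (· - w) (actL_apply V δ g w))
    have h4 : (p : Lam p) ^ k * (p ^ t * XX δ x.1 g h) = p ^ k * (r * XX δ e.1 g h) := by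
      unfold XX
      linear_combination (sc V δ h - 1) * h3 g - (sc V δ g - 1) * h3 h
    have h5 := congrArg (fun w => (eval p j w : ℚ_[p])) h4
    have h0 : (p : ℚ_[p]) ≠ 0 := Nat.cast_ne_zero.2 hp.out.ne_zero
    simp only [map_mul, map_pow, map_natCast, PadicInt.coe_mul, PadicInt.coe_pow,
      PadicInt.coe_natCast] at h2 h5
    rw [← h2, mul_right_inj' (pow_ne_zero k h0), mul_right_comm, mul_comm,
      mul_left_inj' (pow_ne_zero t h0)] at h5
    rw [PadicInt.norm_def, h5, norm_mul]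
    exact mul_le_of_le_one_right (norm_nonneg _) (PadicInt.norm_le_one _)

theorem gen2 (hp2 : p ≠ 2) (m : ℤ) (hρ : Continuous ρ)
    (hdet : ∀ g, Matrix.GeneralLinearGroup.det (ρ g) = chi p g ^ (1 - 2 * m))
    (hVp : Above V p) (h : SplitsAs ρ V δ) {β : ℤ_[p]} (hβ : UnramWith V (δ 1) β)
    (hβ1 : ¬ (p : ℤ_[p]) ∣ β - 1) (zs : Z1 (actG ρ)) {j : ℤ} (hj : j ≠ m)
    (hA : (∀ (k : ℤ) (r : ℕ), (p - 1 : ℤ) ∣ 2 * (k - m) →
      ∃ t i, Cb δ zs i (k + (p - 1) * t) (p ^ r)) → ∀ i, ¬ (Cb δ zs i j 0 ∧ Cb δ zs i (2 * m - j) 0))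
    (hB : ¬ Cb δ zs 0 j 0 ∨ ¬ Cb δ zs 1 j 0) (S : Set ℕ) : IwRegular h S j := by
  have hV : V ≠ ⊤ := val.above_ne V p hp.out.ne_zero hVp
  obtain ⟨hcont, hd, hg, x₀, y₀, hnd⟩ := setup hCont val hUnr hNd hLift hp2 m hρ hdet hVp h hβ hβ1
  obtain ⟨P, hP, hne⟩ := exists_pair' hV (hcont 0) (hcont 1) hd x₀ y₀ hnd
  intro z eα eβ a b hα hβ' hza hzb ha
  obtain ⟨z₀, cz, rfl⟩ := exists_int _ z
  obtain ⟨e₀, c₀, rfl⟩ := exists_int _ eα
  obtain ⟨e₁, c₁, rfl⟩ := exists_int _ eβ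
  obtain ⟨z₀, rfl⟩ := mkG_surj _ _ _ _ z₀
  obtain ⟨e₀, rfl⟩ := mkL_surj _ _ _ _ e₀
  obtain ⟨e₁, rfl⟩ := mkL_surj _ _ _ _ e₁
  rw [map_smul, LocalizedModule.map_mk, locAt_mk, smul_smul] at hza hzb
  have hza' := congrArg (fun w => ((cz⁻¹ : (LamE p)ˣ) : LamE p) • w) hza
  have hzb' := congrArg (fun w => ((cz⁻¹ : (LamE p)ˣ) : LamE p) • w) hzb
  simp only [smul_smul, Units.inv_mul, one_smul] at hza' hzb'
  have hun : ∀ (i : ℤ) (c : (LamE p)ˣ), evalE p i c ≠ 0 := fun i c =>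
    (c.isUnit.map (evalE p i)).ne_zero
  set a₀ := ((cz⁻¹ : (LamE p)ˣ) : LamE p) * (a * c₀) with ha₀
  set b₀ := ((cz⁻¹ : (LamE p)ˣ) : LamE p) * (b * c₁) with hb₀
  suffices hs : NoZeroNoPole (evalE p j) a₀ b₀ by
    obtain ⟨a', b', h1, h2, h3⟩ := hs
    refine ⟨c₁ * a', c₀ * b', by rw [map_mul]; exact mul_ne_zero (hun _ _) h1,
      by rw [map_mul]; exact mul_ne_zero (hun _ _) h2, ?_⟩
    have h4 := cz.mul_inv
    rw [ha₀, hb₀] at h3
    linear_combination (cz : LamE p) * h3 - (b * (c₁ * a') - a * (c₀ * b')) * h4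
  have ha' : a₀ ∈ nonZeroDivisors (LamE p) :=
    mul_mem (cz⁻¹).isUnit.mem_nonZeroDivisors (mul_mem ha c₀.isUnit.mem_nonZeroDivisors)
  set u := algebraMap (Lam p) (LamE p) (P (toZ e₀) (toZ e₁)) with hu
  have hu1 : ∀ k, ∃ ε > (0 : ℝ), ∀ t : ℤ, ε ≤ ‖evalE p (k + (p - 1) * t) u‖ := fun k => by
    obtain ⟨x, y, hxy⟩ := setup' hp2 m hVp hcont hd hg k
    obtain ⟨s, hs⟩ := span_int hα (LocalizedModule.mk (mkL _ _ V (δ 0) (ofZ x)) 1)
    obtain ⟨t, ht⟩ := span_int hβ' (LocalizedModule.mk (mkL _ _ V (δ 1) (ofZ y)) 1)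
    obtain ⟨C, hC, hC'⟩ := bdd (s * starE p m t)
    refine ⟨C⁻¹, inv_pos.2 hC, fun r => ?_⟩
    have h1 := congrArg (fun w => ‖evalE p (k + (p - 1) * r) w‖) (pair_loc hP hs ht)
    have h2 : ‖eval p (k + (p - 1) * r) (P x y)‖ = 1 := by
      refine PadicInt.isUnit_iff.1 (by_contra fun hn => hne k x y hxy ?_)
      have h3 := cong_eval hp2 0 r k (P x y)
      simp only [zero_add, pow_one, pow_zero, one_mul] at h3
      have h4 := (PadicInt.norm_lt_one_iff_dvd _).1 (PadicInt.mem_nonunits.1 hn)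
      obtain ⟨q, hq⟩ := (dvd_iff_dvd_of_dvd_sub h3).1 h4
      rw [ev1, RingHom.comp_apply, hq, map_mul, map_natCast, ZMod.natCast_self, zero_mul]
    simp only [map_mul (evalE p _) (s * starE p m t), norm_mul, evalE_alg] at h1
    rw [inv_le_iff_one_le_mul₀' hC, ← h2, hu, evalE_alg]
    exact (le_of_eq h1).trans (mul_le_mul_of_nonneg_right (hC' _) (norm_nonneg _))
  have hu0 : ∀ i, evalE p i u ≠ 0 := fun i h0 => by
    obtain ⟨ε, h1, h2⟩ := hu1 i
    have h3 := h2 0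
    rw [mul_zero, add_zero, h0, norm_zero] at h3
    exact h1.not_ge h3
  obtain ⟨as, has⟩ := span_int hα (LocalizedModule.mk (mkL _ _ V (δ 0) (ofZ (locZ h zs 0))) 1)
  obtain ⟨bs, hbs⟩ := span_int hβ' (LocalizedModule.mk (mkL _ _ V (δ 1) (ofZ (locZ h zs 1))) 1)
  have is := iso_loc hp2 hρ hdet h hP zs
  have pss : algebraMap (Lam p) (LamE p) (P (locZ h zs 0) (locZ h zs 1)) = _ := pair_loc hP has hbs
  have hc : ∀ i k g g', ‖eval p k (XX (δ i) (fun g => zs.1 g i) g g')‖ ≤ ‖evalE p k (![as, bs] i)‖ :=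
    fun i => by
      fin_cases i
      · exact fun k g g' => coord_le has k g g'
      · exact fun k g g' => coord_le hbs k g g'
  have hz : ∀ i k, evalE p k (![as, bs] i) = 0 → Cb δ zs i k 0 := fun i k h0 g g' =>
    zero_dvd_iff.2 (norm_le_zero_iff.1 (by simpa [h0] using hc i k g g'))
  have hA' := hA fun k r ⟨c, hk⟩ => by
    by_contra! hn
    have h1 : ∀ t i, (p : ℝ) ^ (-(r : ℤ)) ≤ ‖evalE p (k + (p - 1) * t) (![as, bs] i)‖ := fun t i => by
      obtain ⟨g, g', hg⟩ : ∃ g g', ¬ _ := by simpa only [Cb, not_forall] using hn t i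
      refine le_trans (le_of_not_ge fun h2 => hg ?_) (hc i _ g g')
      exact Ideal.mem_span_singleton.1 ((PadicInt.norm_le_pow_iff_mem_span_pow _ r).1 h2)
    obtain ⟨ε, e1, e2⟩ := hu1 k
    have hp0 : (0 : ℝ) < (p : ℝ) ^ (-(r : ℤ)) := zpow_pos (Nat.cast_pos.2 hp.out.pos) _
    obtain ⟨N, hN⟩ := PadicInt.exists_pow_neg_lt p (mul_pos (mul_pos hp0 hp0) e1)
    obtain ⟨d, hd⟩ := sub_dvd_pow_sub_pow (p : ℤ) 1 N
    rw [one_pow] at hd
    set i := k + (p - 1) * ((k - m) * d) with hi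
    have h2 := cong_eval hp2 N c (2 * m - i) (P (locZ h zs 0) (locZ h zs 1))
    have h3 := congrArg (eval p i) is
    rw [map_add, eval_star', map_zero] at h3
    rw [show 2 * m - i + (p - 1) * (p ^ N * c) = i by
      rw [hi]; linear_combination -(p : ℤ) ^ N * hk + 2 * (k - m) * hd,
      eq_neg_of_add_eq_zero_right h3, sub_neg_eq_add, ← two_mul] at h2
    have h4 := (PadicInt.norm_le_pow_iff_mem_span_pow _ N).2 (Ideal.mem_span_singleton.2
      ((pow_dvd_pow _ N.le_succ).trans h2))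
    have h5 : ‖(2 : ℤ_[p])‖ = 1 := by
      exact_mod_cast PadicInt.norm_natCast_eq_one_iff (p := p) (n := 2) |>.2
        ((Nat.coprime_primes hp.out Nat.prime_two).2 hp2)
    have h6 := congrArg (fun w => ‖evalE p i w‖) pss
    simp only [map_mul, norm_mul, evalE_alg, evalE_starE'] at h6
    rw [norm_mul, h5, one_mul] at h4
    have h7 := h1 (-((k - m) * d) - c) 1
    rw [show k + (p - 1) * (-((k - m) * d) - c) = 2 * m - i by rw [hi]; linear_combination hk] at h7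
    have h8 : _ ≤ ‖evalE p i as‖ := h1 ((k - m) * d) 0
    have h9 : _ ≤ ‖evalE p (2 * m - i) bs‖ := h7
    have h10 : _ ≤ ‖evalE p i u‖ := e2 ((k - m) * d)
    rw [hu, evalE_alg] at h10
    exact (hN.trans_le (mul_le_mul (mul_le_mul h8 h9 hp0.le (norm_nonneg _)) h10 e1.le
      (by positivity))).not_ge (h6.symm.le.trans h4)
  have fe := congrArg (fun w => evalE p j (algebraMap (Lam p) (LamE p) w)) is
  simp only [map_add, ← starE_alg, pss, map_mul, evalE_starE', starE_starE, map_zero] at fe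
  have has0 : evalE p j as ≠ 0 := fun h0 => by
    rw [h0, zero_mul, zero_mul, zero_add] at fe
    have h1 := hz 0 j h0
    exact hA' 0 ⟨h1, hz 0 _ ((mul_eq_zero.1 ((mul_eq_zero.1 fe).resolve_right (hu0 _))).resolve_right
      fun h2 => hB.elim (· h1) (· (hz 1 j h2)))⟩
  have hbs0 : evalE p j bs ≠ 0 := fun h0 =>  by
    rw [h0, mul_zero, zero_mul, add_zero] at fe
    exact hA' 1 ⟨hz 1 j h0, hz 1 _ ((mul_eq_zero.1 ((mul_eq_zero.1 fe).resolve_right
      (hu0 _))).resolve_left has0)⟩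
  let z₁ : Z1 (actG ρ) := ⟨z₀.1, z₀.1.continuous, unrOut_le _ S z₀.2⟩
  have p11 : algebraMap (Lam p) (LamE p) (P (locZ h z₁ 0) (locZ h z₁ 1)) = _ := pair_loc hP hza' hzb'
  have p1s : algebraMap (Lam p) (LamE p) (P (locZ h z₁ 0) (locZ h zs 1)) = _ := pair_loc hP hza' hbs
  have ps1 : algebraMap (Lam p) (LamE p) (P (locZ h zs 0) (locZ h z₁ 1)) = _ := pair_loc hP has hzb'
  have i1 := iso_loc hp2 hρ hdet h hP z₁
  have il : ∀ l : Lam p, star p m l * (P (locZ h z₁ 0) (locZ h zs 1) +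
      star p m (P (locZ h zs 0) (locZ h z₁ 1))) + l * (P (locZ h zs 0) (locZ h z₁ 1) +
      star p m (P (locZ h z₁ 0) (locZ h zs 1))) = 0 := fun l => by
    have h1 := iso_loc hp2 hρ hdet h hP (z₁ + l • zs)
    have h2 : ∀ i, locZ h (z₁ + l • zs) i = locZ h z₁ i + l • locZ h zs i := fun _ => rfl
    simp only [h2, hP.add_left, hP.add_right, hP.smul_left, hP.smul_right, map_add, map_mul,
      star_star] at h1
    linear_combination h1 - i1 - l * star p m l * is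
  obtain ⟨γ, hγ⟩ := exists_sep (p := p) (j := j) (k := 2 * m - j) fun e => hj (by omega)
  have iA : (star p m (grp p γ) - grp p γ) * (P (locZ h z₁ 0) (locZ h zs 1) +
      star p m (P (locZ h zs 0) (locZ h z₁ 1))) = 0 := by
    have h1 := il 1
    rw [map_one] at h1
    linear_combination il (grp p γ) - grp p γ * h1
  have iA' := congrArg (algebraMap (Lam p) (LamE p)) iA
  rw [map_mul, map_add, ← starE_alg, p1s, ps1, map_zero, map_mul, map_mul, starE_starE] at iA'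
  set d := algebraMap (Lam p) (LamE p) (star p m (grp p γ) - grp p γ) with hd'
  have hd0 : evalE p (2 * m - j) d ≠ 0 := by
    rw [hd', evalE_alg, map_sub, eval_star', sub_sub_cancel, Ne, PadicInt.coe_eq_zero, sub_eq_zero]
    exact hγ
  have e2 : ∀ x, evalE p (2 * m - j) (starE p m x) = evalE p j x := fun x => by
    rw [evalE_starE', sub_sub_cancel]
  have r1 : NoZeroNoPole (evalE p (2 * m - j)) a₀ b₀ := by
    refine ⟨d * (starE p m as * starE p m u), -(d * (starE p m bs * u)), ?_, ?_, ?_⟩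
    · rw [map_mul, map_mul, e2, e2]
      exact mul_ne_zero hd0 (mul_ne_zero has0 (hu0 _))
    · rw [map_neg, map_mul, map_mul, e2]
      exact neg_ne_zero.2 (mul_ne_zero hd0 (mul_ne_zero hbs0 (hu0 _)))
    · linear_combination iA'
  have i1' := congrArg (algebraMap (Lam p) (LamE p)) i1
  rw [map_add, ← starE_alg, p11, map_zero] at i1'
  exact alg_fe (starE p m) (starE_starE m) _ _ (evalE_starE' m j) ha' i1' (hu0 _) (hu0 _) r1

end Pool.Agent.MP_59efd2_nt.lz.UB
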