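import Pool.Agent.MP_59efd2_nt.ub.Ell2

/-!
# The instance of level 9, weight 4, prime 7, away from the centre
-/

noncomputable section

namespace Pool.Agent.MP_59efd2_nt.CM.Ell

open Polynomial RepP
open Pool.Agent.MP_db1c88_nt.QRH (O Primary mul_star')

theorem rep_at2 {t s : ℂ → ℂ} (hG : Gl t s) (hW : Wl t s) (hF : Frb t s) {φ : O →+* ℤ_[7]}
    (hφ : (7 : ℤ_[7]) ∣ φ (star pi7)) {ρ : GQ →* GL (Fin 2) ℤ_[7]} {e : Fin 2 → GQ → ℤ_[7]ˣ}
    (h : Chr t s φ ρ e) : ∃ (V : ValuationSubring Qb)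
      (δ : Fin 2 → (V.decompositionSubgroup ℚ →* ℤ_[7]ˣ)) (α β : ℤ_[7]),
      IsDeligne 9 4 aa ρ ∧ Above V 7 ∧ SplitsAs ρ V δ ∧ CriticalChars 4 (aa 7) V δ α β ∧
      ¬ (7 : ℤ_[7]) ∣ β - 1 ∧ V.valuation (1 + 3 * zq) < 1 := by
  have hA := ari
  have hC := cyc
  obtain ⟨V, hV, hV1, hD⟩ := hC.seven
  have h7 : (7 : ℤ_[7]) ∣ φ 7 := by rw [map_ofNat]
  have hdet := det_eq hG h hW
  let δ : Fin 2 → (V.decompositionSubgroup ℚ →* ℤ_[7]ˣ) := fun i =>
    MonoidHom.mk' (fun g => (e i g ^ 3)⁻¹) fun a b => by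
      simp only [Subgroup.coe_mul, h.mul i _ _ (hD a a.2), mul_pow, mul_inv]
  obtain ⟨c, hc⟩ := id hφ
  have hp : φ pi7 = -1 - 7 * c := by
    have := congrArg φ pi7_add
    rw [map_add, map_neg, map_one] at this
    linear_combination this - hc
  have n7 : ¬ IsUnit (7 : ℤ_[7]) := by exact_mod_cast (PadicInt.irreducible_p (p := 7)).not_isUnit
  have hu : IsUnit (φ pi7 ^ 3) := (IsUnit.pow 3 (by
    rw [hp, show -1 - 7 * c = -(1 - 7 * -c) by ring, IsUnit.neg_iff]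
    exact IsLocalRing.isUnit_one_sub_self_of_mem_nonunits _
      fun h1 => n7 (isUnit_of_mul_isUnit_left h1)))
  have hm : φ (star pi7) ^ 3 * φ pi7 ^ 3 = 7 ^ 3 := by
    rw [← mul_pow, mul_comm, ← map_mul, pi7_mul, map_ofNat]
  have i7 : ∀ g ∈ V.inertiaSubgroup ℚ, e 1 g ^ 3 = 1 := fun g hg => Units.ext (by
    simpa using cube1 hG h (y := 1) hφ (by simpa using hF.inertia7 V hV1 g hg))
  have f7 : ∀ g, IsFrob V 7 g → e 1 g ^ 3 = hu.unit := fun g hg =>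
    Units.ext (cube1 hG h hφ (hF.frob7 V hV1 g hg))
  have k : ∀ g : V.decompositionSubgroup ℚ,
      (δ 0 * ((chi 7).comp (V.decompositionSubgroup ℚ).subtype) ^ (4 - 1)) g = e 1 g ^ 3 := by
    intro g
    have h2 : chi 7 g = e 0 g * e 1 g :=
      Units.ext (by simpa [sg, hD g g.2] using chi_eq hG h hW g)
    simp [δ, h2, mul_pow]
  refine ⟨V, δ, φ (star pi7) ^ 3, φ pi7 ^ 3, ⟨h.cont, fun l hl hl' W hW' => ?_⟩, hV,
    fun g => h.fix g (hD g g.2), ⟨?_, hm, hu, ⟨fun g hg => ?_, fun g hg => ?_⟩, ↑hu.unit⁻¹, ?_,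
      fun g hg => ?_, fun g hg => ?_⟩, fun ⟨d, hd⟩ => ?_, hV1⟩
  · have l3 : l ≠ 3 := by rintro rfl; norm_num at hl'
    have l7 : l ≠ 7 := by rintro rfl; norm_num at hl'
    refine ⟨fun g hg => ?_, fun g hg => ?_⟩
    · have h1 := hF.inertia W l hl l3 l7 hW' g hg
      have h2 : e 0 g ^ 3 = 1 := Units.ext (by simpa using cube0 hG h (y := 1) (by simpa using h1))
      have h3 : e 1 g ^ 3 = 1 :=
        Units.ext (by simpa using cube1 hG h (y := 1) h7 (by simpa using h1))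
      apply Units.ext
      rw [h.fix g (hC.inertia_fix W l hl l3 hW' g hg)]
      rw [Units.val_one, ← Matrix.diagonal_one]
      congr 1
      ext i
      fin_cases i <;> simp only [Fin.zero_eta, Fin.mk_one, h2, h3, inv_one, Units.val_one]
    · have h1 : (ρ g⁻¹ : Matrix (Fin 2) (Fin 2) ℤ_[7]).det = (l : ℤ_[7]) ^ (4 - 1) := by
        rw [← Matrix.GeneralLinearGroup.val_det_apply, hdet, ← hC.chi_frob W l hl l7 hW' g hg]
        simp
      rw [Matrix.charpoly_fin_two, h1]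
      congr 4
      have h2 := hC.frob_fix W l hl l3 hW' g hg
      by_cases h3 : l % 3 = 1
      · obtain ⟨x, x1, x2, x3⟩ := hA.split l hl h3
        obtain ⟨y, y1, y2⟩ := hF.frob W l x hl l7 x1 x2 hW' g hg
        have x4 := congrArg φ x3
        rw [h.fix _ (fix_inv.2 (h2.2 h3)), Matrix.trace_diagonal, Fin.sum_univ_two]
        simp only [e_inv h _ (h2.2 h3), inv_pow, inv_inv, Units.val_pow_eq_pow_val, cube0 hG h y2,
          cube1 hG h h7 y2]
        rw [map_intCast] at x4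
        rcases y1 with rfl | rfl <;> simp [x4, add_comm]
      · have h4 : l % 3 ≠ 0 := fun h4 => l3 ((Nat.prime_dvd_prime_iff_eq Nat.prime_three hl).1
          (Nat.dvd_of_mod_eq_zero h4)).symm
        rw [h.swap _ (mt (fun h5 => h2.1 (fix_inv.1 h5)) h3), hA.inert l (by omega)]
        simp
  · rw [hA.seven, ← map_pow, ← map_pow, ← map_add, show star pi7 ^ 3 + pi7 ^ 3 = (20 : ℤ) by decide,
      map_intCast]
  · simp [δ, i7 g hg]
  · rw [map_inv]
    simp [δ, f7 g hg]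
  · rw [eq_comm, Units.mul_inv_eq_iff_eq_mul]
    exact hm.symm
  · rw [k, i7 g hg]
  · rw [map_inv, k, f7 g hg]
  · rw [hp] at hd
    refine n7 (isUnit_of_dvd_one ⟨4 * (-d - 3 * c - 21 * c ^ 2 - 49 * c ^ 3) - 1, ?_⟩)
    linear_combination -4 * hd

theorem main2 : ∃ (f : CuspForm (CongruenceSubgroup.Gamma0 9) (4 : ℕ)) (a : ℕ → ℤ)
    (ρ : GQ →* GL (Fin 2) ℤ_[7]) (V : ValuationSubring Qb)
    (δ : Fin 2 → (V.decompositionSubgroup ℚ →* ℤ_[7]ˣ)) (α β : ℤ_[7]) (h : SplitsAs ρ V δ),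
    IsNewform 9 (4 : ℕ) f ∧ (∀ n, coef f n = a n) ∧ IsDeligne 9 4 a ρ ∧ Above V 7 ∧
    CriticalChars 4 (a 7) V δ α β ∧ ∀ j : ℤ, j ≠ 2 → IwRegular h {l | l ∣ 9 * 7} j := by
  obtain ⟨L, κ, H⟩ := hex
  have c := add L κ H
  have k := ker _ _ c
  have hP := prd L κ H c
  have hG := gal _ _ c k.intg
  have hW := weil L κ H c
  obtain ⟨φ, hφ⟩ := exists_phi
  obtain ⟨ρ, e, h⟩ := chr _ _ hG φ
  obtain ⟨V, δ, α, β, h1, h2, h3, h4, h5, h7⟩ :=
    rep_at2 hG hW (frb ari cyc _ _ c k.intg (val ari _ _ c k hP)) hφ h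
  obtain ⟨f, -, hc⟩ := mod (tha ari) (ths ari (tha ari))
  obtain ⟨z, hz⟩ := (sys φ c k.intg hP hG hW h).exists_loc h3 h2 (units φ c k.intg hP hφ)
  have hg := fun j (hj : j % 3 = 1) => lz.UB.gen (by norm_num) 2 h1.1
    (fun g => by simpa using det_eq hG h hW g) h2 h3 h4.2.2.2.1 (by simpa using h5) z
    (j := j) (by omega) (hz j hj) {l | l ∣ 9 * 7}
  refine ⟨f, aa, ρ, V, δ, α, β, h3, ⟨?_, fun l hl n => ?_, fun M hM hM' g _ => new M ?_ g⟩, hc,
    h1, h2, h4, fun j hj => ?_⟩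
  · rw [hc, ari.one, Int.cast_one]
  · have := congrArg (Int.cast : ℤ → ℂ) (ari.hecke l n hl)
    simp only [hc]
    push_cast at this ⊢
    rw [← this]
    congr 1
  · have := Nat.le_of_dvd (by norm_num) hM
    interval_cases M <;> simp_all
  · by_cases h6 : j % 3 = 1
    · exact hg j h6 j (.inr rfl)
    by_cases h8 : j % 3 = 2
    · exact (sys φ c k.intg hP hG hW h).dual h1.1 (fun g => by simpa using det_eq hG h hW g) h2 h3
        h4.2.2.2.1 h5 h7 (units2 c k.intg hφ).1 (units2 c k.intg hφ).2 h8 hj _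
    · exact hg (4 - j) (by omega) j (.inl (by ring))

end Pool.Agent.MP_59efd2_nt.CM.Ell
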