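import Pool.Agent.MP_59efd2_nt.ub.Sys

/-!
# The first level of the class is not a local coboundary
-/

noncomputable section

namespace Pool.Agent.MP_59efd2_nt.lz.UB

open scoped Pointwise Classical
open Finset CM CM.ChrP Additive

section Val

variable {V : Pl}

lemma mem_of_add_inv {x : Qb} (h : x + x⁻¹ ∈ V) : x ∈ V :=
  (V.mem_or_inv_mem x).elim id fun h1 => by simpa using V.sub_mem h h1

lemma mem_of_pow {x : Qb} (h : x ^ 7 ∈ V) : x ∈ V := by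
  rw [← V.valuation_le_one_iff] at h ⊢
  rw [map_pow] at h
  exact (pow_le_one_iff (by norm_num)).1 h

lemma dvd_of_mem (hV : Above V 7) {N : ℤ} {q : Qb} (hq : q ∈ V) (h : (N : Qb) = 7 * q) :
    (7 : ℤ) ∣ N := by
  by_contra hn
  have h1 := (val.int V 7 (by norm_num) hV N).2 hn
  rw [h, map_mul] at h1
  have h2 : V.valuation 7 < 1 := hV
  exact (mul_lt_one_of_lt_of_le h2 ((V.valuation_le_one_iff _).2 hq)).ne h1

lemma cheb {R : Type} [CommRing R] (a b : R) : ∃ q : R,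
    (a + 7 * b) ^ 7 - 7 * (a + 7 * b) ^ 5 + 14 * (a + 7 * b) ^ 3 - 7 * (a + 7 * b) =
      a ^ 7 - 7 * a ^ 5 + 14 * a ^ 3 - 7 * a + 49 * q :=
  ⟨a ^ 6 * b + 21 * a ^ 5 * b ^ 2 + 245 * a ^ 4 * b ^ 3 + 1715 * a ^ 3 * b ^ 4 +
    7203 * a ^ 2 * b ^ 5 + 16807 * a * b ^ 6 + 16807 * b ^ 7 - (5 * a ^ 4 * b +
    70 * a ^ 3 * b ^ 2 + 490 * a ^ 2 * b ^ 3 + 1715 * a * b ^ 4 + 2401 * b ^ 5) +
    (6 * a ^ 2 * b + 42 * a * b ^ 2 + 98 * b ^ 3) - b, by ring⟩

lemma no_root (hV : Above V 7) (y : Qbˣ) (hy : ∀ g ∈ DG V, sU g y = y ∨ sU g y = y⁻¹)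
    (hE : ((y : Qb) ^ 7 + ((y : Qb) ^ 7)⁻¹) ^ 2 - 2515 * ((y : Qb) ^ 7 + ((y : Qb) ^ 7)⁻¹) +
      5531575 = 0) : False := by
  set X := (y : Qb) ^ 7 + ((y : Qb) ^ 7)⁻¹ with hX
  have hN : ∀ n : ℕ, (n : Qb) ∈ V := fun n => natCast_mem V n
  have hXV : X ∈ V := (V.mem_or_inv_mem X).elim id fun h1 => by
    have h0 : X ≠ 0 := fun h0 => by rw [h0] at hE; norm_num at hE
    have : X = (2515 : ℕ) - (5531575 : ℕ) * X⁻¹ := by
      field_simp
      push_cast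
      linear_combination hE
    rw [this]
    exact V.sub_mem (hN _) (V.mul_mem _ _ (hN _) h1)
  have h1 : (y : Qb) ∈ V := mem_of_pow (mem_of_add_inv hXV)
  have h2 : (y : Qb)⁻¹ ∈ V := mem_of_pow (mem_of_add_inv (by rwa [inv_pow, inv_inv, add_comm]))
  set τ := (y : Qb) + (y : Qb)⁻¹ with hτ
  have hf : IsFix (DG V) τ := fun g hg => by
    have h3 : g (y : Qb) = y ∨ g (y : Qb) = (y : Qb)⁻¹ :=
      (hy g hg).imp (congrArg Units.val) fun h =>
        (congrArg Units.val h).trans (Units.val_inv_eq_inv_val y)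
    rw [hτ, map_add, map_inv₀]
    rcases h3 with h3 | h3
    · rw [h3]
    · rw [h3, inv_inv, add_comm]
  obtain ⟨n, hn⟩ := hDens.baseRes V (val.above_ne V 7 (by norm_num) hV) τ
    (mem_OH.2 ⟨V.add_mem _ _ h1 h2, hf⟩)
  have h7 : V.valuation 7 < 1 := hV
  have h70 : 0 < V.valuation 7 := zero_lt_iff.2 ((map_ne_zero _).2 (by norm_num))
  obtain ⟨t, ht, hτt⟩ : ∃ t ∈ V, τ = n + 7 * t := by
    refine ⟨(τ - n) / 7, ?_, by ring⟩
    by_cases h0 : τ - n = 0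
    · rw [h0, zero_div]; exact V.zero_mem
    obtain ⟨j, hj⟩ := hDens.baseVal V 7 (by norm_num) hV (Units.mk0 _ h0) (fun g hg => by
      change g (τ - n) = τ - n
      rw [map_sub, hf g hg, map_intCast])
    change V.valuation (τ - n) = V.valuation 7 ^ j at hj
    rw [hj] at hn
    have hj1 : 1 ≤ j := (zpow_lt_one_iff_right_of_lt_one₀ h70 h7).1 hn
    rw [← V.valuation_le_one_iff, map_div₀, hj, div_le_one₀ h70]
    simpa using zpow_le_zpow_right_of_le_one₀ h70 h7.le hj1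
  have hT : X = τ ^ 7 - 7 * τ ^ 5 + 14 * τ ^ 3 - 7 * τ := by
    rw [hX, hτ]
    field_simp
    ring
  obtain ⟨q, hq, hXq⟩ : ∃ q ∈ V, X = (n ^ 7 - 7 * n ^ 5 + 14 * n ^ 3 - 7 * n : ℤ) + 49 * q := by
    obtain ⟨q, hq⟩ := cheb (n : V) ⟨t, ht⟩
    refine ⟨q, q.2, ?_⟩
    have h3 := congrArg V.subtype hq
    simp only [map_add, map_sub, map_mul, map_pow, map_ofNat, map_intCast] at h3
    rw [hT, hτt]
    push_cast
    exact h3
  set N : ℤ := n ^ 7 - 7 * n ^ 5 + 14 * n ^ 3 - 7 * n with hN'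
  have hr : -(q * (X + N - (2515 : ℕ))) ∈ V :=
    V.neg_mem _ (V.mul_mem _ _ hq (V.sub_mem (V.add_mem _ _ hXV (intCast_mem V N)) (hN _)))
  obtain ⟨M, hM⟩ := dvd_of_mem hV (N := N ^ 2 - 2515 * N + 5531575) (V.mul_mem _ _ (hN 7) hr) (by
    push_cast
    linear_combination hE - (X + N - 2515) * hXq)
  obtain ⟨M', rfl⟩ := dvd_of_mem hV (N := M) hr (by
    have := congrArg (Int.cast : ℤ → Qb) hM
    push_cast at this ⊢
    linear_combination (hE - (X + N - 2515) * hXq - this) / 7)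
  have h49 := congrArg (Int.cast : ℤ → ZMod 49) hM
  rw [hN'] at h49
  push_cast at h49
  have hd : ∀ a b : ZMod 49, (a ^ 7 - 7 * a ^ 5 + 14 * a ^ 3 - 7 * a) ^ 2 -
      2515 * (a ^ 7 - 7 * a ^ 5 + 14 * a ^ 3 - 7 * a) + 5531575 ≠ 7 * (7 * b) := fun a b => by
    rw [← mul_assoc, show (7 * 7 : ZMod 49) = 0 from rfl, zero_mul]
    revert a
    decide
  exact hd _ _ h49

end Val

lemma pow_six (x : Gam 7 1) : x ^ 6 = 1 := by
  have h : ∀ a b : ZMod (7 ^ 1), a * b = 1 → a ^ 6 = 1 := by decide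
  exact Units.ext (h _ _ x.mul_inv)

/-- The quadratic character modulo `7`. -/
def sgn (x : Gam 7 1) : ℤ := if x ^ 3 = 1 then 1 else -1

lemma sgn_cast (x : Gam 7 1) : (sgn x : ZMod (7 ^ 1)) = (x ^ 3 : Gam 7 1) := by
  have h : ∀ a b : ZMod (7 ^ 1), a * b = 1 → a ^ 3 = 1 ∨ a ^ 3 = -1 := by decide
  unfold sgn
  split_ifs with h1
  · rw [h1]; rfl
  · exact ((h _ _ x.mul_inv).resolve_left fun h2 => h1 (Units.ext h2)).symm

lemma sgn_cases (x : Gam 7 1) : sgn x = 1 ∨ sgn x = -1 := by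
  unfold sgn
  split_ifs <;> simp

lemma sgn_mul (x y : Gam 7 1) : sgn (x * y) = sgn x * sgn y := by
  have h : (sgn (x * y) : ZMod (7 ^ 1)) = (sgn x * sgn y : ℤ) := by
    rw [Int.cast_mul, sgn_cast, sgn_cast, sgn_cast, mul_pow, Units.val_mul]
  rcases sgn_cases (x * y) with h1 | h1 <;> rcases sgn_cases x with h2 | h2 <;>
    rcases sgn_cases y with h3 | h3 <;> rw [h1, h2, h3] at h ⊢ <;>
    first | rfl | exact absurd h (by decide)

lemma ev_sg2 (j : ℤ) (γ c : Gam 7 1) :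
    evalN 7 j 1 (sg2 γ c) = (c * γ ^ (-j) : Gam 7 1) := evalN_single 7 j 1 γ c

lemma ev_TH {j : ℤ} (hj : j % 3 = 1) (i : Fin 2) : ∃ (k : Fin 2) (c : Gam 7 1),
    ∀ u : Fin 2 → Gam 7 1, evalN 7 j 1 (TH u i) = (c * u k ^ 3 : Gam 7 1) := by
  have h6 : ∀ x : Gam 7 1, (6 : ℤ) • ofMul x = 0 := fun x => congrArg ofMul (pow_six x)
  obtain ⟨r, rfl | rfl⟩ : ∃ r, j = 6 * r + 1 ∨ j = 6 * r + 4 := ⟨j / 6, by omega⟩
  · refine ⟨i, (-1) ^ (i : ℕ) * ((-1) ^ (i : ℕ)) ^ (-(6 * r + 1)), fun u => ?_⟩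
    rw [TH, ev_sg2]
    congr 1
    apply ofMul.injective
    simp only [ofMul_mul, ofMul_inv, ofMul_pow, ofMul_zpow]
    linear_combination (norm := module) r • h6 (u 0) + r • h6 (u 1) - h6 (u i)
  · refine ⟨i.rev, (-1) ^ (i : ℕ) * ((-1) ^ (i : ℕ)) ^ (-(6 * r + 4)), fun u => ?_⟩
    rw [TH, ev_sg2]
    congr 1
    apply ofMul.injective
    simp only [ofMul_mul, ofMul_inv, ofMul_pow, ofMul_zpow]
    fin_cases i
    · change _ = _ + 3 • ofMul (u 1)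
      change _ + -(3 • ofMul (u 0) + _) + _ = _
      linear_combination (norm := module) r • h6 (u 0) + r • h6 (u 1)
    · change _ = _ + 3 • ofMul (u 0)
      change _ + -(3 • ofMul (u 1) + _) + _ = _
      linear_combination (norm := module) r • h6 (u 0) + r • h6 (u 1)

variable {ρ : GQ →* GL (Fin 2) ℤ_[7]} {e : Fin 2 → GQ → ℤ_[7]ˣ}
  {S : ∀ n, (Fin 2 → Gam 7 n) → Qbˣ} {V : Pl} {δ : Fin 2 → (DG V →* ℤ_[7]ˣ)}

lemma Sys.split (h : Sys ρ e S) (hs : SplitsAs ρ V δ) (g : DG V) (i : Fin 2) :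
    Fix g ∧ δ i g = (e i g ^ 3)⁻¹ := by
  have hg : Fix g := by
    by_contra hg
    have h1 := h.rho g 0 1
    rw [hs g, if_pos (show 1 = sw g 0 from (if_neg hg).symm), Matrix.diagonal_apply_ne _ (by decide)]
      at h1
    exact Units.ne_zero _ h1.symm
  have h1 := h.rho g i i
  rw [hs g, if_pos (show i = sw g i from (if_pos hg).symm), Matrix.diagonal_apply_eq] at h1
  exact ⟨hg, Units.ext h1⟩

theorem Sys.exists_loc (h : Sys ρ e S) (hs : SplitsAs ρ V δ) (hV : Above V 7)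
    (hE : ∀ k, ∀ E : Qb, E = (∏ u, S 1 u ^ sgn (u k) : Qbˣ) →
      (E + E⁻¹) ^ 2 - 2515 * (E + E⁻¹) + 5531575 = 0) :
    ∃ z : Z1 (actG ρ), ∀ j : ℤ, j % 3 = 1 → ∀ i, ¬ ∃ v : ZMod 7, ∀ g : DG V,
      ev1 7 j (z.1 g i) = ev1 7 j (sc V (δ i) g) * v - v := by
  obtain ⟨z, m, w, κ, hκ, hz⟩ := h.exists_class
  refine ⟨z, fun j hj i ⟨v, hv⟩ => ?_⟩
  obtain ⟨k, c, hc⟩ := ev_TH hj i
  have e0 : ∀ x, e1 7 (ev1 7 j x) = evalN 7 j 1 (proj 7 1 x) := fun x => by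
    rw [← toZModPow_eval, ← e1_toZMod]; rfl
  let M : ZMod (7 ^ 1) := ((c⁻¹ : Gam 7 1) : ZMod (7 ^ 1)) * (e1 7 v + evalN 7 j 1 (m i))
  let Y : AU := ∑ u, sgn (u k) • ofMul (w u) - iot 7 1 M
  have hY : ∀ g : DG V, sgn (uN 1 (e k g)) • aU g Y = Y := fun g => by
    have hg := (h.split hs g i).1
    have hsw : ∀ i, sw g i = i := fun i => if_pos hg
    have h1 : proj 7 1 (sc V (δ i) g) = sg2 (chiN 7 1 g)⁻¹ (uN 1 (e i g) ^ 3)⁻¹ := by
      rw [sc, ext_coe, (h.split hs g i).2, map_mul, proj_grp, proj_cst,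
        MonoidAlgebra.single_mul_single, mul_one, one_mul, map_inv, ← map_pow, ← map_inv (uN 1)]
      rfl
    have h2 := congrArg (evalN 7 j 1) (h.TH_act 1 g 1 i)
    rw [map_mul, map_mul, hsw, hc, hc, ev_sg2, AA] at h2
    have h3 := congrArg (e1 7) (hv g)
    rw [map_sub, map_mul, e0, e0, hz, h1, h.actN_eq, hsw, map_sub, map_sub, map_mul, cc,
      map_sum] at h3
    simp only [map_mul, hc, evalN_single, one_zpow, Units.val_one, mul_one, Units.val_mul,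
      ← sgn_cast, Pi.one_apply, one_pow] at h2 h3
    have h4 : ∑ u, sgn (AA e 1 g u k) • κ g u =
        sgn (uN 1 (e k g)) • ((chiN 7 1 g : ZMod (7 ^ 1)) * M) - M := by
      have h5 := c.inv_mul
      simp only [zsmul_eq_mul, mul_assoc, ← mul_sum] at h3 ⊢
      generalize evalN 7 j 1 (sg2 _ _) = L at h2 h3
      linear_combination (c⁻¹ : Gam 7 1) * h3 - (c⁻¹ : Gam 7 1) * M * h2 -
        (∑ u, (sgn (AA e 1 g u k) : ZMod (7 ^ 1)) * κ g u +
          M * (L - chiN 7 1 g * sgn (uN 1 (e k g)))) * h5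
    have h6 := congrArg (iot 7 1) h4
    rw [map_sum, map_sub, map_zsmul, ← aU_iot] at h6
    simp only [map_zsmul, hκ.eq, zsmul_sub, sum_sub_distrib] at h6
    have h7 : ∑ u, sgn (AA e 1 g u k) • ofMul (w (AA e 1 g u)) = _ :=
      (h.AE 1 g).sum_comp fun u => sgn (u k) • ofMul (w u)
    have h8 : ∑ u, sgn (AA e 1 g u k) • ofMul (sU g (w u)) =
        sgn (uN 1 (e k g)) • aU g (∑ u, sgn (u k) • ofMul (w u)) := by
      rw [map_sum, ← sum_zsmul]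
      exact sum_congr rfl fun u _ => by rw [AA, sgn_mul, hsw, mul_smul, map_zsmul]; rfl
    rw [h8, h7] at h6
    unfold Y
    rw [map_sub, zsmul_sub]
    linear_combination (norm := abel) h6
  refine no_root hV Y.toMul (fun g hg => ?_) (hE k _ ?_)
  · have := hY ⟨g, hg⟩
    rcases sgn_cases (uN 1 (e k g)) with h1 | h1 <;> rw [h1] at this
    · rw [one_zsmul (aU g Y)] at this
      exact .inl this
    · rw [neg_one_zsmul (aU g Y), neg_eq_iff_eq_neg] at this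
      exact .inr this
  · rw [← Units.val_pow_eq_pow_val]
    congr 1
    apply ofMul.injective
    have h1 : (7 : ℕ) • iot 7 1 M = 0 := by
      rw [← map_nsmul, nsmul_eq_mul, show ((7 : ℕ) : ZMod (7 ^ 1)) = 0 from rfl, zero_mul, map_zero]
    rw [ofMul_pow, ofMul_toMul, nsmul_sub, h1, sub_zero, ofMul_prod, ← sum_nsmul]
    exact sum_congr rfl fun u _ => congrArg ofMul
      (show (w u ^ sgn (u k)) ^ 7 = _ by
        rw [← hκ.root, pow_one, ← zpow_natCast, ← zpow_natCast, zpow_comm])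

end Pool.Agent.MP_59efd2_nt.lz.UB
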