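import Pool.Agent.MP_59efd2_nt.ub.Rng

/-!
# The local components on the self-dual branches
-/

noncomputable section

namespace Pool.Agent.MP_59efd2_nt.lz.UB

open scoped Pointwise Classical
open Finset CM CM.ChrP

lemma exp7 {R : Type} [CommRing R] (d : R) : ∃ q, (1 + d) ^ 7 - 1 = d ^ 7 + 7 * d * q :=
  ⟨1 + 3 * d + 5 * d ^ 2 + 5 * d ^ 3 + 3 * d ^ 4 + d ^ 5, by ring⟩

lemma exp9 {R : Type} [CommRing R] (d : R) : ∃ q, (1 + d) ^ 9 - 1 = d * ((9 : ℤ) + d * q) :=
  ⟨36 + 84 * d + 126 * d ^ 2 + 126 * d ^ 3 + 84 * d ^ 4 + 36 * d ^ 5 + 9 * d ^ 6 + d ^ 7, by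
    push_cast; ring⟩

section Val

variable {V : Pl}

lemma le1 {x : Qb} (h : x ∈ V) : V.valuation x ≤ 1 := (V.valuation_le_one_iff x).2 h

lemma mem_lt {x : Qb} (h : V.valuation x < 1) : x ∈ V := (V.valuation_le_one_iff x).1 h.le

lemma mul_lt1 {x y : Qb} (h : V.valuation x < 1) (hy : y ∈ V) : V.valuation (x * y) < 1 := by
  rw [map_mul]
  exact mul_lt_one_of_lt_of_le h (le1 hy)

lemma v70 : 0 < V.valuation 7 := zero_lt_iff.2 ((map_ne_zero _).2 (by norm_num))

variable (hV : Above V 7)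
include hV

lemma v71 : V.valuation 7 < 1 := hV

lemma unit_add {x : Qb} (n : ℤ) (hn : ¬ 7 ∣ n) (h : V.valuation x < 1) :
    V.valuation (n + x) = 1 := by
  have h1 := (val.int V 7 (by norm_num) hV n).2 hn
  rw [V.valuation.map_add_eq_of_lt_left (by rwa [h1]), h1]

lemma valH (φ : DG V →* Gam 7 1) {y : Qb} (hy : ∀ g : DG V, φ g = 1 → (g : GQ) y = y)
    (h : V.valuation y < 1) : V.valuation y ^ 6 ≤ V.valuation 7 := by
  by_cases h0 : y = 0
  · simp [h0]
  choose σ hσ using fun x : φ.range => x.2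
  have h1 : ∀ g k : DG V, φ g = φ k → (g : GQ) y = (k : GQ) y := fun g k e => by
    have := hy (k⁻¹ * g) (by rw [map_mul, map_inv, e, inv_mul_cancel])
    conv_rhs => rw [← this]
    rw [← AlgEquiv.mul_apply, ← Subgroup.coe_mul, mul_inv_cancel_left]
  obtain ⟨j, hj⟩ := hDens.baseVal V 7 (by norm_num) hV
    (Units.mk0 (∏ x : φ.range, (σ x : GQ) y) (prod_ne_zero_iff.2 fun x _ => by simpa using h0))
    fun g hg => by
      change g (∏ x : φ.range, (σ x : GQ) y) = ∏ x : φ.range, (σ x : GQ) y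
      rw [map_prod, ← Equiv.prod_comp (Equiv.mulLeft (φ.rangeRestrict ⟨g, hg⟩))
        fun x => (σ x : GQ) y]
      exact prod_congr rfl fun x _ => h1 (⟨g, hg⟩ * σ x) (σ (φ.rangeRestrict ⟨g, hg⟩ * x))
        (by rw [map_mul, hσ, hσ]; rfl)
  change V.valuation (∏ x : φ.range, (σ x : GQ) y) = V.valuation 7 ^ j at hj
  rw [map_prod, prod_congr rfl fun x _ => val.inv V _ (σ x).2 y, prod_const, card_univ] at hj
  have h2 : Fintype.card φ.range ≤ 6 := (Fintype.card_subtype_le _).trans (by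
    rw [ZMod.card_units_eq_totient]; decide)
  have h3 : 1 ≤ j := (zpow_lt_one_iff_right_of_lt_one₀ v70 (v71 hV)).1
    (hj ▸ pow_lt_one₀ zero_le h Fintype.card_ne_zero)
  refine (pow_le_pow_of_le_one zero_le h.le h2).trans (hj ▸ ?_)
  simpa using zpow_le_zpow_right_of_le_one₀ v70 (v71 hV).le h3

lemma pow7 {y : Qb} {k : ℕ} (h : V.valuation (y - 1) ^ 6 ≤ V.valuation 7 ^ (k + 1)) :
    V.valuation (y ^ 7 - 1) ^ 6 ≤ V.valuation 7 ^ (k + 7) := by
  obtain ⟨d, rfl⟩ : ∃ d, y = 1 + d := ⟨y - 1, by ring⟩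
  rw [add_sub_cancel_left] at h
  have h1 : d ∈ V := (V.valuation_le_one_iff d).1 ((pow_le_one_iff (by norm_num)).1
    (h.trans (pow_le_one₀ zero_le (v71 hV).le)))
  obtain ⟨q, hq⟩ : ∃ q : V, (1 + d) ^ 7 - 1 = d ^ 7 + 7 * d * q := by
    obtain ⟨q, hq⟩ := exp7 (⟨d, h1⟩ : V)
    have h3 := congrArg V.subtype hq
    simp only [map_add, map_sub, map_mul, map_pow, map_ofNat, map_one] at h3
    exact ⟨q, h3⟩
  rw [hq]
  rcases le_max_iff.1 (V.valuation.map_add (d ^ 7) (7 * d * q)) with h2 | h2 <;>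
    refine (pow_le_pow_left₀ zero_le h2 6).trans ?_
  · rw [map_pow, ← pow_mul, mul_comm, pow_mul]
    refine (pow_le_pow_left₀ zero_le h 7).trans ?_
    rw [← pow_mul]
    exact pow_le_pow_of_le_one zero_le (v71 hV).le (by omega)
  · rw [map_mul, map_mul, mul_pow, mul_pow, show k + 7 = 6 + (k + 1) by ring, pow_add]
    exact (mul_le_of_le_one_right zero_le (pow_le_one₀ zero_le (le1 q.2))).trans
      (mul_le_mul_right h _)

lemma root7 {y : Qb} (h : V.valuation (y ^ 7 - 1) < 1) : V.valuation (y - 1) < 1 := by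
  have h1 : y ∈ V := mem_of_pow (by simpa using V.add_mem _ _ (mem_lt h) V.one_mem)
  have h2 : (y - 1) ^ 7 = y ^ 7 - 1 + 7 * (y * (1 - y) * (1 - y + y ^ 2) ^ 2) := by ring
  refine lt_of_pow_lt_pow_left₀ 7 zero_le ?_
  rw [← map_pow, h2, one_pow]
  exact V.valuation.map_add_lt h (mul_lt1 (v71 hV) (mul_mem (mul_mem h1 (sub_mem (one_mem _) h1))
    (pow_mem (add_mem (sub_mem (one_mem _) h1) (pow_mem h1 2)) 2)))

lemma final (φ : DG V →* Gam 7 1) (n : ℕ) {y a b : Qb}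
    (hy : ∀ g : DG V, φ g = 1 → (g : GQ) y = y) (h : y ^ 7 ^ n * b ^ 9 = a ^ 9)
    (hb : V.valuation b = 1) (hab : V.valuation (a - b) < 1) :
    V.valuation (a - b) ^ 6 ≤ V.valuation 7 ^ (6 * n + 1) := by
  have b0 : b ≠ 0 := fun h0 => by simp [h0] at hb
  obtain ⟨d, rfl⟩ : ∃ d, a = b * (1 + d) := ⟨a / b - 1, by field_simp; ring⟩
  have h1 : V.valuation (b * (1 + d) - b) = V.valuation d := by
    rw [show b * (1 + d) - b = b * d by ring, map_mul, hb, one_mul]
  rw [h1] at hab ⊢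
  rw [mul_pow, mul_comm, mul_right_inj' (pow_ne_zero 9 b0)] at h
  have h2 : V.valuation (y ^ 7 ^ n - 1) = V.valuation d := by
    obtain ⟨q, hq⟩ : ∃ q : V, (1 + d) ^ 9 - 1 = d * ((9 : ℤ) + d * q) := by
      obtain ⟨q, hq⟩ := exp9 (⟨d, mem_lt hab⟩ : V)
      have h3 := congrArg V.subtype hq
      simp only [map_add, map_sub, map_mul, map_pow, map_intCast, map_one] at h3
      exact ⟨q, h3⟩
    rw [h, hq, map_mul, unit_add hV 9 (by norm_num) (mul_lt1 hab q.2), mul_one]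
  have h3 : ∀ n, V.valuation (y ^ 7 ^ n - 1) < 1 → V.valuation (y - 1) < 1 := fun n => by
    induction n with
    | zero => simp
    | succ n ih => exact fun h => ih (root7 hV (by rwa [← pow_mul, ← pow_succ]))
  have h4 := valH hV φ (y := y - 1) (fun g hg => by rw [map_sub, hy g hg, map_one])
    (h3 n (h2 ▸ hab))
  rw [← h2]
  clear h h2
  induction n with
  | zero => simpa using h4
  | succ n ih => rw [pow_succ 7, pow_mul]; exact pow7 hV ih

variable (hπ : V.valuation (1 + 3 * zq) < 1)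
include hπ

omit hV in
lemma vpi : V.valuation (2 + 3 * zq) = 1 ∧ V.valuation (1 + 3 * zq) = V.valuation 7 := by
  have h1 : V.valuation (2 + 3 * zq) = 1 := by
    rw [← V.valuation.map_one_add_of_lt hπ]; congr 1; ring
  refine ⟨h1, ?_⟩
  rw [show (7 : Qb) = -((1 + 3 * zq) * (2 + 3 * zq)) by linear_combination 9 * zq_eq,
    Valuation.map_neg, map_mul, h1, mul_one]

omit hV hπ in
lemma zq_mem : zq ∈ V := Cyc.mem_root (m := 3) (by norm_num) zq_cube

omit hV hπ in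
lemma unit_e {c e : Qb} (hc : c ∈ V) (h : (e - 1) ^ 2 = c * e) : V.valuation e = 1 := by
  have e0 : e ≠ 0 := fun h0 => by simp [h0] at h
  have h1 : e + e⁻¹ ∈ V := by
    rw [show e + e⁻¹ = c + (2 : ℕ) by field_simp; push_cast; linear_combination h]
    exact add_mem hc (natCast_mem V 2)
  have h2 := le1 (mem_of_add_inv (x := e⁻¹) (by rwa [inv_inv, add_comm]))
  rw [map_inv₀, inv_le_one₀ (zero_lt_iff.2 ((map_ne_zero _).2 e0))] at h2
  exact le_antisymm (le1 (mem_of_add_inv h1)) h2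

lemma alpha (φ : DG V →* Gam 7 1) {y e z : Qb} (hy : ∀ g : DG V, φ g = 1 → (g : GQ) y = y)
    (he : (e - 1) ^ 2 = (2 + 3 * zq) * e) (hz : z ^ 3 = -(1 + 3 * zq) * (e * (e - 1)))
    (h : y ^ 7 ^ 1 * A2 zq e z ^ 9 = A1 zq e z ^ 9) : False := by
  obtain ⟨p1, p2⟩ := vpi hπ
  have e1 := unit_e ((V.valuation_le_one_iff _).1 p1.le) he
  have e2 : V.valuation (e - 1) = 1 := (pow_eq_one_iff_of_nonneg zero_le two_ne_zero).1 (by
    rw [← map_pow, he, map_mul, p1, e1, mul_one])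
  have e3 : V.valuation (1 + e) = 1 := (pow_eq_one_iff_of_nonneg zero_le two_ne_zero).1 (by
    rw [← map_pow, show (1 + e) ^ 2 = ((5 : ℤ) + (1 + 3 * zq)) * e by
      push_cast; linear_combination he, map_mul, e1, unit_add hV 5 (by norm_num) hπ, mul_one])
  have e4 : V.valuation (1 + 2 * zq ^ 2 - 3 * zq) = 1 := by
    have h1 := unit_add hV 2 (by norm_num) (mul_lt1 hπ (intCast_mem V (-5)))
    rw [show ((2 : ℤ) : Qb) + (1 + 3 * zq) * (-5 : ℤ) = (3 : ℤ) * (1 + 2 * zq ^ 2 - 3 * zq) by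
      push_cast; linear_combination -6 * zq_eq, map_mul,
      (val.int V 7 (by norm_num) hV 3).2 (by norm_num), one_mul] at h1
    exact h1
  have z1 : V.valuation z ^ 3 = V.valuation 7 := by
    rw [← map_pow, hz, map_mul, map_mul, Valuation.map_neg, p2, e1, e2, mul_one, mul_one]
  have z2 : V.valuation z < 1 :=
    lt_of_pow_lt_pow_left₀ 3 zero_le (by rw [z1, one_pow]; exact v71 hV)
  obtain ⟨q, q', h1, h2⟩ := alpha_eq (R := V) ⟨zq, zq_mem⟩
    ⟨e, (V.valuation_le_one_iff _).1 e1.le⟩ ⟨z, mem_lt z2⟩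
  have h3 : A1 zq e z - A2 zq e z = z * (e ^ 2 * (1 + e) * (1 + 2 * zq ^ 2 - 3 * zq) + z * q) := by
    have := congrArg V.subtype h1
    simp only [A1, A2, map_add, map_sub, map_mul, map_pow, map_ofNat, map_one] at this
    exact this
  have h4 : A2 zq e z = e ^ 3 + z * q' := by simpa [A2] using congrArg V.subtype h2
  have h5 : V.valuation (A1 zq e z - A2 zq e z) = V.valuation z := by
    have : V.valuation (e ^ 2 * (1 + e) * (1 + 2 * zq ^ 2 - 3 * zq)) = 1 := by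
      rw [map_mul, map_mul, map_pow, e1, e3, e4]; simp
    rw [h3, map_mul, V.valuation.map_add_eq_of_lt_left (this ▸ mul_lt1 z2 q.2), this, mul_one]
  have h6 := final hV φ 1 hy h (by
    have : V.valuation (e ^ 3) = 1 := by rw [map_pow, e1, one_pow]
    rw [h4, V.valuation.map_add_eq_of_lt_left (this ▸ mul_lt1 z2 q'.2), this]) (h5 ▸ z2)
  rw [h5, show V.valuation z ^ 6 = V.valuation 7 ^ 2 by rw [← z1, ← pow_mul]] at h6
  exact h6.not_gt (pow_lt_pow_right_of_lt_one₀ v70 (v71 hV) (by norm_num))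

lemma beta (φ : DG V →* Gam 7 1) {y e z : Qb} (hy : ∀ g : DG V, φ g = 1 → (g : GQ) y = y)
    (he : (e - 1) ^ 2 = -(1 + 3 * zq) * e) (hz : z ^ 3 = (2 + 3 * zq) * (e * (e - 1)))
    (h : y ^ 7 ^ 2 * B2' zq e z ^ 9 = B1 zq e z ^ 9) : False := by
  obtain ⟨p1, p2⟩ := vpi hπ
  have e1 := unit_e (neg_mem (mem_lt hπ)) he
  have e2 : e ∈ V := (V.valuation_le_one_iff _).1 e1.le
  have z0 : z ∈ V := (V.valuation_le_one_iff _).1 ((pow_le_one_iff three_ne_zero).1 (by
    rw [← map_pow, hz, map_mul, p1, one_mul]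
    exact le1 (mul_mem e2 (sub_mem e2 (one_mem _)))))
  have p0 : 2 + 3 * zq ≠ 0 := fun h0 => by simp [h0] at p1
  let w' : V := ⟨zq, zq_mem⟩
  let e' : V := ⟨e, e2⟩
  let z' : V := ⟨z, z0⟩
  let u' : V := ⟨-(2 + 3 * zq)⁻¹, (V.valuation_le_one_iff _).1 (by simp [p1])⟩
  let f := Ideal.Quotient.mk (Ideal.span {(49 : V)})
  have hf : ∀ {a b : V}, V.subtype a = V.subtype b → f a = f b := fun h =>
    congrArg f (V.subtype_injective h)
  have hf' : ∀ {a b : V}, f a = f b → ∃ q ∈ V, V.subtype a = V.subtype b + 49 * q := fun h => by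
    obtain ⟨q, hq⟩ := Ideal.mem_span_singleton.1 (Ideal.Quotient.eq.1 h)
    have := congrArg V.subtype hq
    simp only [map_sub, map_mul, map_ofNat] at this
    exact ⟨q, q.2, sub_eq_iff_eq_add'.1 this⟩
  obtain ⟨h1, h2, h3⟩ := beta_eq (z := f z') (w := f w') (e := f e') (u := f u')
    (by simpa [map_ofNat] using
      (Ideal.Quotient.eq_zero_iff_mem.2 (Ideal.mem_span_singleton_self _) : f 49 = 0))
    (by simpa using hf (a := w' * w') (b := -1 - w') zq_eq)
    (by simpa [map_ofNat] using hf (a := (-2 - 3 * w') * u') (b := 1) (by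
      change (-2 - 3 * zq) * -(2 + 3 * zq)⁻¹ = 1
      field_simp
      ring))
    (by simpa only [map_ofNat, sq, map_sub, map_one, map_mul, map_neg, map_add] using
      hf (a := (e' - 1) * (e' - 1)) (b := -(1 + 3 * w') * e') ((sq _).symm.trans he))
    (by simpa only [map_ofNat, pow_three, map_sub, map_one, map_mul, map_neg, map_add] using
      hf (a := z' * (z' * z')) (b := (2 + 3 * w') * (e' * (e' - 1))) ((pow_three _).symm.trans hz))
  obtain ⟨q1, m1, k1⟩ := hf' (a := z' ^ 6) (b := 7 + 21 * z' ^ 3) (by simpa [map_ofNat] using h1)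
  obtain ⟨q2, m2, k2⟩ := hf' (a := B1 w' e' z' - B2' w' e' z') (b := 28 * z' ^ 5)
    (by simpa [map_ofNat, B1, B2'] using h2)
  obtain ⟨q3, m3, k3⟩ := hf' (a := B2' w' e' z')
    (b := 8 + z' * (38 * z' + 19 * z' ^ 2 + 7 * z' ^ 3 + 26 * z' ^ 4))
    (by simpa [map_ofNat, B2'] using h3)
  change z ^ 6 = 7 + 21 * z ^ 3 + 49 * q1 at k1
  change B1 zq e z - B2' zq e z = 28 * z ^ 5 + 49 * q2 at k2
  change B2' zq e z = 8 + z * (38 * z' + 19 * z' ^ 2 + 7 * z' ^ 3 + 26 * z' ^ 4 : V) + 49 * q3 at k3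
  have n3 : (3 : Qb) ∈ V := natCast_mem V 3
  have n7 : (7 : Qb) ∈ V := natCast_mem V 7
  have k4 : z ^ 6 = 7 * (1 + (z * (3 * z ^ 2) + 7 * q1)) := by rw [k1]; ring
  have z2 : V.valuation z < 1 := lt_of_pow_lt_pow_left₀ 6 zero_le (by
    rw [← map_pow, k4, one_pow]
    exact mul_lt1 (v71 hV) (add_mem (one_mem _)
      (add_mem (mul_mem z0 (mul_mem n3 (pow_mem z0 2))) (mul_mem n7 m1))))
  have z1 : V.valuation z ^ 6 = V.valuation 7 := by
    rw [← map_pow, k4, map_mul, V.valuation.map_one_add_of_lt (V.valuation.map_add_lt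
      (mul_lt1 z2 (mul_mem n3 (pow_mem z0 2))) (mul_lt1 (v71 hV) m1)), mul_one]
  have z3 : 0 < V.valuation z := zero_lt_iff.2 fun h0 => by
    rw [h0, zero_pow (by norm_num)] at z1
    exact v70.ne z1
  have h5 : V.valuation (B1 zq e z - B2' zq e z) = V.valuation 7 * V.valuation z ^ 5 := by
    have : V.valuation ((4 : ℤ) * z ^ 5) = V.valuation z ^ 5 := by
      rw [map_mul, (val.int V 7 (by norm_num) hV 4).2 (by norm_num), one_mul, map_pow]
    rw [k2, show 28 * z ^ 5 + 49 * q2 = 7 * ((4 : ℤ) * z ^ 5 + 7 * q2) by push_cast; ring, map_mul,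
      V.valuation.map_add_eq_of_lt_left, this]
    rw [this, map_mul, ← z1]
    exact (mul_le_of_le_one_right zero_le (le1 m2)).trans_lt
      (pow_lt_pow_right_of_lt_one₀ z3 z2 (by norm_num))
  have h6 := final hV φ 2 hy h (by
    rw [k3, add_assoc, show (49 : Qb) * q3 = 7 * (7 * q3) by ring]
    exact unit_add hV 8 (by norm_num) (V.valuation.map_add_lt (mul_lt1 z2 (Subtype.prop _))
      (mul_lt1 (v71 hV) (mul_mem n7 m3))))
    (h5 ▸ mul_lt_one_of_lt_of_le (v71 hV) (pow_le_one₀ zero_le z2.le))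
  rw [h5, mul_pow, ← pow_mul, mul_comm 5, pow_mul, z1, ← pow_add] at h6
  exact h6.not_gt (pow_lt_pow_right_of_lt_one₀ v70 (v71 hV) (by norm_num))

end Val

end Pool.Agent.MP_59efd2_nt.lz.UB
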