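import Pool.Agent.MP_59efd2_nt.ub.Loc2

/-!
# The self-dual branches away from the centre
-/

noncomputable section

namespace Pool.Agent.MP_59efd2_nt.lz.UB

open scoped Pointwise Classical
open Finset CM CM.ChrP

/-- The least absolute residue modulo `7`. -/
def la (x : Gam 7 1) : ℤ := (x : ZMod (7 ^ 1)).valMinAbs

/-- The least absolute residue modulo `49` of the seventh power. -/
def lb (x : Gam 7 1) : ℤ := Int.bmod ((x : ZMod (7 ^ 1)).val ^ 7) 49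

lemma lb_cast (x : Gam 7 2) : (lb (rd 1 x) : ZMod (7 ^ 2)) = (x ^ 7 : Gam 7 2) := by
  have h : ∀ x : ZMod (7 ^ 2), (Int.bmod ((red 7 1 x).val ^ 7) 49 : ZMod (7 ^ 2)) = x ^ 7 := by
    decide
  exact h x

variable {ρ : GQ →* GL (Fin 2) ℤ_[7]} {e : Fin 2 → GQ → ℤ_[7]ˣ}
  {S : ∀ n, (Fin 2 → Gam 7 n) → Qbˣ} {V : Pl} {δ : Fin 2 → (DG V →* ℤ_[7]ˣ)}

/-- The local character of weights `a`, `b` modulo `7`. -/
def Sys.phi (h : Sys ρ e S) (hs : SplitsAs ρ V δ) (a b : ℤ) : DG V →* Gam 7 1 :=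
  MonoidHom.mk' (fun g => WW a b fun i => uN 1 (e i g)) fun g k => by
    rw [← WW_AA (h.split hs g 0).1]
    congr 1
    funext i
    rw [Subgroup.coe_mul, h.mul, map_mul]
    rfl

lemma Sys.phi_AA (h : Sys ρ e S) (hs : SplitsAs ρ V δ) {a b : ℤ} {g : DG V}
    (hg : h.phi hs a b g = 1) (u : Fin 2 → Gam 7 1) : WW a b (AA e 1 g u) = WW a b u := by
  have h1 : (WW a b fun i => uN 1 (e i g)) = 1 := hg
  rw [WW_AA (h.split hs g 0).1, h1, one_mul]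

lemma Sys.collapse (h : Sys ρ e S) (n : ℕ) (l : (Fin 2 → Gam 7 (n + 1)) → ℤ) :
    ∏ u, S (n + 2) u ^ l (fun i => rd (n + 1) (u i)) = ∏ v, S (n + 1) v ^ l v := by
  rw [← prod_fiberwise univ fun u i => rd (n + 1) (u i)]
  refine prod_congr rfl fun v _ => ?_
  rw [← h.dist n v, ← prod_zpow]
  exact prod_congr rfl fun u hu => by rw [(mem_filter.1 hu).2]

theorem Sys.dual (h : Sys ρ e S) (hρ : Continuous ρ)
    (hdet : ∀ g, Matrix.GeneralLinearGroup.det (ρ g) = chi 7 g ^ (1 - 2 * 2 : ℤ))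
    (hV : Above V 7) (hs : SplitsAs ρ V δ) {β : ℤ_[7]} (hβ : UnramWith V (δ 1) β)
    (hβ1 : ¬ (7 : ℤ_[7]) ∣ β - 1) (hπ : V.valuation (1 + 3 * zq) < 1)
    (hA : ∃ x z : Qb, (x - 1) ^ 2 = (2 + 3 * zq) * x ∧ z ^ 3 = -(1 + 3 * zq) * (x * (x - 1)) ∧
      (∏ u, S 1 u ^ la (WW 4 1 u) : Qbˣ) * A2 zq x z ^ 9 = A1 zq x z ^ 9)
    (hB : ∃ x z : Qb, (x - 1) ^ 2 = -(1 + 3 * zq) * x ∧ z ^ 3 = (2 + 3 * zq) * (x * (x - 1)) ∧
      (∏ u, S 1 u ^ lb (WW 1 4 u) : Qbˣ) * B2' zq x z ^ 9 = B1 zq x z ^ 9)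
    {j : ℤ} (hj : j % 3 = 2) (hj2 : j ≠ 2) (T : Set ℕ) : IwRegular hs T j := by
  obtain ⟨z, hz⟩ := h.exists_class2
  obtain ⟨g₀, hg₀, g1, g2, -⟩ :=
    (FinalP.setup hCont val hUnr hNd hLift (by norm_num) 2 hρ hdet hV hs hβ (by simpa using hβ1)).2.2.1
  have a1 : ∀ (c : Fin 2) (t : ℤ), ¬ Cb δ z c (2 + 3 * c + 6 * t) 7 := fun c t hc => by
    obtain ⟨m, w, κ, hκ, hm⟩ := hz 0
    obtain ⟨x, y, h1, h2, h3⟩ := hA
    have h4 := h.nn hs hm (by rwa [zero_add, pow_one])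
    obtain ⟨a, b, h5⟩ : ∃ a b : ℤ, NN e κ (6 * a + 4) (6 * b + 1) V := by
      fin_cases c
      · exact ⟨t - 1, t, by convert h4 using 1 <;> simp <;> ring⟩
      · exact ⟨t, t, by convert h4 using 1 <;> simp <;> ring⟩
    have h6 : ∀ u : Fin 2 → Gam 7 1, WW (6 * a + 4) (6 * b + 1) u = WW 4 1 u := fun u => by
      have : ∀ x : Gam 7 1, x ^ (6 : ℤ) = 1 := pow_six
      simp only [WW, zpow_add, zpow_mul, this, one_zpow, one_mul]
    obtain ⟨Y, y1, y2⟩ := h.eigen hs hκ h5 (h.unit hs (g := ⟨g₀, hg₀⟩) g1 g2 _ (by omega))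
      (fun u => la (WW 4 1 u)) fun u => by rw [h6, la, ZMod.coe_valMinAbs]
    exact alpha hV hπ (h.phi hs 4 1) (y := Y) (fun g hg => congrArg Units.val
      (y2 g fun u => congrArg la (h.phi_AA hs hg u))) h1 h2 (by rw [← h3, ← y1]; rfl)
  have a2 : ∀ (c : Fin 2) (t : ℤ), (∀ t, Cb δ z c (5 - 3 * c + 6 * t) (7 ^ 2)) →
      ¬ Cb δ z c.rev (2 + 3 * c + 6 * t) (7 ^ 2) := fun c t k1 k2 => by
    obtain ⟨m, w, κ, hκ, hm⟩ := hz 1
    obtain ⟨x, y, h1, h2, h3⟩ := hB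
    have h5 : NN e κ 7 28 V := nn_aff (c := c) (by omega) t
      (fun t => by convert h.nn hs hm (k1 t) using 1 <;> fin_cases c <;> simp <;> ring)
      (by convert h.nn hs hm k2 using 1 <;> fin_cases c <;> simp <;> ring)
    obtain ⟨Y, y1, y2⟩ := h.eigen hs hκ h5 (h.unit hs (g := ⟨g₀, hg₀⟩) g1 g2 _ (by norm_num))
      (fun u => lb (WW 1 4 fun i => rd 1 (u i))) fun u => by
        rw [show (WW 1 4 fun i => rd 1 (u i)) = rd 1 (WW 1 4 u) by simp [WW], lb_cast, WW, WW,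
          mul_pow, ← zpow_natCast, ← zpow_natCast, ← zpow_mul, ← zpow_mul]
        rfl
    refine beta hV hπ (h.phi hs 1 4) (y := Y) (fun g hg => congrArg Units.val (y2 g fun u => ?_))
      h1 h2 ?_
    · rw [Sys.rd_AA, h.phi_AA hs hg]
    · rw [← h3, ← Units.val_pow_eq_pow_val, y1.trans (h.collapse 0 fun u => lb (WW 1 4 u))]
  have a3 : ∀ {i j n}, Cb δ z i j (7 ^ (n + 1)) → Cb δ z i j 7 := fun k g g' =>
    (dvd_pow_self _ (Nat.succ_ne_zero _)).trans (k g g')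
  have a4 : ∀ {i j}, Cb δ z i j 0 → Cb δ z i j 7 := fun k g g' => (dvd_zero _).trans (k g g')
  obtain ⟨c, t, rfl⟩ : ∃ (c : Fin 2) (t : ℤ), j = 5 - 3 * c + 6 * t := by
    by_cases h6 : j % 6 = 5
    · exact ⟨0, j / 6, by simp; omega⟩
    · exact ⟨1, j / 6, by simp; omega⟩
  have a5 : ¬ Cb δ z c.rev (5 - 3 * c + 6 * t) 0 := fun k =>
    a1 c.rev t (by convert a4 k using 1; fin_cases c <;> simp)
  refine gen2 (by norm_num) 2 hρ hdet hV hs hβ (by simpa using hβ1) z hj2 (fun F i ⟨k1, k2⟩ => ?_)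
    (by fin_cases c; exacts [.inr a5, .inl a5]) T
  obtain rfl : i = c := by
    by_contra hi
    exact a5 (by convert k1; fin_cases c <;> fin_cases i <;> simp_all)
  obtain ⟨t', i', k3 : Cb δ z i' (2 + 3 * i + 6 * t') (7 ^ 2)⟩ :=
    F (2 + 3 * i) 2 ⟨i, by push_cast; ring⟩
  obtain rfl : i' = i.rev := by
    by_contra hi
    exact a1 i t' (by convert a3 (n := 1) k3; fin_cases i <;> fin_cases i' <;> simp_all)
  refine a2 i t' (fun t'' g g' => ?_) k3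
  rw [show 5 - 3 * i + 6 * t'' = 5 - 3 * i + 6 * t + ((7 : ℕ) - 1 : ℤ) * (t'' - t) by
    push_cast; ring]
  refine two_zero (p := 7) (by norm_num) (c := i - 1 - 2 * t) (by omega)
    (zero_dvd_iff.1 (k1 g g')) ?_ _
  rw [← zero_dvd_iff.1 (k2 g g')]
  congr 2
  push_cast
  ring

end Pool.Agent.MP_59efd2_nt.lz.UB
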