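import Pool.Agent.MP_59efd2_nt.lz.Main
import Pool.Agent.MP_59efd2_nt.StmtPos

/-!
# The local pairing at all characters
-/

noncomputable section

namespace Pool.Agent.MP_59efd2_nt.lz.UB

open scoped Pointwise Classical
open Finset FinalP

variable {p : ℕ} [hp : Fact p.Prime]

lemma evalN_starN' (m j : ℤ) (n : ℕ) (x : LamN p n) :
    evalN p j n (starN p m n x) = evalN p (2 * m - j) n x := by
  induction x using MonoidAlgebra.induction_linear with
  | zero => simp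
  | add a b ha hb => simp only [map_add, ha, hb]
  | single γ c =>
    rw [starN_single, evalN_single, evalN_single, mul_assoc, ← Units.val_mul, inv_zpow',
      ← zpow_add]
    congr 3
    ring

lemma eval_star' (m j : ℤ) (x : Lam p) : eval p j (star p m x) = eval p (2 * m - j) x :=
  PadicInt.ext_of_toZModPow.1 fun n => by
    rw [toZModPow_eval, toZModPow_eval, proj_star, evalN_starN']

lemma ev1_star' (m j : ℤ) (x : Lam p) : ev1 p j (star p m x) = ev1 p (2 * m - j) x := by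
  rw [ev1, ev1, RingHom.comp_apply, RingHom.comp_apply, eval_star']

lemma evalE_starE' (m j : ℤ) (x : LamE p) :
    evalE p j (starE p m x) = evalE p (2 * m - j) x := by
  have : (evalE p j).comp (starE p m) = evalE p (2 * m - j) :=
    IsLocalization.ringHom_ext (Submonoid.powers (p : Lam p)) (RingHom.ext fun y => by
      simp only [RingHom.comp_apply, starE_alg, evalE_alg, eval_star'])
  exact RingHom.congr_fun this x

open InvP in
/-- The local invariant detects non-trivial classes at every character. -/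
theorem inv' (V : Pl) (m : ℤ) (F₀ : GQ → GQ → Lam p) (hV : V ≠ ⊤) (hF₀ : ZZ p (DG V) F₀)
    (hn : ¬ B2 (DG V) aU fun g h => iot1 p (ev1 p m (F₀ g h))) :
    ∃ Inv : (GQ → GQ → Lam p) → Lam p,
      (∀ F F', ZZ p (DG V) F → ZZ p (DG V) F' → Inv (F + F') = Inv F + Inv F') ∧
      (∀ l F, ZZ p (DG V) F → Inv (fun g h => l * F g h) = l * Inv F) ∧
      (∀ F, ZZ p (DG V) F → Inv (fun g h => star p m (F g h)) = star p m (Inv F)) ∧
      (∀ F, ZZ p (DG V) F → TrivBr p (DG V) F → Inv F = 0) ∧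
      (∀ F, BB p (DG V) F → TrivBr p (DG V) F) ∧
      ∀ j F, ZZ p (DG V) F → (¬ B2 (DG V) aU fun g h => iot1 p (ev1 p j (F g h))) →
        ev1 p j (Inv F) ≠ 0 := by
  obtain ⟨A, _, π, hπ⟩ := exists_br (DG V)
  have h0 : ∀ (j : ℤ) (F : GQ → GQ → Lam p),
      (¬ B2 (DG V) aU fun g h => iot1 p (ev1 p j (F g h))) →
      cl π (evalN p j 1).toAddMonoidHom F ≠ 0 := fun j F hn h => hn
    (((hπ _).1 h).congr fun g _ k _ => by
      change iot p 1 (e1 p (PadicInt.toZMod _)) = _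
      rw [e1_toZMod, toZModPow_eval]
      rfl)
  have h1 := h0 m F₀ hn
  obtain ⟨θ, hi, hs, hr⟩ := exists_theta p ((Z2G (DG V) aU).map π)
    (fun n => cl π (evalN p m n).toAddMonoidHom F₀) (fun n => cl_mem hF₀ _)
    ((one_smul ℕ _).symm.trans (cl_tor (n := 0) (evalN p m 0).toAddMonoidHom))
    (fun n => cl_succ (red_evalN p m n)) h1 (by
      rintro _ ⟨f, hf, rfl⟩ h
      obtain ⟨f₀, h2, h3⟩ := cl_mem (π := π) hF₀ (evalN p m 1).toAddMonoidHom
      have h4 := cl_tor (F := F₀) (π := π) (evalN p m 1).toAddMonoidHom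
      rw [← h3] at h1 h4 ⊢
      rw [pow_one] at h4
      rw [← map_nsmul] at h h4
      obtain ⟨j, hj⟩ := hLb.cyc1 V _ p f₀ f hV (OpenIn.refl _) Fact.out h2 hf
        ((hπ _).1 h4) ((hπ _).1 h) fun h5 => h1 ((hπ _).2 h5)
      refine ⟨j, ?_⟩
      rw [← map_nsmul, ← sub_eq_zero, ← map_sub]
      exact (hπ _).2 hj)
  have uq : ∀ n (x y : LamN p n), (∀ φ : LamN p n →+ ZMod (p ^ n), θ n (φ x) = θ n (φ y)) →
      x = y := fun n x y h => MonoidAlgebra.ext (Finsupp.ext fun γ => hi n (h (co γ)))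
  have ex : ∀ F, ZZ p (DG V) F → ∀ n, ∃ x : LamN p n,
      ∀ φ : LamN p n →+ ZMod (p ^ n), θ n (φ x) = cl π φ F := fun F hF n => by
    choose t ht using fun γ : Gam p n => hs n _ (cl_mem hF (co γ)) (cl_tor _)
    refine ⟨.ofCoeff (Finsupp.equivFunOnFinite.symm t), fun φ => ?_⟩
    rw [map_eq φ, cl_eq, map_sum]
    exact sum_congr rfl fun γ _ => by rw [map_nsmul, ← ht]; rfl
  have ex' : ∀ F, ZZ p (DG V) F → ∃ X : Lam p, ∀ n,
      ∀ φ : LamN p n →+ ZMod (p ^ n), θ n (φ (proj p n X)) = cl π φ F := fun F hF => by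
    choose x hx using ex F hF
    refine ⟨mkLam p x fun n => uq n _ _ fun φ => ?_, hx⟩
    obtain ⟨φ', h⟩ := exists_lift φ
    rw [← h, hr, hx, hx, cl_succ h]
  choose! Inv hI using ex'
  have uq' : ∀ F, ZZ p (DG V) F → ∀ X : Lam p, (∀ n, ∀ φ : LamN p n →+ ZMod (p ^ n),
      cl π φ F = θ n (φ (proj p n X))) → Inv F = X := fun F hF X h =>
    lam_ext p fun n => uq n _ _ fun φ => (hI F hF n φ).trans (h n φ)
  refine ⟨Inv, fun F F' hF hF' => uq' _ (InvP.zz_add hF hF') _ fun n φ => ?_,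
    fun l F hF => uq' _ (zz_mul hF l) _ fun n φ => ?_,
    fun F hF => uq' _ (InvP.zz_star hF m) _ fun n φ => ?_, fun F hF h => uq' _ hF _ fun n φ => ?_,
    fun F h n γ => (h n).map ((iot p n).comp (co γ)) fun g _ => eqv _ g,
    fun j F hF hnF h => h0 j F hnF ?_⟩
  · rw [map_add, map_add, map_add, hI F hF, hI F' hF', cl_add]
  · rw [map_mul]
    refine Eq.trans ?_ (hI F hF n (φ.comp (AddMonoidHom.mulLeft (proj p n l)))).symm
    simp only [cl, map_mul]
    rfl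
  · exact (hI F hF n (φ.comp (starN p m n).toAddMonoidHom)).symm
  · rw [map_zero, map_zero, map_zero, cl_eq]
    exact sum_eq_zero fun γ _ => by rw [show cl π (co γ) F = 0 from (hπ _).2 (h n γ), smul_zero]
  · have h2 : evalN p j 1 (proj p 1 (Inv F)) = 0 := by
      rw [← toZModPow_eval, ← e1_toZMod]
      exact (congrArg (e1 p) h).trans (map_zero _)
    rw [← hI F hF]
    exact (congrArg (θ 1) h2).trans (map_zero _)

lemma exists_pair' {m : ℤ} {V : Pl} (hV : V ≠ ⊤)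
    {δ δ' : DG V →* ℤ_[p]ˣ} (h0 : Continuous δ) (h1 : Continuous δ')
    (hd : ∀ g : DG V, δ g * δ' g = chi p g ^ (1 - 2 * m))
    (x₀ : Z1 (actL V δ)) (y₀ : Z1 (actL V δ'))
    (hnd : ¬ B2 (DG V) aU fun g h => iot1 p (ev1 p m (cupL m V δ' x₀.1 y₀.1 g h))) :
    ∃ P, PairP m V δ δ' P ∧ ∀ (j : ℤ) (x : Z1 (actL V δ)) (y : Z1 (actL V δ')),
      (¬ B2 (DG V) aU fun g h => iot1 p (ev1 p j (cupL m V δ' x.1 y.1 g h))) →
      ev1 p j (P x y) ≠ 0 := by
  have hc := hCont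
  have h3 := coh3
  have hd' : ∀ g : DG V, δ' g * δ g = chi p g ^ (1 - 2 * m) := fun g => by rw [mul_comm, hd]
  have cup := fun (x : Z1 (actL V δ)) (y : Z1 (actL V δ')) (n : ℕ) =>
    h3.cup _ _ _ _ _ _ _ _ _ _ (pairing hc h0 h1 hd n) ((hc.zL p V δ x.1).1 x.2 n)
      ((hc.zL p V δ' y.1).1 y.2 n)
  have zz : ∀ (x : Z1 (actL V δ)) (y : Z1 (actL V δ')), ZZ p (DG V) (cupL m V δ' x.1 y.1) :=
    fun x y n => (cup x y n).1.congr fun g _ k _ => proj_cupL _ _ _ _ _ _ _ _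
  have zz' : ∀ (x : Z1 (actL V δ)) (y : Z1 (actL V δ')), ZZ p (DG V) (cupL m V δ y.1 x.1) :=
    fun x y n => (h3.cup _ _ _ _ _ _ _ _ _ _ (pairing hc h1 h0 hd' n) ((hc.zL p V δ' y.1).1 y.2 n)
      ((hc.zL p V δ x.1).1 x.2 n)).1.congr fun g _ k _ => proj_cupL _ _ _ _ _ _ _ _
  obtain ⟨Inv, hadd, hmul, hstar, htriv, hbb, hne⟩ := inv' V m _ hV (zz x₀ y₀) hnd
  refine ⟨fun x y => Inv (cupL m V δ' x.1 y.1), ⟨fun x x' y => ?_, fun l x y => ?_,
    fun x y y' => ?_, fun l x y => ?_, fun x y hx => ?_, fun x y hy => ?_, fun x y hxy => ?_⟩,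
    fun j x y h => hne j _ (zz x y) h⟩
  · rw [← hadd _ _ (zz x y) (zz x' y)]
    congr 1
    funext g h
    simp only [cupL, Submodule.coe_add, ext_add, Pi.add_apply, add_mul]
  · rw [← hmul _ _ (zz x y)]
    congr 1
    funext g h
    simp only [cupL, Submodule.coe_smul, ext_smul, mul_assoc]
  · rw [← hadd _ _ (zz x y) (zz x y')]
    congr 1
    funext g h
    simp only [cupL, Submodule.coe_add, ext_add, Pi.add_apply, mul_add, map_add]
  · rw [← hmul _ _ (zz x y)]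
    congr 1
    funext g h
    simp only [cupL, Submodule.coe_smul, ext_smul, map_mul]
    ring
  · exact htriv _ (zz x y) (hbb _ fun n => ((cup x y n).2.1 (bo_of_mem hx n)).congr
      fun g _ k _ => proj_cupL _ _ _ _ _ _ _ _)
  · exact htriv _ (zz x y) (hbb _ fun n => ((cup x y n).2.2.1 (bo_of_mem hy n)).congr
      fun g _ k _ => proj_cupL _ _ _ _ _ _ _ _)
  · have e1 : Inv (cupL m V δ' x.1 y.1) + star p m (Inv (cupL m V δ y.1 x.1)) = 0 := by
      rw [← hstar _ (zz' x y), ← hadd _ _ (zz x y) (FinalP.zz_star (zz' x y))]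
      refine htriv _ (FinalP.zz_add (zz x y) (FinalP.zz_star (zz' x y))) (hbb _ fun n =>
        (cup x y n).2.2.2.congr fun g _ k _ => ?_)
      rw [Pi.add_apply, Pi.add_apply, map_add, proj_cupL, cupL, map_mul (star p m), star_star,
        map_mul, map_mul, proj_star, BN_apply, BN_apply, mulAct_apply, mulAct_apply]
      ring
    have e2 : Inv (cupL m V δ' x.1 y.1) + (-1) * Inv (cupL m V δ y.1 x.1) = 0 := by
      rw [← hmul _ _ (zz' x y), ← hadd _ _ (zz x y) (zz_smul (zz' x y) _)]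
      refine htriv _ (FinalP.zz_add (zz x y) (zz_smul (zz' x y) _)) ?_
      convert hxy using 1
      funext g h
      simp only [Pi.add_apply]
      ring
    have e3 : Inv (cupL m V δ y.1 x.1) = Inv (cupL m V δ' x.1 y.1) := by linear_combination -e2
    rwa [e3] at e1

/-- A non-degenerate pair of local Iwasawa classes at every character. -/
lemma setup' (hp2 : p ≠ 2) (m : ℤ) {V : Pl} (hVp : Above V p)
    {δ : Fin 2 → (DG V →* ℤ_[p]ˣ)} (hcont : ∀ i, Continuous (δ i))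
    (hd : ∀ g : DG V, δ 0 g * δ 1 g = chi p g ^ (1 - 2 * m))
    (hg : ∃ g ∈ DG V, om p g = 1 ∧ dbar V (δ 0) g ≠ 1 ∧ dbar V (δ 1) g ≠ 1) (j : ℤ) :
    ∃ (x : Z1 (actL V (δ 0))) (y : Z1 (actL V (δ 1))),
      ¬ B2 (DG V) aU fun g h => iot1 p (ev1 p j (cupL m V (δ 1) x.1 y.1 g h)) := by
  have hV : V ≠ ⊤ := val.above_ne V p hp.out.ne_zero hVp
  obtain ⟨g₀, hgD, hg1, hg3, hg2⟩ := hg
  have hdb : ∀ g ∈ DG V, dbar V (δ 0) g * dbar V (δ 1) g = om p g ^ (1 - 2 * m) := fun g hg => by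
    rw [dbar_of_mem V _ hg, dbar_of_mem V _ hg, ← map_mul, ← Units.val_mul, hd, toZMod_zpow]
  have hch : ∀ i (k : ℤ), IsChar (DG V) fun g => dbar V (δ i) g * om p g ^ k := fun i k => by
    have c1 := hCont.dbar p V (δ i) (hcont i)
    refine ⟨by rw [c1.one, om_one, one_zpow, mul_one], fun g hg k hk => ?_,
      c1.smooth.comp₂ (isChar_om p _).smooth fun s t => s * t ^ k⟩
    rw [c1.mul g hg k hk, om_mul, mul_zpow]; ring
  obtain ⟨x₁, y₁, hx₁, hy₁, hnd⟩ := hNd p hp2 V _ _ hVp (hch 0 j) (hch 1 (2 * m - j))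
    fun g hg => by
      rw [mul_mul_mul_comm, hdb g hg, ← zpow_add₀ (om_ne_zero g), ← zpow_add₀ (om_ne_zero g)]
      have : 1 - 2 * m + (j + (2 * m - j)) = 1 := by ring
      rw [this, zpow_one]
  obtain ⟨x₀, hx₀, hxe⟩ := hLift p V (δ 0) hV (hcont 0) ⟨_, hgD, hg1, hg3⟩ j x₁ hx₁
  obtain ⟨y₀, hy₀, hye⟩ := hLift p V (δ 1) hV (hcont 1) ⟨_, hgD, hg1, hg2⟩ (2 * m - j) y₁ hy₁
  exact ⟨⟨x₀, hx₀⟩, ⟨y₀, hy₀⟩, fun hB => hnd (hB.congr fun g hg k hk => by
      rw [cupL, map_mul (ev1 p j), ev1_star', map_mul (ev1 p _), ev1_sc _ V _ hg,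
        ext_of_mem _ _ hg, ext_of_mem _ _ hk, hxe, hye])⟩

end Pool.Agent.MP_59efd2_nt.lz.UB
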