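import Pool.Agent.MP_59efd2_nt.ub.Sys2

/-!
# Two explicit local units that are not powers
-/

noncomputable section

namespace Pool.Agent.MP_59efd2_nt.lz.UB

open scoped Pointwise Classical
open Finset CM CM.ChrP

section Ring

variable {R : Type} [CommRing R]

/-- First numerator. -/
def A1 (w e z : R) : R := (e + z) * (e + w ^ 2 * z) ^ 2 * (1 - w * z) ^ 3

/-- First denominator. -/
def A2 (w e z : R) : R := (e + w * z) ^ 3 * (1 - z) * (1 - w ^ 2 * z) ^ 2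

/-- Second numerator. -/
def B1 (w e z : R) : R := (e + z) * (e + w ^ 2 * z) ^ 18 * (1 - w * z) ^ 19

/-- Second denominator. -/
def B2' (w e z : R) : R := (e + w * z) ^ 19 * (1 - z) * (1 - w ^ 2 * z) ^ 18

lemma alpha_eq (w e z : R) : ∃ q q', A1 w e z - A2 w e z =
    z * (e ^ 2 * (1 + e) * (1 + 2 * w ^ 2 - 3 * w) + z * q) ∧ A2 w e z = e ^ 3 + z * q' := by
  obtain ⟨q', h⟩ : z ∣ A2 w e z - A2 w e 0 := by
    simpa [A2] using Polynomial.sub_dvd_eval_sub z 0 (A2 (.C w) (.C e) .X)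
  refine ⟨
    -w ^ 3 * z + w ^ 3 * z ^ 2 + w ^ 4 * z - w ^ 5 * z ^ 2 - 2 * w ^ 5 * z ^ 3 + 3 * w ^ 6 * z ^ 3
      - w ^ 7 * z ^ 3 - e * w ^ 2 + 3 * e * w ^ 2 * z - 6 * e * w ^ 3 * z + e * w ^ 4 + 6 * e * w
      ^ 4 * z - 3 * e * w ^ 5 * z - 2 * e * w ^ 5 * z ^ 3 + 3 * e * w ^ 6 * z ^ 3 - e * w ^ 7 * z
      ^ 3 + 3 * e ^ 2 * w ^ 2 * z - 6 * e ^ 2 * w ^ 3 * z - e ^ 2 * w ^ 3 * z ^ 2 + 6 * e ^ 2 * w
      ^ 4 * z - 3 * e ^ 2 * w ^ 5 * z + e ^ 2 * w ^ 5 * z ^ 2 + e ^ 3 * w ^ 2 - e ^ 3 * w ^ 3 * z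
      - e ^ 3 * w ^ 4 + e ^ 3 * w ^ 4 * z, q', ?_, ?_⟩
  · unfold A1 A2
    ring
  · rw [← h, A2, A2]
    ring

lemma step {U r s w : R} (i j : ℕ) (h1 : U ^ i = r) (h2 : U ^ j = s) (h3 : r * s = w) :
    U ^ (i + j) = w := by rw [pow_add, h1, h2, h3]

variable {z : R} (h : (49 : R) = 0) (hz : z ^ 6 - 21 * z ^ 3 - 7 = 0)
include h hz

lemma chainx (U : R) (x1 : U ^ 1 = 43 + 2 * z + 48 * z ^ 2 + z ^ 3 + 19 * z ^ 4) : U ^ 18 = 29 + 8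
  * z + 41 * z ^ 2 + 5 * z ^ 3 + 18 * z ^ 4 + 43 * z ^ 5 := by
  have x2 : U ^ 2 = 22 + 46 * z + 44 * z ^ 2 + 40 * z ^ 3 + 36 * z ^ 4 + 11 * z ^ 5 := step 1 1 x1
    x1 (by
    linear_combination (12 + 38 * z + 18 * z ^ 2) * hz + (39 + 8 * z + 86 * z ^ 2 + 10 * z ^ 3 +
      96 * z ^ 4 + 11 * z ^ 5 + 37 * z ^ 6 + 7 * z ^ 8) * h)
  have x4 : U ^ 4 = 29 + z + 27 * z ^ 2 + 40 * z ^ 3 + 18 * z ^ 4 + 43 * z ^ 5 := step 2 2 x2 x2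
    (by
    linear_combination (19 + 19 * z + 20 * z ^ 2 + 8 * z ^ 3 + 23 * z ^ 4) * hz + (12 + 44 * z +
      85 * z ^ 2 + 127 * z ^ 3 + 158 * z ^ 4 + 157 * z ^ 5 + 121 * z ^ 6 + 88 * z ^ 7 + 44 * z ^ 8
      + 16 * z ^ 9 + 2 * z ^ 10) * h)
  have x8 : U ^ 8 = 43 + 30 * z + 34 * z ^ 2 + 36 * z ^ 3 + 12 * z ^ 4 + 42 * z ^ 5 := step 4 4 x4
    x4 (by
    linear_combination (33 + 10 * z + 40 * z ^ 2 + 29 * z ^ 3 + 36 * z ^ 4) * hz + (21 + 2 * z +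
      37 * z ^ 2 + 66 * z ^ 3 + 47 * z ^ 4 + 112 * z ^ 5 + 66 * z ^ 6 + 92 * z ^ 7 + 76 * z ^ 8 +
      31 * z ^ 9 + 37 * z ^ 10) * h)
  have x9 : U ^ 9 = 22 + 25 * z + 37 * z ^ 2 + 19 * z ^ 3 + 43 * z ^ 4 + 32 * z ^ 5 := step 8 1 x8
    x1 (by
    linear_combination (19 + 17 * z + 25 * z ^ 2 + 14 * z ^ 3) * hz + (40 + 30 * z + 76 * z ^ 2 +
      73 * z ^ 3 + 69 * z ^ 4 + 95 * z ^ 5 + 33 * z ^ 6 + 55 * z ^ 7 + 5 * z ^ 8 + 16 * z ^ 9) *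
      h)
  refine step 9 9 x9 x9 ?_
  linear_combination (19 + 26 * z + 27 * z ^ 2 + 8 * z ^ 3 + 44 * z ^ 4) * hz + (12 + 26 * z + 49
    * z ^ 2 + 64 * z ^ 3 + 103 * z ^ 4 + 112 * z ^ 5 + 108 * z ^ 6 + 100 * z ^ 7 + 62 * z ^ 8 + 56
    * z ^ 9 + 20 * z ^ 10) * h

lemma chainy (U : R) (x1 : U ^ 1 = 43 + 40 * z + 48 * z ^ 2 + z ^ 3 + 31 * z ^ 4) : U ^ 18 = 43 +
  6 * z + 6 * z ^ 2 + 45 * z ^ 3 + 32 * z ^ 4 + 14 * z ^ 5 := by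
  have x2 : U ^ 2 = 1 + 3 * z + 9 * z ^ 2 + 48 * z ^ 3 + 31 * z ^ 4 + 21 * z ^ 5 := step 1 1 x1 x1
    (by
    linear_combination (37 + 13 * z + 30 * z ^ 2) * hz + (43 + 72 * z + 121 * z ^ 2 + 95 * z ^ 3 +
      108 * z ^ 4 + 65 * z ^ 5 + 60 * z ^ 6 + z ^ 7 + 19 * z ^ 8) * h)
  have x4 : U ^ 4 = 43 + 13 * z + 41 * z ^ 2 + 31 * z ^ 3 + 11 * z ^ 4 + 7 * z ^ 5 := step 2 2 x2
    x2 (by
    linear_combination (48 + 22 * z + 37 * z ^ 2 + 28 * z ^ 3) * hz + (6 + 3 * z + 5 * z ^ 2 + 27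
      * z ^ 3 + 18 * z ^ 4 + 38 * z ^ 5 + 72 * z ^ 6 + 68 * z ^ 7 + 60 * z ^ 8 + 26 * z ^ 9 + 9 *
      z ^ 10) * h)
  have x8 : U ^ 8 = 43 + 12 * z + 34 * z ^ 2 + 29 * z ^ 3 + 17 * z ^ 4 + 42 * z ^ 5 := step 4 4 x4
    x4 (by
    linear_combination (36 + 31 * z + 16 * z ^ 2 + 7 * z ^ 3) * hz + (42 + 27 * z + 77 * z ^ 2 +
      92 * z ^ 3 + 83 * z ^ 4 + 76 * z ^ 5 + 44 * z ^ 6 + 25 * z ^ 7 + 11 * z ^ 8 + 3 * z ^ 9 + z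
      ^ 10) * h)
  have x9 : U ^ 9 = 1 + 24 * z + 2 * z ^ 2 + 34 * z ^ 3 + 45 * z ^ 4 + 14 * z ^ 5 := step 8 1 x8
    x1 (by
    linear_combination (2 + 41 * z + 30 * z ^ 2 + 28 * z ^ 3) * hz + (38 + 51 * z + 86 * z ^ 2 +
      70 * z ^ 3 + 116 * z ^ 4 + 100 * z ^ 5 + 85 * z ^ 6 + 59 * z ^ 7 + 11 * z ^ 8 + 26 * z ^ 9)
      * h)
  refine step 9 9 x9 x9 ?_
  linear_combination (48 + 29 * z + 37 * z ^ 2 + 35 * z ^ 3) * hz + (6 + 5 * z + 17 * z ^ 2 + 28 *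
    z ^ 3 + 47 * z ^ 4 + 63 * z ^ 5 + 55 * z ^ 6 + 63 * z ^ 7 + 60 * z ^ 8 + 25 * z ^ 9 + 4 * z ^
    10) * h

omit hz in
lemma beta_eq {w e u : R} (hw : w * w = -1 - w) (hu : (-2 - 3 * w) * u = 1)
    (he : (e - 1) ^ 2 = -(1 + 3 * w) * e) (h3 : z ^ 3 = (2 + 3 * w) * (e * (e - 1))) :
    z ^ 6 = 7 + 21 * z ^ 3 ∧ B1 w e z - B2' w e z = 28 * z ^ 5 ∧
      B2' w e z = 8 + z * (38 * z + 19 * z ^ 2 + 7 * z ^ 3 + 26 * z ^ 4) := by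
  have h1 : 1 + 3 * w = 7 * u := by linear_combination -(1 + 3 * w) * hu - 9 * u * hw
  have h2 : w = 30 := by
    linear_combination (33 - 231 * u) * h1 - 231 * hu - (33 * u ^ 2 + 2 * w + 6) * h
  subst h2
  have h4 : e = z ^ 3 - 6 := by
    linear_combination -h3 - 92 * he + (169 * e + 2) * h
  have hz : z ^ 6 - 21 * z ^ 3 - 7 = 0 := by
    rw [h4] at he
    linear_combination he + (-2 * z ^ 3 + 10) * h
  have h5 : (30 : R) ^ 2 = 18 := by linear_combination 18 * h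
  have x := chainx h hz ((-6 + 18 * z + z ^ 3) * (1 - 30 * z)) (by
    linear_combination (-1 + 4 * z - 12 * z ^ 2 - z ^ 4) * h)
  have y := chainy h hz ((1 - 18 * z) * (-6 + 30 * z + z ^ 3)) (by
    linear_combination (-1 + 2 * z - 12 * z ^ 2 - z ^ 4) * h)
  have x' : B1 30 e z = 8 + 38 * z ^ 2 + 19 * z ^ 3 + 7 * z ^ 4 + 5 * z ^ 5 := by
    rw [show B1 30 e z = ((-6 + 18 * z + z ^ 3) * (1 - 30 * z)) ^ 18 *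
      ((-6 + z + z ^ 3) * (1 - 30 * z)) by
        rw [B1, h5, h4, mul_pow, pow_succ _ 18, show z ^ 3 - 6 + 18 * z = -6 + 18 * z + z ^ 3 by ring]
        generalize (-6 + 18 * z + z ^ 3) ^ 18 = s
        generalize (1 - 30 * z) ^ 18 = t
        ring, x]
    linear_combination (47 + 48 * z + 42 * z ^ 2 + 33 * z ^ 3) * hz + (3 + 113 * z + 12 * z ^ 2 +
      171 * z ^ 3 - 6 * z ^ 4 + 72 * z ^ 5 + 136 * z ^ 6 - 30 * z ^ 7 - 11 * z ^ 8 - 27 * z ^ 9) *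
      h
  have y' : B2' 30 e z = 8 + 38 * z ^ 2 + 19 * z ^ 3 + 7 * z ^ 4 + 26 * z ^ 5 := by
    rw [show B2' 30 e z = ((1 - 18 * z) * (-6 + 30 * z + z ^ 3)) ^ 18 *
      ((1 - z) * (-6 + 30 * z + z ^ 3)) by
        rw [B2', h5, h4, mul_pow, pow_succ _ 18,
          show z ^ 3 - 6 + 30 * z = -6 + 30 * z + z ^ 3 by ring]
        generalize (-6 + 30 * z + z ^ 3) ^ 18 = s
        generalize (1 - 18 * z) ^ 18 = t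
        ring, y]
    linear_combination (24 + 8 * z + 31 * z ^ 2 + 35 * z ^ 3) * hz + (-2 + 32 * z - 19 * z ^ 2 +
      11 * z ^ 3 + 28 * z ^ 4 + 7 * z ^ 5 + 6 * z ^ 6 - 9 * z ^ 7 - z ^ 8 - z ^ 9) * h
  refine ⟨by linear_combination hz, ?_, by rw [y']; ring⟩
  rw [x', y']
  linear_combination -z ^ 5 * h

end Ring

end Pool.Agent.MP_59efd2_nt.lz.UB
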