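import Pool.Agent.MP_59efd2_nt.ub.Gen
import Pool.Agent.MP_59efd2_nt.cm.Inst

/-!
# The Iwasawa class of a norm compatible family
-/

noncomputable section

namespace Pool.Agent.MP_59efd2_nt.lz.UB

open scoped Pointwise Classical
open Finset Filter Topology CM CM.ChrP Additive

set_option linter.unusedSectionVars false

variable {p : ℕ} [hp : Fact p.Prime]

lemma trans_surj (n : ℕ) : Function.Surjective (trans p n) := fun x => by
  induction x using MonoidAlgebra.induction_linear with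
  | zero => exact ⟨0, map_zero _⟩
  | add a b ha hb =>
    obtain ⟨a, rfl⟩ := ha
    obtain ⟨b, rfl⟩ := hb
    exact ⟨a + b, map_add _ _ _⟩
  | single γ c =>
    have : NeZero (p ^ (n + 1)) := ⟨pow_ne_zero _ hp.out.ne_zero⟩
    obtain ⟨γ', rfl⟩ := ZMod.unitsMap_surjective (pow_dvd_pow p (Nat.le_succ n)) γ
    obtain ⟨c', rfl⟩ := ZMod.castHom_surjective (pow_dvd_pow p (Nat.le_succ n)) c
    exact ⟨MonoidAlgebra.single γ' c', trans_single p n γ' c'⟩

lemma trans_actN (ρ : GQ →* GL (Fin 2) ℤ_[p]) (n : ℕ) (g : GQ) (v : Fin 2 → LamN p (n + 1))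
    (i : Fin 2) : trans p n (actN ρ (n + 1) g v i) = actN ρ n g (fun i => trans p n (v i)) i := by
  simp only [IwbP.actN_apply, map_mul, map_add, trans_proj]

/-- Cocycles that are compatible up to coboundaries glue to an Iwasawa cocycle. -/
lemma glue {ρ : GQ →* GL (Fin 2) ℤ_[p]} (c : ∀ n, GQ → Fin 2 → LamN p n)
    (hact : ∀ n (v : Fin 2 → LamN p n) (g : GQ), ∀ᶠ h in 𝓝 g, actN ρ n h v = actN ρ n g v)
    (hlc : ∀ n (g : GQ), ∀ᶠ h in 𝓝 g, c n h = c n g)
    (hc : ∀ n g h, c n (g * h) = c n g + actN ρ n g (c n h))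
    (hB : ∀ n, ∃ B, ∀ g i, trans p n (c (n + 1) g i) = c n g i + (actN ρ n g B i - B i)) :
    ∃ (z : Z1 (actG ρ)) (w : Fin 2 → LamN p 1), ∀ g i,
      proj p 1 (z.1 g i) = c 1 g i - (actN ρ 1 g w i - w i) := by
  choose B hB using hB
  choose lift hlift using trans_surj (p := p)
  let w : ∀ n, Fin 2 → LamN p n := fun n =>
    Nat.rec (motive := fun n => Fin 2 → LamN p n) 0 (fun n w i => lift n (w i + B n i)) n
  have hw : ∀ n, (fun i => trans p n (w (n + 1) i)) = w n + B n := fun n =>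
    funext fun i => hlift n _
  let z : GQ → Fin 2 → Lam p := fun g i =>
    mkLam p (fun n => c n g i - (actN ρ n g (w n) i - w n i)) fun n => by
      rw [map_sub, map_sub, hB, trans_actN, hw, congrFun (hw n) i, map_add]
      simp only [Pi.add_apply]
      ring
  have hz : ∀ n g i, proj p n (z g i) = c n g i - (actN ρ n g (w n) i - w n i) := fun _ _ _ => rfl
  refine ⟨⟨z, continuous_pi fun i => (hCont.lam p _ _).2 fun n =>
    (IsLocallyConstant.iff_eventually_eq _).2 fun g => ?_, fun g h => funext fun i =>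
      lam_ext p fun n => ?_⟩, w 1, hz 1⟩
  · filter_upwards [hact n (w n) g, hlc n g] with h h1 h2
    rw [hz, hz, h1, h2]
  · have h1 : (fun i => proj p n (z h i)) = c n h - (actN ρ n h (w n) - w n) := funext (hz n h)
    have h2 : actN ρ n (g * h) (w n) = actN ρ n g (actN ρ n h (w n)) := by
      funext i
      simp only [IwbP.actN_apply, map_mul, mul_inv, Units.val_mul, Matrix.mul_apply,
        Fin.sum_univ_two, map_add]
      ring
    rw [Pi.add_apply, map_add, congrFun (proj_actG ρ n g (z h)) i, h1, hz, hz, hc, h2, map_sub,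
      map_sub]
    simp only [Pi.add_apply, Pi.sub_apply]
    ring

/-- Reduction of a unit. -/
def uN (n : ℕ) : ℤ_[p]ˣ →* Gam p n := Units.map (PadicInt.toZModPow n).toMonoidHom

/-- Reduction of a unit by one level. -/
def rd (n : ℕ) : Gam p (n + 1) →* Gam p n := Units.map (red p n).toMonoidHom

lemma rd_uN (n : ℕ) (x : ℤ_[p]ˣ) : rd n (uN (n + 1) x) = uN n x :=
  Units.ext (red_toZModPow p n x)

/-- The action on pairs of units. -/
def AA (e : Fin 2 → GQ → ℤ_[p]ˣ) (n : ℕ) (g : GQ) (u : Fin 2 → Gam p n) : Fin 2 → Gam p n :=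
  fun i => uN n (e i g) * u (sw g i)

/-- A unit multiple of a group element. -/
def sg2 {n : ℕ} (γ c : Gam p n) : LamN p n := MonoidAlgebra.single γ (c : ZMod (p ^ n))

lemma sg2_mul {n : ℕ} (γ c γ' c' : Gam p n) : sg2 γ c * sg2 γ' c' = sg2 (γ * γ') (c * c') := by
  rw [sg2, sg2, sg2, MonoidAlgebra.single_mul_single, Units.val_mul]

/-- The weights. -/
def TH {n : ℕ} (u : Fin 2 → Gam p n) (i : Fin 2) : LamN p n :=
  sg2 ((-1) ^ (i : ℕ) * (u 0 * u 1)⁻¹) ((-1) ^ (i : ℕ) * (u i ^ 3 * (u 0 * u 1))⁻¹)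

lemma trans_TH {n : ℕ} (u : Fin 2 → Gam p (n + 1)) (i : Fin 2) :
    trans p n (TH u i) = TH (fun i => rd n (u i)) i := by
  have h1 : rd (p := p) n (-1) = -1 := Units.ext (by simp [rd])
  rw [TH, TH, sg2, sg2, trans_single]
  congr 1
  · change rd n _ = _
    simp only [map_mul, map_pow, map_inv, h1]
  · change ((rd n _ : Gam p n) : ZMod (p ^ n)) = _
    simp only [map_mul, map_pow, map_inv, h1]

/-- A family of algebraic numbers indexed by pairs of units, with the Galois action of the induced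
representation and the distribution relation. -/
structure Sys (ρ : GQ →* GL (Fin 2) ℤ_[p]) (e : Fin 2 → GQ → ℤ_[p]ˣ)
    (S : ∀ n, (Fin 2 → Gam p n) → Qbˣ) : Prop where
  mul : ∀ i g h, e i (g * h) = e i g * e (sw g i) h
  chi_fix : ∀ g, Fix g → chi p g = e 0 g * e 1 g
  chi_swap : ∀ g, ¬ Fix g → chi p g = -(e 0 g * e 1 g)
  rho : ∀ g i j, (ρ g : Matrix (Fin 2) (Fin 2) ℤ_[p]) i j =
    if j = sw g i then (((e i g ^ 3)⁻¹ : ℤ_[p]ˣ) : ℤ_[p]) else 0
  loc : ∀ n (g : GQ), ∀ᶠ h in 𝓝 g, ∀ i, uN n (e i h) = uN n (e i g)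
  act : ∀ n g u, sU g (S (n + 1) u) = S (n + 1) (AA e (n + 1) g u)
  dist : ∀ n u, ∏ v ∈ univ.filter (fun v => (fun i => rd (n + 1) (v i)) = u), S (n + 2) v =
    S (n + 1) u

namespace Sys

variable {ρ : GQ →* GL (Fin 2) ℤ_[p]} {e : Fin 2 → GQ → ℤ_[p]ˣ}
  {S : ∀ n, (Fin 2 → Gam p n) → Qbˣ} (h : Sys ρ e S)
include h

lemma AA_mul (n : ℕ) (g k : GQ) (u : Fin 2 → Gam p n) :
    AA e n (g * k) u = AA e n g (AA e n k u) := funext fun i => by
  simp only [AA, h.mul, map_mul, sw_mul, mul_assoc]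

lemma AA_one (n : ℕ) (u : Fin 2 → Gam p n) : AA e n 1 u = u := funext fun i => by
  have h0 : sw 1 i = i := if_pos fix_one
  have h1 := h.mul i 1 1
  rw [mul_one, h0, left_eq_mul] at h1
  rw [AA, h1, map_one, one_mul, h0]

/-- The action as a permutation. -/
def AE (n : ℕ) (g : GQ) : (Fin 2 → Gam p n) ≃ (Fin 2 → Gam p n) where
  toFun := AA e n g
  invFun := AA e n g⁻¹
  left_inv u := by rw [← h.AA_mul, inv_mul_cancel, h.AA_one]
  right_inv u := by rw [← h.AA_mul, mul_inv_cancel, h.AA_one]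

lemma actN_eq (n : ℕ) (g : GQ) (v : Fin 2 → LamN p n) (i : Fin 2) :
    actN ρ n g v i = sg2 (chiN p n g)⁻¹ (uN n (e i g) ^ 3)⁻¹ * v (sw g i) := by
  have h1 : proj p n (grp p (chi p g)⁻¹) * proj p n (cst p (((e i g ^ 3)⁻¹ : ℤ_[p]ˣ) : ℤ_[p])) =
      sg2 (chiN p n g)⁻¹ (uN n (e i g) ^ 3)⁻¹ := by
    rw [proj_grp, proj_cst, MonoidAlgebra.single_mul_single, mul_one, one_mul, map_inv, ← map_pow,
      ← map_inv (uN n)]
    rfl
  rw [IwbP.actN_apply, h.rho, h.rho, ← h1]
  generalize sw g i = k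
  fin_cases k <;> simp [mul_assoc]

lemma TH_act (n : ℕ) (g : GQ) (u : Fin 2 → Gam p n) (i : Fin 2) :
    sg2 1 (chiN p n g) * TH (AA e n g u) i =
      sg2 (chiN p n g)⁻¹ (uN n (e i g) ^ 3)⁻¹ * TH u (sw g i) := by
  have h1 : uN (p := p) n (-1) = -1 := Units.ext (by simp [uN])
  by_cases hg : Fix g
  · have h2 : chiN p n g = uN n (e 0 g) * uN n (e 1 g) := by
      rw [← map_mul, ← h.chi_fix g hg]; rfl
    have h3 : ∀ i, sw g i = i := fun i => if_pos hg
    simp only [TH, sg2_mul, AA, h2, h3]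
    congr 1 <;> apply ofMul.injective <;>
      simp only [ofMul_mul, ofMul_inv, ofMul_pow, ofMul_one] <;> abel
  · have h2 : chiN p n g = -1 * (uN n (e 0 g) * uN n (e 1 g)) := by
      rw [← map_mul, ← h1, ← map_mul, neg_one_mul, ← h.chi_swap g hg]; rfl
    have h3 : sw g 0 = 1 := if_neg hg
    have h4 : sw g 1 = 0 := if_neg hg
    have h5 : (2 : ℤ) • ofMul (-1 : Gam p n) = 0 := by
      rw [← ofMul_zpow, neg_one_zpow_eq_ite]; rfl
    fin_cases i <;> simp only [TH, sg2_mul, AA, h2, h3, h4, Fin.zero_eta, Fin.mk_one,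
      Fin.val_zero, Fin.val_one, pow_zero, pow_one] <;> congr 1 <;> apply ofMul.injective <;>
      simp only [ofMul_mul, ofMul_inv, ofMul_pow, ofMul_one]
    · abel
    · abel
    · linear_combination (norm := abel) h5
    · linear_combination (norm := abel) h5

end Sys

lemma exists_root (n : ℕ) (a : Qbˣ) : ∃ w : Qbˣ, w ^ p ^ n = a := by
  obtain ⟨w, hw⟩ := IsAlgClosed.exists_pow_nat_eq (a : Qb) (pow_pos hp.out.pos n)
  have h0 : w ≠ 0 := fun h0 => a.ne_zero (by
    rw [← hw, h0, zero_pow (pow_pos hp.out.pos n).ne'])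
  exact ⟨Units.mk0 w h0, Units.ext hw⟩

/-- Kummer data of level `n`. -/
structure Kum (e : Fin 2 → GQ → ℤ_[p]ˣ) (n : ℕ) (S w : (Fin 2 → Gam p n) → Qbˣ)
    (κ : GQ → (Fin 2 → Gam p n) → ZMod (p ^ n)) : Prop where
  root : ∀ u, w u ^ p ^ n = S u
  eq : ∀ g u, iot p n (κ g u) = ofMul (sU g (w u)) - ofMul (w (AA e n g u))

/-- The cocycle of level `n`. -/
def cc (e : Fin 2 → GQ → ℤ_[p]ˣ) (n : ℕ) (κ : GQ → (Fin 2 → Gam p n) → ZMod (p ^ n)) (g : GQ)
    (i : Fin 2) : LamN p n := ∑ u, TH (AA e n g u) i * MonoidAlgebra.single 1 (κ g u)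

lemma single_mul {n : ℕ} (c : Gam p n) (t : ZMod (p ^ n)) :
    (MonoidAlgebra.single 1 (c * t) : LamN p n) = sg2 1 c * MonoidAlgebra.single 1 t := by
  rw [sg2, MonoidAlgebra.single_mul_single, mul_one]

namespace Sys

variable {ρ : GQ →* GL (Fin 2) ℤ_[p]} {e : Fin 2 → GQ → ℤ_[p]ˣ}
  {S : ∀ n, (Fin 2 → Gam p n) → Qbˣ} (h : Sys ρ e S)
include h

lemma exists_kum (n : ℕ) : ∃ w κ, Kum e (n + 1) (S (n + 1)) w κ := by
  choose w hw using fun u => exists_root (p := p) (n + 1) (S (n + 1) u)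
  choose κ hκ using fun g u => exists_iot p (n + 1) (u := sU g (w u) / w (AA e (n + 1) g u)) (by
    rw [div_pow, ← map_pow, hw, hw, h.act, div_self'])
  exact ⟨w, κ, hw, hκ⟩

lemma act_sum (n : ℕ) (g : GQ) (F : (Fin 2 → Gam p n) → (Fin 2 → Gam p n))
    (b : (Fin 2 → Gam p n) → ZMod (p ^ n)) (i : Fin 2) :
    actN ρ n g (fun i => ∑ u, TH (F u) i * MonoidAlgebra.single 1 (b u)) i =
      ∑ u, TH (AA e n g (F u)) i * MonoidAlgebra.single 1 (chiN p n g * b u) := by
  rw [h.actN_eq, mul_sum]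
  refine sum_congr rfl fun u _ => ?_
  rw [single_mul, ← mul_assoc, ← h.TH_act]
  ring

variable {n : ℕ} {T w : (Fin 2 → Gam p n) → Qbˣ} {κ : GQ → (Fin 2 → Gam p n) → ZMod (p ^ n)}

lemma cc_mul (k : Kum e n T w κ) (g g' : GQ) :
    cc e n κ (g * g') = cc e n κ g + actN ρ n g (cc e n κ g') := funext fun i => by
  have h1 : ∀ u, κ (g * g') u = κ g (AA e n g' u) + chiN p n g * κ g' u := fun u =>
    iot_injective p n (by
      rw [map_add, ← aU_iot, k.eq, k.eq, k.eq, map_sub, aU_ofMul, aU_ofMul, sU_mul, h.AA_mul]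
      abel)
  rw [Pi.add_apply]
  unfold cc
  rw [h.act_sum, ← (h.AE n g').sum_comp (fun u => TH (AA e n g u) i *
    MonoidAlgebra.single 1 (κ g u)), ← sum_add_distrib]
  refine sum_congr rfl fun u _ => ?_
  rw [h1, MonoidAlgebra.single_add, mul_add, h.AA_mul]
  rfl

lemma ev_AA (n : ℕ) (g : GQ) : ∀ᶠ k in 𝓝 g, sw k = sw g ∧ AA e n k = AA e n g := by
  filter_upwards [h.loc n g, ev_fix g] with k h1 h2
  have h3 : sw k = sw g := funext fun i => if_congr h2 rfl rfl
  exact ⟨h3, funext fun u => funext fun i => by rw [AA, AA, h1, h3]⟩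

lemma ev_act (n : ℕ) (v : Fin 2 → LamN p n) (g : GQ) :
    ∀ᶠ k in 𝓝 g, actN ρ n k v = actN ρ n g v := by
  filter_upwards [h.ev_AA n g, h.loc n g, (IsLocallyConstant.iff_eventually_eq _).1
    ((hCont.zp p _ _ (Units.continuous_val.comp (cyclotomicCharacter.continuous p ℚ Qb)) n)) g]
    with k h1 h2 h3
  funext i
  have h4 : chiN p n k = chiN p n g := Units.ext h3
  rw [h.actN_eq, h.actN_eq, h1.1, h2, h4]

lemma ev_cc (k : Kum e n T w κ) (g : GQ) : ∀ᶠ g' in 𝓝 g, cc e n κ g' = cc e n κ g := by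
  filter_upwards [h.ev_AA n g, eventually_all.2 fun u => ev_eq g (w u)] with g' h1 h2
  funext i
  refine sum_congr rfl fun u _ => ?_
  rw [h1.2, iot_injective p n (show iot p n (κ g' u) = iot p n (κ g u) by
    rw [k.eq, k.eq, h1.2, show sU g' (w u) = sU g (w u) from Units.ext (h2 u)])]

omit h in
lemma rd_AA (n : ℕ) (g : GQ) (v : Fin 2 → Gam p (n + 1)) :
    (fun i => rd n (AA e (n + 1) g v i)) = AA e n g fun i => rd n (v i) :=
  funext fun i => by rw [AA, AA, map_mul, rd_uN]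

lemma cc_trans {T' w' : (Fin 2 → Gam p (n + 1)) → Qbˣ}
    {κ' : GQ → (Fin 2 → Gam p (n + 1)) → ZMod (p ^ (n + 1))} (k : Kum e n T w κ)
    (k' : Kum e (n + 1) T' w' κ')
    (hd : ∀ u, ∏ v ∈ univ.filter (fun v => (fun i => rd n (v i)) = u), T' v = T u) :
    ∃ B, ∀ g i, trans p n (cc e (n + 1) κ' g i) = cc e n κ g i + (actN ρ n g B i - B i) := by
  let R : (Fin 2 → Gam p (n + 1)) → Fin 2 → Gam p n := fun v i => rd n (v i)
  choose b hb using fun u => exists_iot p n
    (u := (∏ v ∈ univ.filter (fun v => R v = u), w' v ^ p) / w u) (by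
      rw [div_pow, ← prod_pow, k.root, div_eq_one, ← hd u]
      exact prod_congr rfl fun v _ => by rw [← pow_mul, ← pow_succ', k'.root])
  have hb' : ∀ u, iot p n (b u) =
      ∑ v ∈ univ.filter (fun v => R v = u), p • ofMul (w' v) - ofMul (w u) := fun u => by
    rw [hb, ofMul_div, ofMul_prod]; rfl
  have h1 : ∀ g u, ∑ v ∈ univ.filter (fun v => R v = u), red p n (κ' g v) =
      κ g u + chiN p n g * b u - b (AA e n g u) := fun g u => iot_injective p n (by
    have h2 : ∑ v ∈ univ.filter (fun v => R v = u), p • ofMul (w' (AA e (n + 1) g v)) =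
        ∑ v ∈ univ.filter (fun v => R v = AA e n g u), p • ofMul (w' v) :=
      sum_equiv (h.AE (n + 1) g) (fun v => by
        simp only [mem_filter, mem_univ, true_and]
        exact ((h.AE n g).injective.eq_iff.symm).trans
          (Eq.congr_left (rd_AA n g v).symm)) fun _ _ => rfl
    rw [map_sum, map_sub, map_add, ← aU_iot, hb', hb', k.eq, ← h2, map_sub, map_sum]
    simp only [iot_red, k'.eq, nsmul_sub, sum_sub_distrib, map_nsmul, aU_ofMul]
    abel)
  refine ⟨fun i => ∑ u, TH u i * MonoidAlgebra.single 1 (b u), fun g i => ?_⟩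
  rw [h.act_sum n g (fun u => u)]
  beta_reduce
  rw [← (h.AE n g).sum_comp (fun u => TH u i *
    MonoidAlgebra.single 1 (b u)), cc, cc, map_sum, ← sum_sub_distrib, ← sum_add_distrib,
    ← sum_fiberwise univ R]
  refine sum_congr rfl fun u _ => ?_
  have h3 : ∀ v ∈ univ.filter (fun v => R v = u), trans p n (TH (AA e (n + 1) g v) i *
      MonoidAlgebra.single 1 (κ' g v)) = TH (AA e n g u) i *
        MonoidAlgebra.singleOneRingHom (red p n (κ' g v)) := fun v hv => by
    rw [map_mul, trans_TH, trans_single, map_one, rd_AA, ← (mem_filter.1 hv).2]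
    rfl
  rw [sum_congr rfl h3, ← mul_sum, ← map_sum, h1, map_sub, map_add, mul_sub, mul_add, add_sub_assoc]
  rfl

/-- The Iwasawa class of the family and its first level. -/
theorem exists_class : ∃ (z : Z1 (actG ρ)) (m : Fin 2 → LamN p 1) (w : _) (κ : _),
    Kum e 1 (S 1) w κ ∧ ∀ g i, proj p 1 (z.1 g i) = cc e 1 κ g i - (actN ρ 1 g m i - m i) := by
  choose w κ k using h.exists_kum
  have s0 : Subsingleton (LamN p 0) := by
    have : Subsingleton (ZMod (p ^ 0)) := (inferInstance : Subsingleton (ZMod 1))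
    exact Module.subsingleton (ZMod (p ^ 0)) _
  obtain ⟨z, m, hz⟩ := glue (ρ := ρ)
    (fun n => Nat.casesOn (motive := fun n => GQ → Fin 2 → LamN p n) n 0
      fun n => cc e (n + 1) (κ n)) h.ev_act
    (fun n g => by
      cases n with
      | zero => exact Eventually.of_forall fun _ => rfl
      | succ n => exact h.ev_cc (k n) g)
    (fun n g g' => by
      cases n with
      | zero => exact Subsingleton.elim _ _
      | succ n => exact h.cc_mul (k n) g g')
    (fun n => by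
      cases n with
      | zero => exact ⟨0, fun _ _ => Subsingleton.elim _ _⟩
      | succ n => exact h.cc_trans (k n) (k (n + 1)) (h.dist n))
  exact ⟨z, m, w 0, κ 0, k 0, hz⟩

end Sys

end Pool.Agent.MP_59efd2_nt.lz.UB
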