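import Pool.Agent.MP_59efd2_nt.ub.Loc
import Pool.Agent.MP_59efd2_nt.ub.Gen2

/-!
# All levels of the class, and its two-variable specialisations
-/

noncomputable section

namespace Pool.Agent.MP_59efd2_nt.lz.UB

open scoped Pointwise Classical
open Finset Filter Topology CM CM.ChrP Additive

section General

variable {p : ℕ} [hp : Fact p.Prime]

lemma glue2 {ρ : GQ →* GL (Fin 2) ℤ_[p]} (c : ∀ n, GQ → Fin 2 → LamN p n)
    (hact : ∀ n (v : Fin 2 → LamN p n) (g : GQ), ∀ᶠ h in 𝓝 g, actN ρ n h v = actN ρ n g v)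
    (hlc : ∀ n (g : GQ), ∀ᶠ h in 𝓝 g, c n h = c n g)
    (hc : ∀ n g h, c n (g * h) = c n g + actN ρ n g (c n h))
    (hB : ∀ n, ∃ B, ∀ g i, trans p n (c (n + 1) g i) = c n g i + (actN ρ n g B i - B i)) :
    ∃ z : Z1 (actG ρ), ∀ n, ∃ w : Fin 2 → LamN p n, ∀ g i,
      proj p n (z.1 g i) = c n g i - (actN ρ n g w i - w i) := by
  choose B hB using hB
  choose lift hlift using trans_surj (p := p)
  let w : ∀ n, Fin 2 → LamN p n := fun n =>
    Nat.rec (motive := fun n => Fin 2 → LamN p n) 0 (fun n w i => lift n (w i + B n i)) n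
  have hw : ∀ n, (fun i => trans p n (w (n + 1) i)) = w n + B n := fun n =>
    funext fun i => hlift n _
  let z : GQ → Fin 2 → Lam p := fun g i =>
    mkLam p (fun n => c n g i - (actN ρ n g (w n) i - w n i)) fun n => by
      rw [map_sub, map_sub, hB, trans_actN, hw, congrFun (hw n) i, map_add]
      simp only [Pi.add_apply]
      ring
  have hz : ∀ n g i, proj p n (z g i) = c n g i - (actN ρ n g (w n) i - w n i) := fun _ _ _ => rfl
  refine ⟨⟨z, continuous_pi fun i => (hCont.lam p _ _).2 fun n =>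
    (IsLocallyConstant.iff_eventually_eq _).2 fun g => ?_, fun g h => funext fun i =>
      lam_ext p fun n => ?_⟩, fun n => ⟨w n, hz n⟩⟩
  · filter_upwards [hact n (w n) g, hlc n g] with h h1 h2
    rw [hz, hz, h1, h2]
  · have h1 : (fun i => proj p n (z h i)) = c n h - (actN ρ n h (w n) - w n) := funext (hz n h)
    have h2 : actN ρ n (g * h) (w n) = actN ρ n g (actN ρ n h (w n)) := by
      funext i
      simp only [IwbP.actN_apply, map_mul, mul_inv, Units.val_mul, Matrix.mul_apply,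
        Fin.sum_univ_two, map_add]
      ring
    rw [Pi.add_apply, map_add, congrFun (proj_actG ρ n g (z h)) i, h1, hz, hz, hc, h2, map_sub,
      map_sub]
    simp only [Pi.add_apply, Pi.sub_apply]
    ring

namespace Sys

variable {ρ : GQ →* GL (Fin 2) ℤ_[p]} {e : Fin 2 → GQ → ℤ_[p]ˣ}
  {S : ∀ n, (Fin 2 → Gam p n) → Qbˣ} (h : Sys ρ e S)
include h

theorem exists_class2 : ∃ z : Z1 (actG ρ), ∀ n, ∃ (m : Fin 2 → LamN p (n + 1)) (w : _) (κ : _),
    Kum e (n + 1) (S (n + 1)) w κ ∧ ∀ g i,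
      proj p (n + 1) (z.1 g i) = cc e (n + 1) κ g i - (actN ρ (n + 1) g m i - m i) := by
  choose w κ k using h.exists_kum
  have s0 : Subsingleton (LamN p 0) := by
    have : Subsingleton (ZMod (p ^ 0)) := (inferInstance : Subsingleton (ZMod 1))
    exact Module.subsingleton (ZMod (p ^ 0)) _
  obtain ⟨z, hz⟩ := glue2 (ρ := ρ)
    (fun n => Nat.casesOn (motive := fun n => GQ → Fin 2 → LamN p n) n 0
      fun n => cc e (n + 1) (κ n)) h.ev_act
    (fun n g => by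
      cases n with
      | zero => exact Eventually.of_forall fun _ => rfl
      | succ n => exact h.ev_cc (k n) g)
    (fun n g g' => by
      cases n with
      | zero => exact Subsingleton.elim _ _
      | succ n => exact h.cc_mul (k n) g g')
    (fun n => by
      cases n with
      | zero => exact ⟨0, fun _ _ => Subsingleton.elim _ _⟩
      | succ n => exact h.cc_trans (k n) (k (n + 1)) (h.dist n))
  exact ⟨z, fun n => (hz (n + 1)).imp fun m hm => ⟨w n, κ n, k n, hm⟩⟩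

end Sys

/-- The two-variable weights. -/
def WW {n : ℕ} (a b : ℤ) (u : Fin 2 → Gam p n) : Gam p n := u 0 ^ a * u 1 ^ b

lemma ev_TH2 (n : ℕ) (j : ℤ) (i : Fin 2) : ∃ c : Gam p n, ∀ u : Fin 2 → Gam p n,
    evalN p j n (TH u i) = (c * WW (![j - 4, j - 1] i) (![j - 1, j - 4] i) u : Gam p n) := by
  refine ⟨(-1) ^ (i : ℕ) * ((-1) ^ (i : ℕ)) ^ (-j), fun u => ?_⟩
  rw [TH, sg2, evalN_single, ← Units.val_mul, WW]
  congr 1
  apply ofMul.injective
  simp only [ofMul_mul, ofMul_inv, ofMul_pow, ofMul_zpow]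
  fin_cases i
  · change _ + -(3 • ofMul (u 0) + _) + _ = _ + ((j - 4) • _ + (j - 1) • _)
    module
  · change _ + -(3 • ofMul (u 1) + _) + _ = _ + ((j - 1) • _ + (j - 4) • _)
    module

variable (e : Fin 2 → GQ → ℤ_[p]ˣ) {n : ℕ} (κ : GQ → (Fin 2 → Gam p n) → ZMod (p ^ n)) (a b : ℤ)

/-- The cocycle of weights `a`, `b`. -/
def cW (g : GQ) : ZMod (p ^ n) := ∑ u, (WW a b (AA e n g u) : Gam p n) * κ g u

variable (n) in
/-- The character of weights `a`, `b`. -/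
def lW (g : GQ) : ZMod (p ^ n) := (chiN p n g * WW a b (fun i => uN n (e i g)) : Gam p n)

/-- The cocycle of weights `a`, `b` is a local coboundary. -/
def NN (V : Pl) : Prop := ∀ g h : DG V,
  cW e κ a b g * (lW e n a b h - 1) - (lW e n a b g - 1) * cW e κ a b h = 0

end General

variable {ρ : GQ →* GL (Fin 2) ℤ_[7]} {e : Fin 2 → GQ → ℤ_[7]ˣ}
  {S : ∀ n, (Fin 2 → Gam 7 n) → Qbˣ} {V : Pl} {δ : Fin 2 → (DG V →* ℤ_[7]ˣ)} {n : ℕ}
  {κ : GQ → (Fin 2 → Gam 7 n) → ZMod (7 ^ n)}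

lemma WW_AA {g : GQ} (hg : Fix g) (a b : ℤ) (u : Fin 2 → Gam 7 n) :
    WW a b (AA e n g u) = WW a b (fun i => uN n (e i g)) * WW a b u := by
  have hsw : ∀ i, sw g i = i := fun i => if_pos hg
  simp only [WW, AA, hsw, mul_zpow]
  exact mul_mul_mul_comm _ _ _ _

lemma Sys.nn (h : Sys ρ e S) (hs : SplitsAs ρ V δ) {z : Z1 (actG ρ)} {m : Fin 2 → LamN 7 n}
    (hz : ∀ g i, proj 7 n (z.1 g i) = cc e n κ g i - (actN ρ n g m i - m i)) {i : Fin 2} {j : ℤ}
    (hc : Cb δ z i j (7 ^ n)) : NN e κ (![j - 4, j - 1] i) (![j - 1, j - 4] i) V := fun g k => by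
  obtain ⟨c, hc'⟩ := ev_TH2 (p := 7) n j i
  have h1 : ∀ g : DG V, evalN 7 j n (proj 7 n (sc V (δ i) g)) =
      lW e n (![j - 4, j - 1] i) (![j - 1, j - 4] i) g ∧ evalN 7 j n (proj 7 n (z.1 g i)) =
        c * cW e κ (![j - 4, j - 1] i) (![j - 1, j - 4] i) g -
          (lW e n (![j - 4, j - 1] i) (![j - 1, j - 4] i) g - 1) * evalN 7 j n (m i) := fun g => by
    have hg := (h.split hs g i).1
    have hsw : ∀ i, sw g i = i := fun i => if_pos hg
    have h2 := congrArg (evalN 7 j n) (h.TH_act n g 1 i)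
    rw [map_mul, map_mul, hsw, hc', hc', WW_AA hg, sg2, evalN_single] at h2
    have h3 : evalN 7 j n (sg2 (chiN 7 n g)⁻¹ (uN n (e i g) ^ 3)⁻¹) =
        lW e n (![j - 4, j - 1] i) (![j - 1, j - 4] i) g := by
      rw [← Units.mul_left_inj (c * WW (![j - 4, j - 1] i) (![j - 1, j - 4] i) 1), ← h2, lW]
      simp only [one_zpow, Units.val_one, Units.val_mul]
      ring
    constructor
    · rw [← h3, sc, ext_coe, (h.split hs g i).2, map_mul, proj_grp, proj_cst,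
        MonoidAlgebra.single_mul_single, mul_one, one_mul, map_inv, ← map_pow, ← map_inv (uN n)]
      rfl
    · rw [hz, h.actN_eq, hsw, map_sub, map_sub, map_mul, h3, cc, map_sum, cW, mul_sum]
      simp only [map_mul, hc', evalN_single, one_zpow, Units.val_one, mul_one, Units.val_mul,
        mul_assoc]
      ring
  have h4 : PadicInt.toZModPow n (eval 7 j (XX (δ i) (fun g => z.1 g i) g k)) = 0 := by
    rw [← RingHom.mem_ker, PadicInt.ker_toZModPow, Ideal.mem_span_singleton]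
    exact_mod_cast hc g k
  simp only [toZModPow_eval, XX, map_sub, map_mul, map_one, (h1 _).1, (h1 _).2] at h4
  rw [← c.mul_right_eq_zero]
  linear_combination h4

lemma Sys.eigen (h : Sys ρ e S) (hs : SplitsAs ρ V δ) {T w : (Fin 2 → Gam 7 n) → Qbˣ}
    (hκ : Kum e n T w κ) {a b : ℤ} (hN : NN e κ a b V) {g₀ : DG V} (h0 : IsUnit (lW e n a b g₀ - 1))
    (l : (Fin 2 → Gam 7 n) → ℤ) (hl : ∀ u, (l u : ZMod (7 ^ n)) = (WW a b u : Gam 7 n)) :
    ∃ y : Qbˣ, y ^ 7 ^ n = ∏ u, T u ^ l u ∧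
      ∀ g : DG V, (∀ u, l (AA e n g u) = l u) → sU g y = y := by
  obtain ⟨v, hv⟩ := h0
  let M : ZMod (7 ^ n) := (v⁻¹ : (ZMod (7 ^ n))ˣ) * cW e κ a b g₀
  let Y : AU := ∑ u, l u • ofMul (w u) - iot 7 n M
  refine ⟨Y.toMul, ofMul.injective ?_, fun g hg => ?_⟩
  · have h1 : 7 ^ n • iot 7 n M = 0 := by
      rw [← map_nsmul, nsmul_eq_mul, ZMod.natCast_self, zero_mul, map_zero]
    rw [ofMul_pow, ofMul_toMul, nsmul_sub, h1, sub_zero, ofMul_prod, ← sum_nsmul]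
    exact sum_congr rfl fun u _ => congrArg ofMul (show (w u ^ l u) ^ 7 ^ n = _ by
      rw [← hκ.root, ← zpow_natCast, ← zpow_natCast, zpow_comm])
  have h1 : WW a b (fun i => uN n (e i g)) = 1 := by
    have := congrArg (Int.cast : ℤ → ZMod (7 ^ n)) (hg 1)
    rwa [hl, hl, Units.val_inj, WW_AA (h.split hs g 0).1, mul_eq_right] at this
  have h2 : ∑ u, l (AA e n g u) • κ g u = (chiN 7 n g : ZMod (7 ^ n)) * M - M := by
    have h3 := hN g g₀
    have h4 := v.inv_mul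
    rw [← hv, lW, h1, mul_one] at h3
    simp only [zsmul_eq_mul, hl]
    change cW e κ a b g = _
    linear_combination (v⁻¹ : (ZMod (7 ^ n))ˣ) * h3 - cW e κ a b g * h4
  have h6 := congrArg (iot 7 n) h2
  rw [map_sum, map_sub, ← aU_iot] at h6
  simp only [map_zsmul, hκ.eq, zsmul_sub, sum_sub_distrib] at h6
  have h7 : ∑ u, l (AA e n g u) • ofMul (w (AA e n g u)) = _ :=
    (h.AE n g).sum_comp fun u => l u • ofMul (w u)
  have h8 : ∑ u, l (AA e n g u) • ofMul (sU g (w u)) = aU g (∑ u, l u • ofMul (w u)) := by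
    rw [map_sum]
    exact sum_congr rfl fun u _ => by rw [hg, map_zsmul]; rfl
  rw [h8, h7] at h6
  change aU g Y = Y
  unfold Y
  rw [map_sub]
  linear_combination (norm := abel) h6

lemma Sys.unit (h : Sys ρ e S) (hs : SplitsAs ρ V δ) {g : DG V} (h1 : om 7 g = 1)
    (h2 : dbar V (δ 0) g ≠ 1) (n : ℕ) {a b : ℤ} (hab : (a - b) % 6 = 3) :
    IsUnit (lW e n a b g - 1) := by
  let r : ℤ_[7]ˣ →* (ZMod 7)ˣ := Units.map (PadicInt.toZMod (p := 7)).toMonoidHom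
  have h3 : r (e 0 g) * r (e 1 g) = 1 := by
    rw [← map_mul, ← h.chi_fix g (h.split hs g 0).1]
    exact Units.ext h1
  have h4 : r (chi 7 g * (e 0 g ^ a * e 1 g ^ b)) = r (e 0 g) ^ 3 := by
    rw [h.chi_fix g (h.split hs g 0).1, map_mul, map_mul, h3, one_mul, map_mul, map_zpow, map_zpow,
      eq_inv_of_mul_eq_one_right h3, inv_zpow', ← zpow_add, ← sub_eq_add_neg,
      show a - b = (6 : ℕ) * ((a - b) / 6) + 3 by omega, zpow_add, zpow_mul, zpow_natCast,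
      ZMod.units_pow_card_sub_one_eq_one 7, one_zpow, one_mul]
    rfl
  have h5 : IsUnit (((chi 7 g * (e 0 g ^ a * e 1 g ^ b) : ℤ_[7]ˣ) : ℤ_[7]) - 1) := by
    by_contra hn
    apply h2
    have h6 : PadicInt.toZMod (((chi 7 g * (e 0 g ^ a * e 1 g ^ b) : ℤ_[7]ˣ) : ℤ_[7]) - 1) = 0 := by
      rw [← RingHom.mem_ker, PadicInt.ker_toZMod]
      exact hn
    rw [map_sub, map_one, sub_eq_zero] at h6
    rw [dbar, ext_coe, (h.split hs g 0).2]
    change ((r (e 0 g ^ 3)⁻¹ : (ZMod 7)ˣ) : ZMod 7) = 1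
    rw [map_inv, map_pow, ← h4, show r _ = 1 from Units.ext h6, inv_one, Units.val_one]
  convert h5.map (PadicInt.toZModPow n) using 1
  rw [map_sub, map_one, lW, WW, ← map_zpow, ← map_zpow, ← map_mul]
  exact congrArg (fun x : Gam 7 n => (x : ZMod (7 ^ n)) - 1) (map_mul (uN n) _ _).symm

/-- Functions that are affine modulo `49` and constant modulo `7`. -/
def Aff (f : ℤ → ℤ → ZMod (7 ^ 2)) : Prop :=
  ∃ A B C : ZMod (7 ^ 2), ∀ s t : ℤ, f s t = A + 7 * ((s : ZMod (7 ^ 2)) * B + (t : ZMod (7 ^ 2)) * C)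

lemma Aff.sub {f g : ℤ → ℤ → ZMod (7 ^ 2)} (hf : Aff f) (hg : Aff g) :
    Aff fun s t => f s t - g s t := by
  obtain ⟨A, B, C, hf⟩ := hf
  obtain ⟨A', B', C', hg⟩ := hg
  exact ⟨A - A', B - B', C - C', fun s t => by simp only [hf, hg]; ring⟩

lemma Aff.mul {f g : ℤ → ℤ → ZMod (7 ^ 2)} (hf : Aff f) (hg : Aff g) :
    Aff fun s t => f s t * g s t := by
  obtain ⟨A, B, C, hf⟩ := hf
  obtain ⟨A', B', C', hg⟩ := hg
  have h : (49 : ZMod (7 ^ 2)) = 0 := rfl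
  exact ⟨A * A', A * B' + B * A', A * C' + C * A', fun s t => by
    simp only [hf, hg]; linear_combination (s * B + t * C) * (s * B' + t * C') * h⟩

lemma aff_const (c : ZMod (7 ^ 2)) : Aff fun _ _ => c := ⟨c, 0, 0, fun _ _ => by ring⟩

lemma aff_WW (u : Fin 2 → Gam 7 2) :
    Aff fun s t => (WW (1 + 6 * s) (4 + 6 * t) u : Gam 7 2) := by
  have h : (49 : ZMod (7 ^ 2)) = 0 := rfl
  have h1 : ∀ x : Gam 7 2, ∃ d : ZMod (7 ^ 2), ∀ s : ℤ, ((x ^ (6 * s) : Gam 7 2) : ZMod (7 ^ 2)) =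
      1 + 7 * ((s : ZMod (7 ^ 2)) * d) := fun x => by
    obtain ⟨d, hd⟩ := pow_aff (p := 7) (by norm_num) x
    refine ⟨-d, fun s => ?_⟩
    obtain ⟨q, hq⟩ := hd 0 (-s)
    rw [show 6 * s = -((((7 : ℕ) : ℤ) - 1) * (((7 : ℕ) : ℤ) ^ 0 * -s)) by push_cast; ring, hq]
    push_cast
    linear_combination q * h
  obtain ⟨d, hd⟩ := h1 (u 0)
  obtain ⟨d', hd'⟩ := h1 (u 1)
  refine ⟨(WW 1 4 u : Gam 7 2), (WW 1 4 u : Gam 7 2) * d, (WW 1 4 u : Gam 7 2) * d', fun s t => ?_⟩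
  simp only [WW, zpow_add, Units.val_mul, hd, hd']
  linear_combination (u 0 ^ (1 : ℤ) : Gam 7 2) * (u 1 ^ (4 : ℤ) : Gam 7 2) * s * d * t * d' * h

lemma nn_aff {κ : GQ → (Fin 2 → Gam 7 2) → ZMod (7 ^ 2)} {c : ℤ} (hc : c = 0 ∨ c = 1) (t₀ : ℤ)
    (h1 : ∀ t, NN e κ (1 + 6 * t) (4 + 6 * (t - c)) V)
    (h2 : NN e κ (1 + 6 * t₀) (4 + 6 * (t₀ - (1 - c))) V) : NN e κ 7 28 V := fun g k => by
  have a1 : ∀ g, Aff fun s t => cW e κ (1 + 6 * s) (4 + 6 * t) g := fun g => by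
    choose A B C h using fun u => (aff_WW (AA e 2 g u)).mul (aff_const (κ g u))
    refine ⟨∑ u, A u, ∑ u, B u, ∑ u, C u, fun s t => ?_⟩
    simp only [cW, h, sum_add_distrib, ← mul_sum]
  have a2 : ∀ g, Aff fun s t => lW e 2 (1 + 6 * s) (4 + 6 * t) g - 1 := fun g =>
    ((aff_const _).mul (aff_WW _)).sub (aff_const 1)
  obtain ⟨A, B, C, h⟩ := ((a1 g).mul (a2 k)).sub ((a2 g).mul (a1 k))
  have e0 := (h _ _).symm.trans (h1 0 g k)
  have e1 := (h _ _).symm.trans (h1 1 g k)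
  have e2 := (h _ _).symm.trans (h2 g k)
  refine (h 1 4).trans ?_
  rcases hc with rfl | rfl <;> push_cast at e0 e1 e2 ⊢
  · linear_combination (3 - 3 * t₀ : ZMod (7 ^ 2)) * e0 + (1 + 3 * t₀ : ZMod (7 ^ 2)) * e1 - 3 * e2
  · linear_combination (-4 + 4 * t₀ : ZMod (7 ^ 2)) * e0 + (1 - 4 * t₀ : ZMod (7 ^ 2)) * e1 + 4 * e2

end Pool.Agent.MP_59efd2_nt.lz.UB
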